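import Pool.Agent.Lib.MP_7a2af1_al.Mg.G001

section

/-!
# The inverse of `1 + R`
-/

set_option autoImplicit false

open MonoidAlgebra

namespace Pool.Agent.Lib.MP_7a2af1_al

universe u w

variable {q : ℕ} [Fact q.Prime] {G : Type u} [Group G]

/-- PROOF. `R = q b`, `b ∈ B0`. Work in `A = MonoidAlgebra ℤ_[q] G` (a free `ℤ_[q]`-module of finite rank; `ℤ_[q]` is a local ring with maximal ideal `(q)`), `b = ` the image of `b₀ ∈ A`. The
left multiplication by `1 + q b₀` on `A` is surjective by Nakayama: `A = (1 + q b₀) A + q A` since `x = (1 + q b₀) x - q b₀ x` (`Submodule.le_of_le_smul_of_le_jacobson_bot` for `N = ⊤`, or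
`Submodule.sup_eq_sup_smul_of_le_smul_of_le_jacobson`..), so `(1 + q b₀) r = 1` for some `r ∈ A`. Also `r = 1 - q b₀ r = 1 + q b₁`, `b₁ = - b₀ r`, so in the same way `r s = 1` for some `s`, and then
`s = (1 + q b₀) r s = 1 + q b₀`: `r (1 + q b₀) = 1`. `R' = ` the image of `r` in `BQ q G`. `Un R'`: `R' ∈ B0`, and `aug R' * (1 + aug R) = 1` with `‖1 + aug R‖ = 1` (`aug R ∈ q ℤ_q`). (Another proof: the geometric
series in the complete ring; or the determinant of the left multiplication, which is `1` modulo `q`.) -/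
theorem exists_inv_one_add [Finite G] {R : BQ q G} (hR : R ∈ Sm q G 1) :
    ∃ R' : BQ q G, Un R' ∧ (1 + R) * R' = 1 ∧ R' * (1 + R) = 1 := by
  obtain ⟨b, hb, rfl⟩ := hR
  obtain ⟨b₀, rfl⟩ := hb
  have key : ∀ c : MonoidAlgebra ℤ_[q] G, ∃ r : MonoidAlgebra ℤ_[q] G, (1 + (q : MonoidAlgebra ℤ_[q] G) * c) * r = 1 := by
    intro c
    have htop : (⊤ : Submodule ℤ_[q] (MonoidAlgebra ℤ_[q] G)) ≤
        LinearMap.range (LinearMap.mulLeft ℤ_[q] (1 + (q : MonoidAlgebra ℤ_[q] G) * c)) := by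
      refine Submodule.le_of_le_smul_of_le_jacobson_bot (I := IsLocalRing.maximalIdeal ℤ_[q])
        Module.Finite.fg_top (IsLocalRing.maximalIdeal_le_jacobson _) ?_
      intro x _
      have hx : x = (1 + (q : MonoidAlgebra ℤ_[q] G) * c) * x + (q : ℤ_[q]) • (-(c * x)) := by
        rw [Nat.cast_smul_eq_nsmul, nsmul_eq_mul]
        noncomm_ring
      rw [hx]
      refine Submodule.add_mem_sup ⟨x, rfl⟩ (Submodule.smul_mem_smul ?_ trivial)
      rw [PadicInt.maximalIdeal_eq_span_p]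
      exact Ideal.mem_span_singleton_self _
    obtain ⟨r, hr⟩ := htop (x := 1) trivial
    exact ⟨r, hr⟩
  obtain ⟨r, hr⟩ := key b₀
  have hr1 : r = 1 + (q : MonoidAlgebra ℤ_[q] G) * (-(b₀ * r)) := by
    have : (q : MonoidAlgebra ℤ_[q] G) * (b₀ * r) = 1 - r := by
      rw [← hr]
      noncomm_ring
    rw [mul_neg, this]
    abel
  obtain ⟨s, hs⟩ := key (-(b₀ * r))
  rw [← hr1] at hs
  have hr2 : r * (1 + (q : MonoidAlgebra ℤ_[q] G) * b₀) = 1 := by
    have h1 : s = 1 + (q : MonoidAlgebra ℤ_[q] G) * b₀ := by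
      calc s = ((1 + (q : MonoidAlgebra ℤ_[q] G) * b₀) * r) * s := by rw [hr, one_mul]
        _ = (1 + (q : MonoidAlgebra ℤ_[q] G) * b₀) * (r * s) := mul_assoc _ _ _
        _ = _ := by rw [hs, mul_one]
    rw [← h1]
    exact hs
  have hφ : ∀ c : MonoidAlgebra ℤ_[q] G,
      (1 + (q : BQ q G) ^ 1 * (MonoidAlgebra.mapRingHom G (PadicInt.Coe.ringHom (p := q))) c) =
      (MonoidAlgebra.mapRingHom G (PadicInt.Coe.ringHom (p := q))) (1 + (q : MonoidAlgebra ℤ_[q] G) * c) := by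
    intro c
    rw [map_add, map_one, map_mul, map_natCast, pow_one]
  have hmul1 : (1 + (q : BQ q G) ^ 1 * (MonoidAlgebra.mapRingHom G (PadicInt.Coe.ringHom (p := q))) b₀) *
      (MonoidAlgebra.mapRingHom G (PadicInt.Coe.ringHom (p := q))) r = 1 := by
    rw [hφ, ← map_mul, hr, map_one]
  have hmul2 : (MonoidAlgebra.mapRingHom G (PadicInt.Coe.ringHom (p := q))) r *
      (1 + (q : BQ q G) ^ 1 * (MonoidAlgebra.mapRingHom G (PadicInt.Coe.ringHom (p := q))) b₀) = 1 := by
    rw [hφ, ← map_mul, hr2, map_one]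
  refine ⟨(MonoidAlgebra.mapRingHom G (PadicInt.Coe.ringHom (p := q))) r, ⟨⟨r, rfl⟩, ?_⟩, hmul1, hmul2⟩
  have hone : Un (1 : BQ q G) := ⟨(B0 q G).one_mem, by rw [map_one, norm_one]⟩
  have hU : Un (1 + (q : BQ q G) ^ 1 * (MonoidAlgebra.mapRingHom G (PadicInt.Coe.ringHom (p := q))) b₀) :=
    hone.add_Sm ⟨_, ⟨b₀, rfl⟩, rfl⟩
  have h2 := congrArg (aug ℚ_[q] G) hmul1
  rw [map_mul, map_one] at h2
  have h3 := congrArg norm h2
  rw [norm_mul, hU.2, one_mul, norm_one] at h3
  exact h3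

end Pool.Agent.Lib.MP_7a2af1_al
end

section

/-!
# Invertible elements
-/
end

section

/-!
# Claim D
-/

set_option autoImplicit false

open MonoidAlgebra

namespace Pool.Agent.Lib.MP_7a2af1_al

universe u

variable {q : ℕ} [Fact q.Prime] {G : Type u} [Group G]

/-- Claim D. PROOF. `X, X', N` from `approx`; `S' = ` the primes dividing `|G|`, except `q`, together with `S`. For `p ∈ S`: `Kq p v` gives `Zp`; `t p = Zp + p X'` (augmentation `≡ aug Zp`); for the other
`p ∈ S'`: `t p = 1`. `M` = 2 + the sum of the `ν_p(N)`, `p ∈ S` (so `M ≥ ν_p + 2`). `toP c = Φ + r`, `r ∈ Sm L`; `Φ` is a unit: `toP c * QP v = Φ QP v + r Φ⁻¹ (Φ QP v) = (1 + r Φ⁻¹) Φ QP v`, and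
`r Φ⁻¹ ∈ Sm 1` for `L` large (`exists_scale` for `Φ⁻¹`). `Z (1 + r Φ⁻¹)⁻¹` kills it: `descent` gives `Kq q (c v)`. `c v ≠ 0`: `QP (c v) = (1 + r Φ⁻¹) Φ QP v`, units, `QP` injective. The primes of
`S`: `Kq_of_approx`. -/
theorem claimD [Fintype G] (v : MonoidAlgebra ℚ G) (hv : v ≠ 0) {Φ Z : BQ q G} (hΦ : Φ ∈ MM q G)
    (hZ : Un Z) (hZΦ : Z * (Φ * QP G q v) = 0) (S : Finset ℕ) (hqS : q ∉ S)
    (hS : ∀ p ∈ S, p.Prime ∧ Kq p v) :
    ∃ c ∈ CB G, toQ G c * v ≠ 0 ∧ ∀ p ∈ insert q S, Kq p (toQ G c * v) := by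
  classical
  obtain ⟨X, X', N, hN, hX, happ⟩ := approx hΦ
  have hchoose : ∀ p : ℕ, ∃ Zp : MonoidAlgebra ℤ G, p ∈ S →
      toQ G Zp * v = 0 ∧ ¬ (p : ℤ) ∣ aug ℤ G Zp := by
    intro p
    by_cases h : p ∈ S
    · obtain ⟨Zp, h1, h2⟩ := (hS p h).2
      exact ⟨Zp, fun _ => ⟨h1, h2⟩⟩
    · exact ⟨1, fun h' => absurd h' h⟩
  choose Zf hZf using hchoose
  -- the inverse of Φ
  obtain ⟨u, hu⟩ := isUnit_of_mem_MM hΦ
  set Φi : BQ q G := ((u⁻¹ : (BQ q G)ˣ) : BQ q G) with hΦi
  have hiΦ : Φi * Φ = 1 := by rw [hΦi, ← hu]; exact u.inv_mul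
  obtain ⟨c₀, hc₀⟩ := exists_scale (q := q) (G := G) Φi
  set S' : Finset ℕ := S ∪ (Nat.card G).primeFactors.erase q with hS'
  set t : ℕ → MonoidAlgebra ℤ G := fun p =>
    if p ∈ S then Zf p + (p : MonoidAlgebra ℤ G) * X' else 1 with ht
  set M : ℕ := 2 + ∑ p ∈ S, multiplicity (p : ℤ) N with hM
  have hS'1 : ∀ p ∈ S', p.Prime ∧ p ≠ q := by
    intro p hp
    rcases Finset.mem_union.mp hp with hp | hp
    · exact ⟨(hS p hp).1, fun h => hqS (h ▸ hp)⟩
    · rw [Finset.mem_erase] at hp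
      exact ⟨Nat.prime_of_mem_primeFactors hp.2, hp.1⟩
  have hS'2 : ∀ p : ℕ, p.Prime → p ∣ Nat.card G → p = q ∨ p ∈ S' := by
    intro p hp hpd
    by_cases h : p = q
    · exact Or.inl h
    · right
      apply Finset.mem_union_right
      rw [Finset.mem_erase]
      exact ⟨h, Nat.mem_primeFactors.mpr ⟨hp, hpd, Nat.card_pos.ne'⟩⟩
  have ht1 : ∀ p ∈ S', ¬ (p : ℤ) ∣ aug ℤ G (t p) := by
    intro p hp hd
    by_cases h : p ∈ S
    · simp only [ht, if_pos h, map_add, map_mul, map_natCast] at hd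
      exact (hZf p h).2 ((dvd_add_left (Dvd.intro _ rfl)).mp hd)
    · simp only [ht, if_neg h, map_one] at hd
      have h1 := Int.isUnit_iff.mp (isUnit_of_dvd_one hd)
      have h2 := (hS'1 p hp).1.two_le
      rcases h1 with h1 | h1 <;> omega
  obtain ⟨c, hc, hc1, hc2⟩ := happ S' hS'1 hS'2 t ht1 (c₀ + 1) M (by omega) (by omega)
  -- the element r
  set r : BQ q G := toP G q c - Φ with hr
  have hrΦ : r * Φi ∈ Sm q G 1 := by
    obtain ⟨b, hb, hrb⟩ := hc1
    have h1 : r * Φi = b * ((q : BQ q G) ^ (c₀ + 1) * Φi) := by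
      have h2 : b * (q : BQ q G) ^ (c₀ + 1) = (q : BQ q G) ^ (c₀ + 1) * b :=
        ((Nat.cast_commute q b).pow_left (c₀ + 1)).symm.eq
      rw [hrb, ← mul_assoc, h2]
    rw [h1]
    exact Sm_mul_left hb (hc₀ 1)
  obtain ⟨R', hR', hR1, hR2⟩ := exists_inv_one_add hrΦ
  have hkey : QP G q (toQ G c * v) = (1 + r * Φi) * (Φ * QP G q v) := by
    have h1 : toP G q c = (1 + r * Φi) * Φ := by
      rw [add_mul, one_mul, mul_assoc, hiΦ, mul_one, hr]
      abel
    rw [map_mul, QP_toQ, h1, mul_assoc]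
  refine ⟨c, hc, ?_, ?_⟩
  · intro h0
    rw [h0, map_zero] at hkey
    have h1 : Φ * QP G q v = 0 := by
      have h2 : R' * ((1 + r * Φi) * (Φ * QP G q v)) = 0 := by rw [← hkey, mul_zero]
      rwa [← mul_assoc, hR2, one_mul] at h2
    have h3 : QP G q v = 0 := by
      have h2 : Φi * (Φ * QP G q v) = 0 := by rw [h1, mul_zero]
      rwa [← mul_assoc, hiΦ, one_mul] at h2
    exact hv (QP_injective q (by rw [h3, map_zero]))
  · intro p hp
    rcases Finset.mem_insert.mp hp with rfl | hp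
    · apply descent (toQ G c * v) (hZ.mul hR')
      rw [hkey, mul_assoc, ← mul_assoc R', hR2, one_mul, hZΦ]
    · have hpp := (hS p hp).1
      have hfin : FiniteMultiplicity (p : ℤ) N := by
        rw [Int.finiteMultiplicity_iff]
        exact ⟨by rw [Int.natAbs_natCast]; exact hpp.one_lt.ne', hN⟩
      obtain ⟨N', hN1, hN2⟩ := hfin.exists_eq_pow_mul_and_not_dvd
      obtain ⟨R, hR⟩ := hc2 p (Finset.mem_union_left _ hp)
      have hle : multiplicity (p : ℤ) N + 2 ≤ M := by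
        have := Finset.single_le_sum (f := fun p : ℕ => multiplicity (p : ℤ) N)
          (fun _ _ => Nat.zero_le _) hp
        omega
      obtain ⟨k, hk⟩ := Nat.exists_eq_add_of_le hle
      apply Kq_of_approx hpp (hZf p hp).1 (hZf p hp).2 hX hN1 hN2
        (R := (p : MonoidAlgebra ℤ G) ^ k * R)
      rw [hR, ← mul_assoc ((p : MonoidAlgebra ℤ G) ^ (multiplicity (p : ℤ) N + 2)), ← pow_add, ← hk]
      simp only [ht, if_pos hp]

end Pool.Agent.Lib.MP_7a2af1_al
end

section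

/-!
# Products of blocks in the group ring
-/

set_option autoImplicit false

open MonoidAlgebra

namespace Pool.Agent.Lib.MP_7a2af1_al

universe u

variable {G : Type u} [Group G]

private theorem G2a_inst {α M : Type*} [AddCommMonoid M] (i1 i2 : Fintype α) (f : α → M) :
    @Finset.sum α M _ (@Finset.univ α i1) f = @Finset.sum α M _ (@Finset.univ α i2) f := by
  rw [Subsingleton.elim i1 i2]

private theorem G2a_sum (L : List (Blk G)) : ∀ [Fintype (Idx L)],
    ((L.map bEl).prod : MonoidAlgebra ℤ G) = ∑ x : Idx L, single (ev L x) (1 : ℤ) := by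
  induction L with
  | nil =>
    intro inst
    rw [G2a_inst inst (PUnit.fintype : Fintype Unit)]
    change _ = ∑ x : Unit, (1 : MonoidAlgebra ℤ G)
    simp
  | cons B L ih =>
    intro inst
    let _ : Fintype (Idx L) := Fintype.ofFinite _
    rw [G2a_inst inst (instFintypeProd (Fin B.p) (Idx L))]
    change _ = ∑ x : Fin B.p × Idx L, single (B.f x.1 * ev L x.2) (1 : ℤ)
    rw [List.map_cons, List.prod_cons, ih, bEl, Finset.sum_mul_sum, Fintype.sum_prod_type]
    refine Finset.sum_congr rfl fun i _ => Finset.sum_congr rfl fun x _ => ?_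
    rw [single_mul_single, one_mul]

private theorem G2a_nonempty {L : List (Blk G)} (hL : PrimeBlks L) : Nonempty (Idx L) := by
  induction L with
  | nil => exact ⟨(() : Unit)⟩
  | cons B L ih =>
    obtain ⟨x⟩ := ih fun C hC => hL C (List.mem_cons_of_mem _ hC)
    exact ⟨((⟨0, (hL B List.mem_cons_self).pos⟩, x) : Fin B.p × Idx L)⟩

private theorem G2a_list {b : MonoidAlgebra ℤ G} (hb : b ∈ BB G) :
    ∃ L : List (Blk G), PrimeBlks L ∧ (L.map bEl).prod = b := by
  unfold BB at hb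
  induction hb using Submonoid.closure_induction with
  | mem x hx =>
    obtain ⟨B, hB, rfl⟩ := hx
    refine ⟨[B], ?_, by simp⟩
    intro C hC
    rw [List.mem_singleton] at hC
    rw [hC]
    exact hB
  | one => exact ⟨[], fun C hC => absurd hC (by simp), by simp⟩
  | mul x y hx hy ihx ihy =>
    obtain ⟨L, hL, hx'⟩ := ihx
    obtain ⟨L', hL', hy'⟩ := ihy
    exact ⟨L ++ L', hL.append hL', by rw [List.map_append, List.prod_append, hx', hy']⟩

/-- The element of a list of blocks. PROOF: induction on `L`: `∏ bEl = ∑ x : Idx L, single (ev L x) 1`. -/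
theorem prod_bEl (L : List (Blk G)) (g : G) :
    ((L.map bEl).prod : MonoidAlgebra ℤ G).coeff g = (Nat.card {x : Idx L // ev L x = g} : ℤ) := by
  classical
  let _ : Fintype (Idx L) := Fintype.ofFinite _
  rw [G2a_sum L, coeff_sum, Finsupp.finsetSum_apply, Nat.card_eq_fintype_card,
    Fintype.card_subtype]
  simp [coeff_single, Finsupp.single_apply]

/-- PROOF: `Submonoid.exists_list_of_mem_closure`, `prod_bEl`. -/
theorem exists_list_of_mem_BB {b : MonoidAlgebra ℤ G} (hb : b ∈ BB G) :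
    ∃ L : List (Blk G), PrimeBlks L ∧ ∀ g, b.coeff g = (Nat.card {x : Idx L // ev L x = g} : ℤ) := by
  obtain ⟨L, hL, rfl⟩ := G2a_list hb
  exact ⟨L, hL, prod_bEl L⟩

theorem list_mem_BB (L : List (Blk G)) (hL : PrimeBlks L) :
    ∃ b ∈ BB G, ∀ g, b.coeff g = (Nat.card {x : Idx L // ev L x = g} : ℤ) := by
  refine ⟨(L.map bEl).prod, ?_, prod_bEl L⟩
  refine Submonoid.list_prod_mem _ ?_
  intro x hx
  obtain ⟨B, hB, rfl⟩ := List.mem_map.1 hx
  exact Submonoid.subset_closure ⟨B, hL B hB, rfl⟩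

/-- PROOF: `exists_list_of_mem_BB`; all numbers are `m`; `m ≥ 1` since `Idx L` is not empty (primes, `card_Idx`). -/
theorem hasU_of_mem_BB [Fintype G] {b : MonoidAlgebra ℤ G} (hb : b ∈ BB G) {m : ℤ}
    (h : b = m • nrm ℤ G) : HasU G := by
  obtain ⟨L, hL, hc⟩ := exists_list_of_mem_BB hb
  have hm : ∀ g : G, (Nat.card {x : Idx L // ev L x = g} : ℤ) = m := by
    intro g
    rw [← hc g, h, coeff_smul_apply]
    have : (nrm ℤ G).coeff g = 1 := by
      classical
      unfold nrm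
      rw [coeff_sum, Finsupp.finsetSum_apply]
      simp [coeff_single, Finsupp.single_apply]
    rw [this, smul_eq_mul, mul_one]
  obtain ⟨x⟩ := G2a_nonempty hL
  have h1 : 1 ≤ Nat.card {y : Idx L // ev L y = ev L x} := by
    have : Nonempty {y : Idx L // ev L y = ev L x} := ⟨⟨x, rfl⟩⟩
    exact Nat.card_pos
  refine ⟨L, hL, Nat.card {y : Idx L // ev L y = ev L x}, h1, fun g => ?_⟩
  have := (hm g).trans (hm (ev L x)).symm
  exact_mod_cast this

end Pool.Agent.Lib.MP_7a2af1_al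
end

section

/-!
# Blocks of a subgroup
-/

set_option autoImplicit false

open MonoidAlgebra

namespace Pool.Agent.Lib.MP_7a2af1_al

universe u

variable {G : Type u} [Group G]

/-- PROOF: `mapB P.subtype L`, `exists_map`, `list_mem_BB`; an element outside `P` is never a product. -/
theorem mem_BB_of_subgroup [Finite G] (P : Subgroup G) (h : HasU P) :
    ∃ b ∈ BB G, ∃ μ : ℤ, μ ≠ 0 ∧
      ∀ g, (g ∈ P → b.coeff g = μ) ∧ (g ∉ P → b.coeff g = 0) := by
  obtain ⟨L, hL, μ, hμ, hc⟩ := h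
  obtain ⟨b, hb, hbc⟩ := list_mem_BB (mapB P.subtype L) (hL.mapB P.subtype)
  obtain ⟨e, he⟩ := exists_map P.subtype L
  refine ⟨b, hb, μ, by exact_mod_cast (Nat.one_le_iff_ne_zero.mp hμ), fun g => ⟨fun hg => ?_, fun hg => ?_⟩⟩
  · rw [hbc g, ← hc ⟨g, hg⟩]
    congr 1
    refine Nat.card_congr (e.subtypeEquiv fun x => ?_)
    rw [he x]
    constructor
    · intro h1
      exact Subtype.ext h1
    · intro h1
      rw [h1]
      rfl
  · rw [hbc g]
    have : IsEmpty {x : Idx (mapB P.subtype L) // ev (mapB P.subtype L) x = g} := by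
      constructor
      rintro ⟨x, hx⟩
      apply hg
      rw [← hx, he x]
      exact (ev L (e x)).2
    rw [Nat.card_of_isEmpty]
    rfl

end Pool.Agent.Lib.MP_7a2af1_al
end

section

/-!
# Killing left ideals: minimal dimension
-/

set_option autoImplicit false

open MonoidAlgebra

namespace Pool.Agent.Lib.MP_7a2af1_al

universe u

variable {G : Type u} [Group G]

/-- PROOF. Choose `b ∈ BB G` such that the dimension over `ℚ` of `b V` is minimal (`b V` = the image of the `ℚ`-subspace `V` under the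
`ℚ`-linear map `x ↦ toQ b * x`; `ℚ[G]` has finite dimension). If `b V ≠ 0` take `x ∈ V` with `b x ≠ 0`; `b x ∈ V`; `b'` with `b' b x = 0`; the map
`b' : b V → b' b V` is surjective and not injective, so `dim (b' b V) < dim (b V)`. -/
theorem kill_min [Fintype G] (V : Submodule (MonoidAlgebra ℚ G) (MonoidAlgebra ℚ G))
    (hC : ∀ v ∈ V, v ≠ 0 → ∃ b ∈ BB G, toQ G b * v = 0) : ∃ b ∈ BB G, ∀ v ∈ V, toQ G b * v = 0 := by
  classical
  let V' : Submodule ℚ (MonoidAlgebra ℚ G) := V.restrictScalars ℚ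
  let d : MonoidAlgebra ℤ G → ℕ := fun b =>
    Module.finrank ℚ (V'.map (LinearMap.mulLeft ℚ (toQ G b)))
  have hex : ∃ n, ∃ b ∈ BB G, d b = n := ⟨d 1, 1, (BB G).one_mem, rfl⟩
  obtain ⟨b, hb, hbn⟩ := Nat.find_spec hex
  refine ⟨b, hb, ?_⟩
  intro v hv
  by_contra hne
  have hxV : toQ G b * v ∈ V := V.smul_mem (toQ G b) hv
  obtain ⟨b', hb', h0⟩ := hC (toQ G b * v) hxV hne
  have hlt : d (b' * b) < d b := by
    have hmap : V'.map (LinearMap.mulLeft ℚ (toQ G (b' * b))) =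
        (V'.map (LinearMap.mulLeft ℚ (toQ G b))).map (LinearMap.mulLeft ℚ (toQ G b')) := by
      rw [← Submodule.map_comp]
      congr 1
      ext1 y
      simp
    have hmem : toQ G b * v ∈ V'.map (LinearMap.mulLeft ℚ (toQ G b)) :=
      Submodule.mem_map.2 ⟨v, hv, rfl⟩
    show Module.finrank ℚ (V'.map (LinearMap.mulLeft ℚ (toQ G (b' * b)))) <
      Module.finrank ℚ (V'.map (LinearMap.mulLeft ℚ (toQ G b)))
    rw [hmap]
    generalize V'.map (LinearMap.mulLeft ℚ (toQ G b)) = W at hmem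
    have h1 := LinearMap.finrank_range_add_finrank_ker ((LinearMap.mulLeft ℚ (toQ G b')).domRestrict W)
    have h2 : LinearMap.range ((LinearMap.mulLeft ℚ (toQ G b')).domRestrict W) =
        W.map (LinearMap.mulLeft ℚ (toQ G b')) := LinearMap.range_domRestrict _ _
    rw [h2] at h1
    have h3 : 0 < Module.finrank ℚ (LinearMap.ker ((LinearMap.mulLeft ℚ (toQ G b')).domRestrict W)) := by
      refine (Module.finrank_pos_iff_exists_ne_zero (R := ℚ)
        (M := LinearMap.ker ((LinearMap.mulLeft ℚ (toQ G b')).domRestrict W))).2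
        ⟨⟨⟨toQ G b * v, hmem⟩, ?_⟩, ?_⟩
      · rw [LinearMap.mem_ker]
        exact h0
      · intro hh
        apply hne
        exact congrArg Subtype.val (congrArg Subtype.val hh)
    omega
  exact absurd (Nat.find_min' hex ⟨b' * b, (BB G).mul_mem hb' hb, rfl⟩) (by omega)

end Pool.Agent.Lib.MP_7a2af1_al
end

section

/-!
# Elements killing the augmentation part
-/

set_option autoImplicit false

open MonoidAlgebra

namespace Pool.Agent.Lib.MP_7a2af1_al

universe u

variable {G : Type u} [Group G]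

private theorem G6c_coeff_nrm [Fintype G] {R : Type} [CommRing R] (g : G) :
    (nrm R G).coeff g = 1 := by
  classical
  unfold nrm
  rw [coeff_sum, Finsupp.finsetSum_apply]
  simp [coeff_single, Finsupp.single_apply]

/-- PROOF. `V = {v | nrm * v = 0}` is a left ideal (`nrm` is central). It contains `1 - |G|⁻¹ nrm`. So `toQ b = toQ b * |G|⁻¹ nrm = (aug b / |G|) • nrm`;
the coefficients of `b` are integers: `b = m • nrm` with `m = b.coeff 1`. -/
theorem exists_mul_nrm [Fintype G] {b : MonoidAlgebra ℤ G}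
    (h : ∀ v : MonoidAlgebra ℚ G, nrm ℚ G * v = 0 → toQ G b * v = 0) : ∃ m : ℤ, b = m • nrm ℤ G := by
  have hn : nrm ℚ G * nrm ℚ G = ((Nat.card G : ℕ) : ℚ) • nrm ℚ G := by
    rw [nrm_mul, aug_nrm]
  have h1 : nrm ℚ G * (((Nat.card G : ℕ) : ℚ) • (1 : MonoidAlgebra ℚ G) - nrm ℚ G) = 0 := by
    rw [mul_sub, hn, mul_smul_comm, mul_one, sub_self]
  have h2 := h _ h1
  rw [mul_sub, mul_smul_comm, mul_one, mul_nrm, sub_eq_zero] at h2
  have h3 : ∀ g : G, ((Nat.card G : ℕ) : ℚ) * ((b.coeff g : ℤ) : ℚ) = aug ℚ G (toQ G b) := by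
    intro g
    have := congrArg (fun x : MonoidAlgebra ℚ G => x.coeff g) h2
    simp only [coeff_smul_apply, G6c_coeff_nrm, smul_eq_mul, mul_one] at this
    rw [← this]
    rfl
  have hc : ((Nat.card G : ℕ) : ℚ) ≠ 0 := by exact_mod_cast Nat.card_pos.ne'
  have h4 : ∀ g : G, b.coeff g = b.coeff 1 := by
    intro g
    have := (h3 g).trans (h3 1).symm
    exact_mod_cast mul_left_cancel₀ hc this
  refine ⟨b.coeff 1, ?_⟩
  apply MonoidAlgebra.ext
  ext g
  rw [coeff_smul_apply, G6c_coeff_nrm, smul_eq_mul, mul_one, h4 g]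

end Pool.Agent.Lib.MP_7a2af1_al
end

section

/-!
# Killing left ideals
-/
end

section

/-!
# Elements with nonnegative coefficients
-/

set_option autoImplicit false

open MonoidAlgebra

namespace Pool.Agent.Lib.MP_7a2af1_al

universe u

variable {G : Type u} [Group G]

/-- An element with coefficients `≥ 0` and prime augmentation is a block. PROOF: the list with `b.coeff g` times `g`; e.g. the
type `Σ g, Fin (b.coeff g).toNat` has `p` elements, take an equivalence with `Fin p`. -/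
theorem mem_BB_of_nonneg [Fintype G] (b : MonoidAlgebra ℤ G) (h : ∀ g, 0 ≤ b.coeff g) (p : ℕ)
    (hp : p.Prime) (ha : aug ℤ G b = p) : b ∈ BB G := by
  classical
  have hb : b = ∑ g : G, single g (b.coeff g) := eq_sum_single ℤ b
  have haug : aug ℤ G b = ∑ g : G, b.coeff g := aug_eq_sum ℤ b
  have hcard : Fintype.card (Σ g : G, Fin (b.coeff g).toNat) = p := by
    rw [Fintype.card_sigma]
    simp only [Fintype.card_fin]
    zify
    rw [← ha, haug]
    refine Finset.sum_congr rfl fun g _ => ?_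
    exact Int.toNat_of_nonneg (h g)
  let e : (Σ g : G, Fin (b.coeff g).toNat) ≃ Fin p := Fintype.equivFinOfCardEq hcard
  apply Submonoid.subset_closure
  refine ⟨⟨p, fun i => (e.symm i).1⟩, hp, ?_⟩
  show b = ∑ i : Fin p, single ((e.symm i).1) (1 : ℤ)
  rw [Equiv.sum_comp e.symm (fun y : (Σ g : G, Fin (b.coeff g).toNat) => single y.1 (1 : ℤ))]
  rw [Fintype.sum_sigma]
  conv_lhs => rw [hb]
  refine Finset.sum_congr rfl fun g _ => ?_
  simp only [Finset.sum_const, Finset.card_univ, Fintype.card_fin]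
  apply MonoidAlgebra.ext
  apply Finsupp.ext
  intro x
  simp only [coeff_single, coeff_smul, Finsupp.smul_apply, Finsupp.single_apply]
  split_ifs
  · simp [Int.toNat_of_nonneg (h g)]
  · simp

/-- PROOF: the block `1, ..., 1, g` of length `q`. -/
theorem yel_mem_BB (q : ℕ) (hq : q.Prime) (g : G) : yel ℤ q g ∈ BB G := by
  obtain ⟨n, rfl⟩ : ∃ n, q = n + 1 := ⟨q - 1, (Nat.succ_pred_eq_of_pos hq.pos).symm⟩
  apply Submonoid.subset_closure
  refine ⟨⟨n + 1, fun i => if i = 0 then g else 1⟩, hq, ?_⟩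
  show yel ℤ (n + 1) g = ∑ i : Fin (n + 1), single (if i = 0 then g else 1) (1 : ℤ)
  rw [Fin.sum_univ_succ]
  simp only [if_true, Fin.succ_ne_zero, if_false, Finset.sum_const, Finset.card_univ, Fintype.card_fin]
  rw [← MonoidAlgebra.one_def]
  simp only [yel]
  push_cast
  simp only [nsmul_eq_mul, mul_one]
  abel

end Pool.Agent.Lib.MP_7a2af1_al
end

section

/-!
# Dirichlet
-/

set_option autoImplicit false

open MonoidAlgebra

namespace Pool.Agent.Lib.MP_7a2af1_al

universe u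

variable {G : Type u} [Group G]

/-- Dirichlet. PROOF: `Z + k • nrm` has the augmentation `aug Z + k |G|`; by Dirichlet's theorem
(`Nat.forall_exists_prime_gt_and_eq_mod`, or `Nat.setOf_prime_and_eq_mod_infinite`) it is prime for arbitrarily large `k`, and for large `k` all
coefficients are `≥ 0`; `mem_BB_of_nonneg`. (`|G| = 1`: any large prime.) -/
theorem dirichlet [Fintype G] (Z : MonoidAlgebra ℤ G) (h : IsCoprime (aug ℤ G Z) (Nat.card G : ℤ)) :
    ∃ b ∈ BB G, ∃ k : ℤ, b = Z + k • nrm ℤ G := by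
  classical
  have hN : 0 < Nat.card G := Nat.card_pos
  have hcoef : ∀ (k : ℤ) (g : G), (Z + k • nrm ℤ G).coeff g = Z.coeff g + k := by
    intro k g
    unfold nrm
    rw [MonoidAlgebra.coeff_add, MonoidAlgebra.coeff_smul, MonoidAlgebra.coeff_sum]
    rw [Finsupp.add_apply, Finsupp.smul_apply, Finsupp.finsetSum_apply]
    simp only [MonoidAlgebra.coeff_single, Finsupp.single_apply]
    rw [Finset.sum_ite_eq' Finset.univ g (fun _ => (1 : ℤ)), if_pos (Finset.mem_univ g)]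
    simp
  have haug : ∀ k : ℤ, aug ℤ G (Z + k • nrm ℤ G) = aug ℤ G Z + k * (Nat.card G : ℤ) := by
    intro k
    rw [map_add, map_zsmul, aug_nrm, zsmul_eq_mul]
    simp
  set m : ℕ := ∑ g, (Z.coeff g).natAbs with hm
  obtain ⟨p, hpn, hpp, hmod⟩ := Nat.forall_exists_prime_gt_and_zmodEq
    (aug ℤ G Z + (Nat.card G : ℤ) * m).toNat (q := Nat.card G) (a := aug ℤ G Z) hN.ne' h
  obtain ⟨k, hk⟩ := hmod.symm.dvd
  have h1 : aug ℤ G Z + (Nat.card G : ℤ) * m < p := by
    have h2 := Int.self_le_toNat (aug ℤ G Z + (Nat.card G : ℤ) * m)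
    have h3 : ((aug ℤ G Z + (Nat.card G : ℤ) * m).toNat : ℤ) < p := by exact_mod_cast hpn
    linarith
  have hNz : (0 : ℤ) < Nat.card G := by exact_mod_cast hN
  have hmk : (m : ℤ) ≤ k := by
    by_contra hlt
    have h4 : k < m := not_le.mp hlt
    have h5 : (Nat.card G : ℤ) * k ≤ (Nat.card G : ℤ) * m :=
      mul_le_mul_of_nonneg_left h4.le hNz.le
    linarith
  refine ⟨Z + k • nrm ℤ G, mem_BB_of_nonneg _ (fun g => ?_) p hpp ?_, k, rfl⟩
  · rw [hcoef]
    have h6 : (Z.coeff g).natAbs ≤ m :=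
      Finset.single_le_sum (f := fun g => (Z.coeff g).natAbs) (fun _ _ => Nat.zero_le _)
        (Finset.mem_univ g)
    have h7 : ((Z.coeff g).natAbs : ℤ) ≤ m := by exact_mod_cast h6
    rw [Int.natCast_natAbs] at h7
    have h8 := neg_abs_le (Z.coeff g)
    linarith
  · rw [haug]
    linarith

/-- PROOF: `Submonoid.closure_induction`: the generators by `dirichlet`, `yel_mem_BB`; products:
`(c + k • nrm) * (c' + k' • nrm) = c * c' + k'' • nrm` (`mul_nrm`, `nrm_mul`). -/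
theorem CB_to_BB [Fintype G] {c : MonoidAlgebra ℤ G} (hc : c ∈ CB G) :
    ∃ b ∈ BB G, ∃ k : ℤ, b = c + k • nrm ℤ G := by
  unfold CB at hc
  induction hc using Submonoid.closure_induction with
  | mem x hx =>
    rcases hx with hx | ⟨q, g, hq, rfl⟩
    · exact dirichlet x hx
    · exact ⟨yel ℤ q g, yel_mem_BB q hq g, 0, by rw [zero_smul, add_zero]⟩
  | one => exact ⟨1, (BB G).one_mem, 0, by rw [zero_smul, add_zero]⟩
  | mul x y _ _ hx hy =>
    obtain ⟨b, hb, k, rfl⟩ := hx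
    obtain ⟨b', hb', k', rfl⟩ := hy
    refine ⟨_, (BB G).mul_mem hb hb', aug ℤ G x * k' + aug ℤ G y * k +
      k * k' * aug ℤ G (nrm ℤ G), ?_⟩
    have h1 : x * nrm ℤ G = aug ℤ G x • nrm ℤ G := mul_nrm ℤ x
    have h2 : nrm ℤ G * y = aug ℤ G y • nrm ℤ G := nrm_mul ℤ y
    have h3 : nrm ℤ G * nrm ℤ G = aug ℤ G (nrm ℤ G) • nrm ℤ G := nrm_mul ℤ _
    rw [add_mul, mul_add, mul_add, mul_smul_comm, smul_mul_assoc, smul_mul_assoc, mul_smul_comm,
      h1, h2, h3, smul_smul, smul_smul, smul_smul, smul_smul, add_smul, add_smul]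
    have e1 : k' * aug ℤ G x = aug ℤ G x * k' := mul_comm _ _
    have e2 : k * aug ℤ G y = aug ℤ G y * k := mul_comm _ _
    rw [e1, e2]
    abel

end Pool.Agent.Lib.MP_7a2af1_al
end

section

/-!
# Killing vectors
-/

set_option autoImplicit false

open MonoidAlgebra

namespace Pool.Agent.Lib.MP_7a2af1_al

universe u

variable {G : Type u} [Group G]

/-- PROOF. The set of the `aug Z` with `Z v = 0` is an ideal of `ℤ` (it contains `|G| = aug nrm`), so it is generated by some `c`; `c` is prime to `|G|`, since a common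
prime factor `q` would contradict `Kq q v`. So there is `Z` with `Z v = 0`, `IsCoprime (aug Z) |G|`. `dirichlet` gives `b = Z + k • nrm`, and
`b v = Z v + k nrm v = 0`. -/
theorem kill_of_Kq [Fintype G] (v : MonoidAlgebra ℚ G) (hv : nrm ℚ G * v = 0)
    (h : ∀ q : ℕ, q.Prime → q ∣ Nat.card G → Kq q v) : ∃ b ∈ BB G, toQ G b * v = 0 := by
  let I : Ideal ℤ :=
    { carrier := {c | ∃ Z : MonoidAlgebra ℤ G, toQ G Z * v = 0 ∧ aug ℤ G Z = c}
      add_mem' := by
        rintro a b ⟨Z, hZ, rfl⟩ ⟨Z', hZ', rfl⟩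
        exact ⟨Z + Z', by rw [map_add, add_mul, hZ, hZ', add_zero], map_add _ _ _⟩
      zero_mem' := ⟨0, by rw [map_zero, zero_mul], map_zero _⟩
      smul_mem' := by
        rintro c a ⟨Z, hZ, rfl⟩
        exact ⟨c • Z, by rw [map_zsmul, smul_mul_assoc, hZ, smul_zero], map_zsmul _ _ _⟩ }
  have hpr : I.IsPrincipal := IsPrincipalIdealRing.principal I
  set d := Submodule.IsPrincipal.generator I with hd
  obtain ⟨Z, hZ, hZd⟩ : d ∈ I := Submodule.IsPrincipal.generator_mem I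
  have hcop : IsCoprime (aug ℤ G Z) (Nat.card G : ℤ) := by
    rw [Int.isCoprime_iff_gcd_eq_one]
    by_contra hne
    obtain ⟨q, hq, hqd⟩ := Nat.exists_prime_and_dvd hne
    have h1 : (q : ℤ) ∣ aug ℤ G Z := (Int.natCast_dvd_natCast.2 hqd).trans (Int.gcd_dvd_left ..)
    have h2 : (q : ℤ) ∣ (Nat.card G : ℤ) :=
      (Int.natCast_dvd_natCast.2 hqd).trans (Int.gcd_dvd_right ..)
    obtain ⟨Z', hZ', hnd⟩ := h q hq (Int.natCast_dvd_natCast.1 h2)
    have h3 : aug ℤ G Z' ∈ I := ⟨Z', hZ', rfl⟩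
    have h4 : d ∣ aug ℤ G Z' := (Submodule.IsPrincipal.mem_iff_generator_dvd I).1 h3
    rw [hZd] at h1
    exact hnd (h1.trans h4)
  obtain ⟨b, hb, k, hk⟩ := dirichlet Z hcop
  refine ⟨b, hb, ?_⟩
  rw [hk, map_add, map_zsmul, toQ_nrm, add_mul, smul_mul_assoc, hZ, hv, smul_zero, add_zero]

end Pool.Agent.Lib.MP_7a2af1_al
end

section

/-!
# Claim C
-/

set_option autoImplicit false

open MonoidAlgebra

namespace Pool.Agent.Lib.MP_7a2af1_al

universe u

variable {G : Type u} [Group G]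

/-- PROOF. Induction over the finite set of the primes dividing `|G|`: for every `S ⊆ (Nat.card G).primeFactors` there is `c ∈ CB G` with `c v ≠ 0`
and `Kq p (c v)` for all `p ∈ S` (`Finset.induction_on`, `hD` for the vector `c v ∈ V`). For the full set: `kill_of_Kq` for `c v` (`nrm c v = aug c nrm v = 0`), and
`CB_to_BB`: `b = c + k • nrm` acts on `v` as `c`. -/
theorem claimC [Fintype G] (V : Submodule (MonoidAlgebra ℚ G) (MonoidAlgebra ℚ G))
    (hV : ∀ v ∈ V, nrm ℚ G * v = 0)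
    (hD : ∀ v ∈ V, v ≠ 0 → ∀ (S : Finset ℕ) (q : ℕ), q.Prime → q ∣ Nat.card G → q ∉ S →
      (∀ p ∈ S, p.Prime ∧ Kq p v) →
      ∃ c ∈ CB G, toQ G c * v ≠ 0 ∧ ∀ p ∈ insert q S, Kq p (toQ G c * v)) :
    ∀ v ∈ V, v ≠ 0 → ∃ b ∈ BB G, toQ G b * v = 0 := by
  intro v hv hv0
  have hmem : ∀ (c : MonoidAlgebra ℤ G) (u : MonoidAlgebra ℚ G), u ∈ V → toQ G c * u ∈ V :=
    fun c u hu => V.smul_mem (toQ G c) hu
  have key : ∀ S : Finset ℕ, S ⊆ (Nat.card G).primeFactors → ∃ c ∈ CB G, toQ G c * v ≠ 0 ∧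
      ∀ p ∈ S, p.Prime ∧ Kq p (toQ G c * v) := by
    intro S
    induction S using Finset.induction_on with
    | empty =>
      intro _
      exact ⟨1, Submonoid.one_mem _, by rw [map_one, one_mul]; exact hv0,
        fun p hp => absurd hp (Finset.notMem_empty p)⟩
    | insert q S hqS ih =>
      intro hS
      obtain ⟨c, hc, hc0, hcS⟩ := ih ((Finset.subset_insert q S).trans hS)
      have hq : q ∈ (Nat.card G).primeFactors := hS (Finset.mem_insert_self q S)
      obtain ⟨c', hc', hc'0, hc'S⟩ := hD _ (hmem c v hv) hc0 S q (Nat.prime_of_mem_primeFactors hq)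
        (Nat.dvd_of_mem_primeFactors hq) hqS hcS
      refine ⟨c' * c, Submonoid.mul_mem _ hc' hc, ?_, fun p hp => ⟨?_, ?_⟩⟩
      · rw [map_mul, mul_assoc]; exact hc'0
      · exact Nat.prime_of_mem_primeFactors (hS hp)
      · rw [map_mul, mul_assoc]; exact hc'S p hp
  obtain ⟨c, hc, hc0, hcS⟩ := key _ (Finset.Subset.refl _)
  obtain ⟨b₁, hb₁, hb₁0⟩ := kill_of_Kq (toQ G c * v) (hV _ (hmem c v hv)) (by
    intro q hq hqd
    exact (hcS q (Nat.mem_primeFactors.2 ⟨hq, hqd, Nat.card_pos.ne'⟩)).2)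
  obtain ⟨b₂, hb₂, k, hk⟩ := CB_to_BB hc
  refine ⟨b₁ * b₂, Submonoid.mul_mem _ hb₁ hb₂, ?_⟩
  rw [map_mul, mul_assoc, hk, map_add, map_zsmul, toQ_nrm, add_mul, smul_mul_assoc, hV v hv,
    smul_zero, add_zero]
  exact hb₁0

end Pool.Agent.Lib.MP_7a2af1_al
end

section

/-!
# The idempotent of `g`
-/

set_option autoImplicit false

open MonoidAlgebra

namespace Pool.Agent.Lib.MP_7a2af1_al

universe u w

private theorem L3a_tel {A : Type u} [Ring A] (x : A) (n : ℕ) :
    (x - 1) * ∑ i ∈ Finset.range n, (i : A) * x ^ i =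
      (n : A) * x ^ n - x * ∑ i ∈ Finset.range n, x ^ i := by
  induction n with
  | zero => simp
  | succ n ih =>
    rw [Finset.sum_range_succ, Finset.sum_range_succ, mul_add, ih, mul_add]
    have h1 : x * ((n : A) * x ^ n) = (n : A) * x ^ (n + 1) := by
      rw [← mul_assoc, (Nat.cast_commute n x).symm.eq, mul_assoc, ← pow_succ']
    have h2 : x * x ^ n = x ^ (n + 1) := (pow_succ' x n).symm
    rw [sub_mul, one_mul, h1, h2]
    push_cast
    noncomm_ring

private theorem L3a_alg {A : Type u} [Ring A] (x c q' : A) (o : ℕ) (hx : x ^ o = 1) (hc : c * (o : A) = 1)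
    (hcc : ∀ a : A, Commute c a) (hqq : ∀ a : A, Commute q' a) :
    ∃ e h : A, e = c * ∑ i ∈ Finset.range o, x ^ i ∧ h = c * ∑ i ∈ Finset.range o, (i : A) * x ^ i ∧
      x * e = e ∧ e * x = e ∧ e * e = e ∧ Commute h x ∧ Commute h e ∧ (x - 1) * h = 1 - e := by
  set S := ∑ i ∈ Finset.range o, x ^ i with hS
  set T := ∑ i ∈ Finset.range o, (i : A) * x ^ i with hT
  have hxS : x * S = S := by
    have h1 : x * S + 1 = S + x ^ o := by
      rw [hS, Finset.mul_sum]
      have h2 := Finset.sum_range_succ (fun i => x ^ i) o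
      have h3 := Finset.sum_range_succ' (fun i => x ^ i) o
      simp only [pow_zero] at h3
      rw [h2] at h3
      rw [h3]
      congr 1
      exact Finset.sum_congr rfl fun i _ => (pow_succ' x i).symm
    rw [hx] at h1
    exact add_right_cancel h1
  have hSx : Commute S x := by
    rw [hS]
    exact Commute.sum_left _ _ _ (fun i _ => (Commute.refl x).pow_left i)
  have hTx : Commute T x := by
    rw [hT]
    exact Commute.sum_left _ _ _ (fun i _ => (Nat.cast_commute i x).mul_left ((Commute.refl x).pow_left i))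
  have hTS : Commute T S := by
    rw [hS]
    exact Commute.sum_right _ _ _ (fun i _ => hTx.pow_right i)
  have hpS : ∀ i : ℕ, x ^ i * S = S := by
    intro i
    induction i with
    | zero => simp
    | succ i ih => rw [pow_succ, mul_assoc, hxS, ih]
  have hSS : S * S = (o : A) * S := by
    conv_lhs => rw [hS, Finset.sum_mul]
    rw [Finset.sum_congr rfl (fun i _ => hpS i), Finset.sum_const, Finset.card_range, nsmul_eq_mul]
  have hxT := L3a_tel x o
  rw [← hT, ← hS, hx, mul_one, hxS] at hxT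
  refine ⟨c * S, c * T, rfl, rfl, ?_, ?_, ?_, ?_, ?_, ?_⟩
  · rw [← mul_assoc, ← (hcc x).eq, mul_assoc, hxS]
  · rw [mul_assoc, hSx.eq, hxS]
  · calc c * S * (c * S) = c * (S * c) * S := by noncomm_ring
      _ = c * (c * S) * S := by rw [(hcc S).eq]
      _ = c * (c * (S * S)) := by noncomm_ring
      _ = c * (c * ((o : A) * S)) := by rw [hSS]
      _ = c * (c * (o : A) * S) := by noncomm_ring
      _ = c * S := by rw [hc, one_mul]
  · exact (hcc x).mul_left hTx
  · exact ((hcc _).mul_left (((hcc T).symm).mul_right hTS))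
  · rw [← mul_assoc, ← (hcc (x - 1)).eq, mul_assoc, hxT, mul_sub, hc]

variable {q : ℕ} [Fact q.Prime] {G : Type u} [Group G]

/-- PROOF. `o = orderOf g` is a unit in `ℤ_q`; `e = (1 / o) ∑ i ∈ range o, g ^ i`, `h = (1 / o) ∑ i ∈ range o, i g ^ i`: `(g - 1) h = 1 - e`
(telescoping), so `(q - 1 + g) h = (1 - e) + q h` and `(q - 1 + g) h (1 - e) = (1 + q h) (1 - e)`; all these elements commute. `u' = (1 + q h)⁻¹ h (1 - e)` (`exists_inv_one_add`; the inverse commutes with
everything that commutes with `h`). -/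
theorem exists_idem [Finite G] (g : G) (hg : (orderOf g).Coprime q) :
    ∃ e u' : BQ q G, e ∈ B0 q G ∧ u' ∈ B0 q G ∧ e * e = e ∧ aug ℚ_[q] G e = 1 ∧
      single g (1 : ℚ_[q]) * e = e ∧ yel ℚ_[q] q g * e = (q : BQ q G) * e ∧
      e * yel ℚ_[q] q g = (q : BQ q G) * e ∧ u' * (yel ℚ_[q] q g * (1 - e)) = 1 - e := by
  have ho : 0 < orderOf g := orderOf_pos g
  have ho' : ((orderOf g : ℕ) : ℚ_[q]) ≠ 0 := by exact_mod_cast ho.ne'
  have hnorm : ‖((orderOf g : ℕ) : ℚ_[q])‖ = 1 := by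
    have h1 : ¬ q ∣ orderOf g := by
      intro h
      have := Nat.Coprime.eq_one_of_dvd hg.symm h
      exact (Fact.out : q.Prime).one_lt.ne' this
    exact Padic.norm_natCast_eq_one_iff.2 hg.symm
  set c : ℚ_[q] := ((orderOf g : ℕ) : ℚ_[q])⁻¹ with hcdef
  have hcn : ‖c‖ ≤ 1 := by rw [hcdef, norm_inv, hnorm, inv_one]
  have hxo : (single g (1 : ℚ_[q]) : BQ q G) ^ orderOf g = 1 := by
    rw [MonoidAlgebra.single_pow, one_pow, pow_orderOf_eq_one]
    rfl
  have hco : (single (1 : G) c : BQ q G) * ((orderOf g : ℕ) : BQ q G) = 1 := by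
    have h1 : ((orderOf g : ℕ) : BQ q G) = single (1 : G) ((orderOf g : ℕ) : ℚ_[q]) := by
      have := map_natCast (algebraMap ℚ_[q] (BQ q G)) (orderOf g)
      rw [← this]
      rfl
    rw [h1, MonoidAlgebra.single_mul_single, one_mul, hcdef, inv_mul_cancel₀ ho']
    rfl
  obtain ⟨e, h, he, hh, hxe, hex, hee, hhx, hhe, hmain⟩ := L3a_alg (single g (1 : ℚ_[q]) : BQ q G)
    (single (1 : G) c) (q : BQ q G) (orderOf g) hxo hco
    (fun a => MonoidAlgebra.single_one_comm c a) (fun a => Nat.cast_commute q a)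
  have hxB : (single g (1 : ℚ_[q]) : BQ q G) ∈ B0 q G := single_mem_B0 g 1 (by simp)
  have hcB : (single (1 : G) c : BQ q G) ∈ B0 q G := single_mem_B0 1 c hcn
  have heB : e ∈ B0 q G := by
    rw [he]
    exact (B0 q G).mul_mem hcB ((B0 q G).sum_mem fun i _ => (B0 q G).pow_mem hxB i)
  have hhB : h ∈ B0 q G := by
    rw [hh]
    exact (B0 q G).mul_mem hcB ((B0 q G).sum_mem fun i _ =>
      (B0 q G).mul_mem (natCast_mem (B0 q G) i) ((B0 q G).pow_mem hxB i))
  have haug : aug ℚ_[q] G e = 1 := by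
    rw [he, map_mul, map_sum, aug_single]
    have h1 : ∀ i ∈ Finset.range (orderOf g), aug ℚ_[q] G ((single g (1 : ℚ_[q]) : BQ q G) ^ i) = 1 := by
      intro i _
      rw [map_pow, aug_single, one_pow]
    rw [Finset.sum_congr rfl h1, Finset.sum_const, Finset.card_range, nsmul_eq_mul, mul_one, hcdef,
      inv_mul_cancel₀ ho']
  obtain ⟨R', hR'U, hR1, hR2⟩ := exists_inv_one_add (q := q) (G := G) (R := (q : BQ q G) * h)
    ⟨h, hhB, by rw [pow_one]⟩
  have hy : yel ℚ_[q] q g = (q : BQ q G) - 1 + single g (1 : ℚ_[q]) := rfl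
  refine ⟨e, R' * (h * (1 - e)), heB, ?_, hee, haug, hxe, ?_, ?_, ?_⟩
  · exact (B0 q G).mul_mem hR'U.1 ((B0 q G).mul_mem hhB ((B0 q G).sub_mem (B0 q G).one_mem heB))
  · rw [hy, add_mul, sub_mul, one_mul, hxe, sub_add_cancel]
  · rw [hy, mul_add, mul_sub, mul_one, hex, sub_add_cancel, (Nat.cast_commute q e).symm.eq]
  · -- the main identity
    have h1 : (1 - e) * (1 - e) = 1 - e := by
      rw [mul_sub, mul_one, sub_mul, one_mul, hee, sub_self, sub_zero]
    have hye : Commute (yel ℚ_[q] q g) e := by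
      show yel ℚ_[q] q g * e = e * yel ℚ_[q] q g
      rw [hy, add_mul, sub_mul, one_mul, hxe, mul_add, mul_sub, mul_one, hex,
        (Nat.cast_commute q e).eq]
    have hye' : Commute (1 - e) (yel ℚ_[q] q g) := ((Commute.one_left _).sub_left hye.symm)
    have hhy : Commute h (yel ℚ_[q] q g) := by
      rw [hy]
      exact (((Nat.cast_commute q h).symm).sub_right (Commute.one_right h)).add_right hhx
    have h2 : yel ℚ_[q] q g * h = (q : BQ q G) * h + (1 - e) := by
      rw [← hmain, hy]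
      noncomm_ring
    have h3 : h * (1 - e) * (yel ℚ_[q] q g * (1 - e)) = (1 + (q : BQ q G) * h) * (1 - e) := by
      calc h * (1 - e) * (yel ℚ_[q] q g * (1 - e))
          = h * ((1 - e) * yel ℚ_[q] q g) * (1 - e) := by noncomm_ring
        _ = h * (yel ℚ_[q] q g * (1 - e)) * (1 - e) := by rw [hye'.eq]
        _ = (h * yel ℚ_[q] q g) * ((1 - e) * (1 - e)) := by noncomm_ring
        _ = (yel ℚ_[q] q g * h) * (1 - e) := by rw [hhy.eq, h1]
        _ = ((q : BQ q G) * h + (1 - e)) * (1 - e) := by rw [h2]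
        _ = (q : BQ q G) * h * (1 - e) + (1 - e) * (1 - e) := by rw [add_mul]
        _ = (1 + (q : BQ q G) * h) * (1 - e) := by rw [h1, add_mul, one_mul, add_comm]
    rw [mul_assoc, h3, ← mul_assoc, hR2, one_mul]

end Pool.Agent.Lib.MP_7a2af1_al
end

section

/-!
# Uniform bound
-/

set_option autoImplicit false

open MonoidAlgebra

namespace Pool.Agent.Lib.MP_7a2af1_al

universe u w

variable {q : ℕ} [Fact q.Prime] {G : Type u} [Group G]
variable {U : Type w} [AddCommGroup U] [Module (BQ q G) U]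

private theorem L4a_cancel_one {u v : U} (h : (q : BQ q G) • u = (q : BQ q G) • v) : u = v := by
  have h1 : qinv q G • (q : BQ q G) • u = qinv q G • (q : BQ q G) • v := by rw [h]
  have h2 : qinv q G * (q : BQ q G) = 1 := by
    have := qinv_mul (q := q) (G := G) 1
    rwa [mul_one] at this
  rwa [← mul_smul, ← mul_smul, h2, one_smul, one_smul] at h1

private theorem L4a_cancel (c : ℕ) {u v : U}
    (h : (q : BQ q G) ^ c • u = (q : BQ q G) ^ c • v) : u = v := by
  induction c with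
  | zero => simpa using h
  | succ c ih =>
    apply ih
    apply L4a_cancel_one (q := q) (G := G)
    rwa [← mul_smul, ← mul_smul, ← pow_succ']

private theorem L4a_comm (c : ℕ) (a : BQ q G) :
    (q : BQ q G) ^ c * a = a * (q : BQ q G) ^ c := by
  have h : Commute ((q : BQ q G) ^ c) a := (Nat.cast_commute q a).pow_left c
  exact h.eq

private theorem L4a_natCast_pow_mem (c : ℕ) : (q : BQ q G) ^ c ∈ B0 q G :=
  pow_mem (natCast_mem (B0 q G) q) c

/-- The element with given coefficients. -/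
private noncomputable def L4a_mk [Finite G] (f : G → ℚ_[q]) : BQ q G :=
  MonoidAlgebra.ofCoeff (Finsupp.equivFunOnFinite.symm f)

private theorem L4a_mk_coeff [Finite G] (f : G → ℚ_[q]) (g : G) :
    (L4a_mk (q := q) f).coeff g = f g := by
  unfold L4a_mk
  simp

private theorem L4a_mem_Sm [Finite G] (n : ℕ) (a : BQ q G)
    (h : ∀ g, ‖a.coeff g‖ ≤ (q : ℝ) ^ (-(n : ℤ))) : a ∈ Sm q G n := by
  have hq : (q : ℚ_[q]) ≠ 0 := by
    have : q ≠ 0 := (Fact.out : q.Prime).ne_zero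
    exact_mod_cast this
  have hqr : (0 : ℝ) < q := by exact_mod_cast (Fact.out : q.Prime).pos
  refine ⟨algebraMap ℚ_[q] (BQ q G) (((q : ℚ_[q]) ^ n)⁻¹) * a, ?_, ?_⟩
  · rw [mem_B0_iff]
    intro g
    rw [← Algebra.smul_def]
    have h1 : ((((q : ℚ_[q]) ^ n)⁻¹) • a : BQ q G).coeff g = ((q : ℚ_[q]) ^ n)⁻¹ * a.coeff g := rfl
    rw [h1, norm_mul, norm_inv, norm_pow, Padic.norm_p, inv_pow, inv_inv]
    calc (q : ℝ) ^ n * ‖a.coeff g‖ ≤ (q : ℝ) ^ n * (q : ℝ) ^ (-(n : ℤ)) :=
          mul_le_mul_of_nonneg_left (h g) (by positivity)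
      _ = 1 := by
          rw [zpow_neg, zpow_natCast]
          exact mul_inv_cancel₀ (by positivity)
  · have h2 : (q : BQ q G) ^ n = algebraMap ℚ_[q] (BQ q G) ((q : ℚ_[q]) ^ n) := by
      rw [map_pow, map_natCast]
    rw [h2, ← mul_assoc, ← map_mul, mul_inv_cancel₀ (pow_ne_zero n hq), map_one, one_mul]

/-- Uniform bound. PROOF. Write `M = B0 p`. Suppose that for every `C` there is `x_C` with `q ^ C x_C ∉ M` and `p ∉ B0 x_C`. As `x_C ∈ U = BQ p` and by `exists_scale` there is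
`k > C` with `q ^ k x_C ∈ M` and `q ^ (k - 1) x_C ∉ M` (take the least `k` with `q ^ k x_C ∈ M`); `q ^ k x_C = a_C p`, `a_C ∈ B0`, `a_C p ∉ q M`. The coefficients of `a_C` are in the compact
space `G → ℤ_[q]`: a subsequence converges to some `a`; `a_C - a ∈ Sm n` for infinitely many `C`, for every `n`. `y = a p ∉ q M` (otherwise `a_C p ∈ q M`),
so `y ≠ 0` and `p = b y` (`U` is simple), `q ^ c b ∈ B0`: `q ^ c p = b' y`. Let `n = c + 1`: `a_C p = y + q ^ (c + 1) r p = y + q r b' y = (1 + q r b') y`, so `y = (1 + q r b')⁻¹ a_C p`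
(`exists_inv_one_add`) and `q ^ c p ∈ B0 (a_C p) = B0 q ^ k x_C`, with `k > C`; for infinitely many `C`, so for one with `C ≥ c`: `p ∈ B0 x_C`, a contradiction. -/
theorem uniform_bound [Finite G] [IsSimpleModule (BQ q G) U] (p : U) (hp : p ≠ 0) :
    ∃ C : ℕ, ∀ x : U, (¬ ∃ a ∈ B0 q G, (q : BQ q G) ^ C • x = a • p) → ∃ a ∈ B0 q G, p = a • x := by
  classical
  by_contra hcon
  push Not at hcon
  choose x hx1 hx2 using hcon
  have hex : ∀ C, ∃ k, ∃ a ∈ B0 q G, (q : BQ q G) ^ k • x C = a • p := by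
    intro C
    obtain ⟨b, hb⟩ := IsSimpleModule.toSpanSingleton_surjective (BQ q G) hp (x C)
    obtain ⟨c, hc⟩ := exists_scale (q := q) b
    have h0 := Sm_sub_B0 (hc 0)
    rw [add_zero] at h0
    refine ⟨c, _, h0, ?_⟩
    rw [mul_smul]
    congr 1
    rw [← hb]
    rfl
  have hmono : ∀ C k l, k ≤ l → (∃ a ∈ B0 q G, (q : BQ q G) ^ k • x C = a • p) →
      ∃ a ∈ B0 q G, (q : BQ q G) ^ l • x C = a • p := by
    intro C k l hkl ⟨a, ha, hae⟩
    obtain ⟨m, rfl⟩ := Nat.exists_eq_add_of_le hkl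
    refine ⟨(q : BQ q G) ^ m * a, (B0 q G).mul_mem (L4a_natCast_pow_mem m) ha, ?_⟩
    rw [add_comm, pow_add, mul_smul, mul_smul, hae]
  have hk : ∀ C, ∃ k, C < k ∧ ∃ a ∈ B0 q G, (q : BQ q G) ^ k • x C = a • p ∧
      ∀ m ∈ B0 q G, a • p ≠ (q : BQ q G) • m • p := by
    intro C
    have hf := Nat.find_spec (hex C)
    have hmin := fun l hl => Nat.find_min (hex C) (m := l) hl
    set k := Nat.find (hex C) with hkdef
    have hCk : C < k := by
      by_contra hle
      obtain ⟨a, ha, hae⟩ := hmono C k C (not_lt.mp hle) hf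
      exact hx1 C a ha hae
    obtain ⟨a, ha, hae⟩ := hf
    refine ⟨k, hCk, a, ha, hae, ?_⟩
    intro m hm heq
    refine hmin (k - 1) (by omega) ⟨m, hm, ?_⟩
    apply L4a_cancel_one (q := q) (G := G)
    rw [← heq, ← hae, ← mul_smul, ← pow_succ']
    congr 2
    omega
  choose k hCk a ha hae hnq using hk
  -- compactness
  set α : ℕ → G → ℤ_[q] := fun C g => ⟨(a C).coeff g, (mem_B0_iff (a C)).1 (ha C) g⟩ with hα
  obtain ⟨β, φ, hφ, hlim⟩ := CompactSpace.tendsto_subseq α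
  set a0 : BQ q G := L4a_mk (fun g => (β g : ℚ_[q])) with ha0
  have ha0B : a0 ∈ B0 q G := by
    rw [mem_B0_iff]
    intro g
    rw [ha0, L4a_mk_coeff]
    exact (β g).2
  have hqr : (0 : ℝ) < q := by exact_mod_cast (Fact.out : q.Prime).pos
  have hev : ∀ n : ℕ, ∀ᶠ j in Filter.atTop, a (φ j) - a0 ∈ Sm q G n := by
    intro n
    have h1 : ∀ g, ∀ᶠ j in Filter.atTop, ‖(α (φ j) g : ℚ_[q]) - β g‖ ≤ (q : ℝ) ^ (-(n : ℤ)) := by
      intro g
      have h2 : Filter.Tendsto (fun j => α (φ j) g) Filter.atTop (nhds (β g)) :=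
        (tendsto_pi_nhds.1 hlim) g
      have h3 := (Metric.tendsto_nhds.1 h2) ((q : ℝ) ^ (-(n : ℤ))) (by positivity)
      filter_upwards [h3] with j hj
      rw [dist_eq_norm] at hj
      have : ‖(α (φ j) g : ℚ_[q]) - β g‖ = ‖α (φ j) g - β g‖ := by
        rw [PadicInt.norm_def, PadicInt.coe_sub]
      rw [this]
      exact hj.le
    have h4 : ∀ᶠ j in Filter.atTop, ∀ g, ‖(α (φ j) g : ℚ_[q]) - β g‖ ≤ (q : ℝ) ^ (-(n : ℤ)) :=
      Filter.eventually_all.2 h1
    filter_upwards [h4] with j hj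
    apply L4a_mem_Sm
    intro g
    have h5 : (a (φ j) - a0).coeff g = (α (φ j) g : ℚ_[q]) - β g := by
      have : (a (φ j) - a0).coeff g = (a (φ j)).coeff g - a0.coeff g := rfl
      rw [this, ha0, L4a_mk_coeff]
    rw [h5]
    exact hj g
  -- `y = a0 p ∉ q M`
  set y := a0 • p with hy
  have hyq : ∀ m ∈ B0 q G, y ≠ (q : BQ q G) • m • p := by
    intro m hm heq
    obtain ⟨j, r, hr, hjr⟩ := (hev 1).exists
    refine hnq (φ j) (m + r) ((B0 q G).add_mem hm hr) ?_
    have h1 : a (φ j) = a0 + (q : BQ q G) * r := by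
      rw [pow_one] at hjr
      rw [← hjr]
      abel
    rw [h1, add_smul, ← hy, heq, mul_smul, ← smul_add, add_smul]
  have hy0 : y ≠ 0 := by
    intro h0
    exact hyq 0 (B0 q G).zero_mem (by rw [h0, zero_smul, smul_zero])
  obtain ⟨b, hb⟩ := IsSimpleModule.toSpanSingleton_surjective (BQ q G) hy0 p
  have hb' : b • y = p := hb
  obtain ⟨c, hc⟩ := exists_scale (q := q) b
  have hcB := Sm_sub_B0 (hc 0)
  rw [add_zero] at hcB
  set b' := (q : BQ q G) ^ c * b with hb'def
  have hqc : (q : BQ q G) ^ c • p = b' • y := by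
    rw [hb'def, mul_smul, hb']
  obtain ⟨j, ⟨r, hr, hjr⟩, hjc⟩ := ((hev (c + 1)).and (hφ.tendsto_atTop.eventually_ge_atTop c)).exists
  have h1 : a (φ j) = a0 + (q : BQ q G) ^ (c + 1) * r := by
    rw [← hjr]
    abel
  have hR : (q : BQ q G) * (r * b') ∈ Sm q G 1 :=
    ⟨r * b', (B0 q G).mul_mem hr hcB, by rw [pow_one]⟩
  have h2 : a (φ j) • p = (1 + (q : BQ q G) * (r * b')) • y := by
    rw [h1, add_smul, add_smul, one_smul, ← hy]
    congr 1
    rw [mul_smul (q : BQ q G), mul_smul r b', ← hqc, ← mul_smul, ← mul_smul, pow_succ',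
      mul_assoc, L4a_comm c r, ← mul_assoc]
  obtain ⟨R', ⟨hR'B, -⟩, -, hR'1⟩ := exists_inv_one_add hR
  have h3 : y = R' • a (φ j) • p := by
    rw [h2, ← mul_smul, hR'1, one_smul]
  have hck : c ≤ k (φ j) := hjc.trans (hCk (φ j)).le
  obtain ⟨m, hm⟩ := Nat.exists_eq_add_of_le hck
  have h4 : (q : BQ q G) ^ c • p = (q : BQ q G) ^ c • (b' * R' * (q : BQ q G) ^ m) • x (φ j) := by
    rw [hqc, h3, ← hae, hm, pow_add, ← mul_smul, ← mul_smul, ← mul_smul]
    congr 1
    rw [← mul_assoc, ← L4a_comm c (b' * R'), mul_assoc, mul_assoc, mul_assoc]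
  have h5 := L4a_cancel (q := q) (G := G) c h4
  exact hx2 (φ j) _ ((B0 q G).mul_mem ((B0 q G).mul_mem hcB hR'B) (L4a_natCast_pow_mem m)) h5

end Pool.Agent.Lib.MP_7a2af1_al
end

section

/-!
# Proposition T: generators and slices
-/

set_option autoImplicit false

open MonoidAlgebra

namespace Pool.Agent.Lib.MP_7a2af1_al

universe u w

variable {q : ℕ} [Fact q.Prime] {G : Type u} [Group G]
variable {S U W W' : Type w} [AddCommGroup S] [Module (BQ q G) S] [AddCommGroup U] [Module (BQ q G) U]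
  [AddCommGroup W] [Module (BQ q G) W] [AddCommGroup W'] [Module (BQ q G) W']

/-- PROOF: `Submodule.mem_span_singleton`. -/
theorem span_eq_top_iff (v : W) :
    Submodule.span (BQ q G) {v} = ⊤ ↔ ∀ w : W, ∃ a : BQ q G, a • v = w :=
  Submodule.span_singleton_eq_top_iff _ _

/-- PROOF: `w = b a⁻¹ (a v)`. -/
theorem span_smul_unit {a : BQ q G} (ha : IsUnit a) {v : W}
    (hv : Submodule.span (BQ q G) {v} = ⊤) : Submodule.span (BQ q G) {a • v} = ⊤ := by
  rw [span_eq_top_iff] at hv ⊢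
  intro w
  obtain ⟨b, hb⟩ := hv w
  obtain ⟨c, rfl⟩ := ha
  refine ⟨b * ((c⁻¹ : (BQ q G)ˣ) : BQ q G), ?_⟩
  rw [smul_smul, mul_assoc, Units.inv_mul, mul_one, hb]

/-- The slice of an admissible set. -/
theorem Op.slice [Finite G] {O : Set (S × U)} (hO : Op q G (S × U) O) (u : U) :
    Op q G S {x | (x, u) ∈ O} := by
  refine ⟨?_, ?_, ?_⟩
  · intro y hy
    rw [span_eq_top_iff]
    intro w
    obtain ⟨a, ha⟩ := (span_eq_top_iff _).1 (hO.gen _ hy) (w, 0)
    exact ⟨a, congrArg Prod.fst ha⟩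
  · intro y hy
    obtain ⟨A, hA⟩ := (span_eq_top_iff _).1 (hO.gen _ hy) (y, 0)
    obtain ⟨c, hc⟩ := exists_scale A
    obtain ⟨M, hM⟩ := hO.opn _ hy
    refine ⟨c + M, ?_⟩
    rintro R ⟨b, hb, rfl⟩
    have hcm : Commute ((q : BQ q G) ^ (c + M)) b := (Nat.cast_commute q _).pow_left _
    have h1 : (q : BQ q G) ^ (c + M) * b * A ∈ Sm q G M := by
      rw [hcm.eq, mul_assoc]
      exact Sm_mul_left hb (hc M)
    have h2 := hM _ h1
    have h3 : (1 + (q : BQ q G) ^ (c + M) * b * A) • ((y, u) : S × U)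
        = ((1 + (q : BQ q G) ^ (c + M) * b) • y, u) := by
      rw [add_smul, one_smul, mul_smul _ A, hA, add_smul, one_smul]
      ext
      · rfl
      · show u + ((q : BQ q G) ^ (c + M) * b) • (0 : U) = u
        rw [smul_zero, add_zero]
    rw [h3] at h2
    exact h2
  · intro θ y hy
    exact hO.inv (θ.prodCongr (LinearEquiv.refl (BQ q G) U)) _ hy

private noncomputable def L5a_eq : U ≃ₗ[BQ q G] U where
  toFun u := (q : BQ q G) • u
  map_add' := smul_add _
  map_smul' a u := by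
    show (q : BQ q G) • (a • u) = a • ((q : BQ q G) • u)
    rw [smul_smul, smul_smul, (Nat.cast_commute q a).eq]
  invFun u := qinv q G • u
  left_inv u := by
    show qinv q G • ((q : BQ q G) • u) = u
    have := qinv_mul (q := q) (G := G) 1
    rw [mul_one] at this
    rw [smul_smul, this, one_smul]
  right_inv u := by
    show (q : BQ q G) • (qinv q G • u) = u
    have := mul_qinv (q := q) (G := G) 1
    rw [mul_one] at this
    rw [smul_smul, this, one_smul]

/-- Scaling of the second component. -/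
theorem Op.scale {O : Set (S × U)} (hO : Op q G (S × U) O) {x : S} {u : U} (h : (x, u) ∈ O)
    (d : ℕ) : (x, (q : BQ q G) ^ d • u) ∈ O := by
  induction d with
  | zero => simpa using h
  | succ d ih =>
    rw [pow_succ', mul_smul]
    exact hO.inv ((LinearEquiv.refl (BQ q G) S).prodCongr (L5a_eq (q := q) (G := G) (U := U))) _ ih

end Pool.Agent.Lib.MP_7a2af1_al
end

section

/-!
# Proposition T: preparations
-/

set_option autoImplicit false

open MonoidAlgebra

namespace Pool.Agent.Lib.MP_7a2af1_al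

universe u w

variable {q : ℕ} [Fact q.Prime] {G : Type u} [Group G]
variable {S U W W' : Type w} [AddCommGroup S] [Module (BQ q G) S] [AddCommGroup U] [Module (BQ q G) U]
  [AddCommGroup W] [Module (BQ q G) W] [AddCommGroup W'] [Module (BQ q G) W']

private theorem L5b_span (e : W ≃ₗ[BQ q G] W') {v : W}
    (h : Submodule.span (BQ q G) {v} = ⊤) : Submodule.span (BQ q G) {e v} = ⊤ := by
  rw [span_eq_top_iff] at h ⊢
  intro w
  obtain ⟨a, ha⟩ := h (e.symm w)
  refine ⟨a, ?_⟩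
  rw [← map_smul, ha, LinearEquiv.apply_symm_apply]

/-- PROOF: the preimage of `O` under `e` is admissible. -/
theorem PT.congr (e : W ≃ₗ[BQ q G] W') (h : PT q G W) : PT q G W' := by
  intro O hO hne v hv
  have hO' : Op q G W {w | e w ∈ O} := by
    refine ⟨?_, ?_, ?_⟩
    · intro y hy
      have h1 := L5b_span e.symm (hO.gen (e y) hy)
      rwa [LinearEquiv.symm_apply_apply] at h1
    · intro y hy
      obtain ⟨M, hM⟩ := hO.opn (e y) hy
      refine ⟨M, fun R hR => ?_⟩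
      have h1 := hM R hR
      change e ((1 + R) • y) ∈ O
      rw [map_smul]
      exact h1
    · intro θ y hy
      have h1 := hO.inv ((e.symm.trans θ).trans e) (e y) hy
      simpa using h1
  have hne' : ({w | e w ∈ O} : Set W).Nonempty := by
    obtain ⟨w, hw⟩ := hne
    refine ⟨e.symm w, ?_⟩
    change e (e.symm w) ∈ O
    rw [LinearEquiv.apply_symm_apply]
    exact hw
  obtain ⟨Φ, hΦ, hΦv⟩ := h _ hO' hne' (e.symm v) (L5b_span e.symm hv)
  refine ⟨Φ, hΦ, ?_⟩
  have h2 : e (Φ • e.symm v) ∈ O := hΦv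
  rwa [map_smul, LinearEquiv.apply_symm_apply] at h2

/-- The set `KK` is admissible. PROOF. `opn` with `M = 1`: `R' = (1 + R)⁻¹` (`exists_inv_one_add`), `Z R' (1 + R) y = Z y = 0`, `Un (Z * R')` (`Un.mul`), and `(1 + R) y` generates
(`span_smul_unit`). `inv`: linear. -/
theorem Op_KK [Finite G] : Op q G W (KK q G W) := by
  refine ⟨fun y hy => hy.1, ?_, ?_⟩
  · rintro y ⟨hy, Z, hZ, hZy⟩
    refine ⟨1, fun R hR => ?_⟩
    obtain ⟨R', hR', h1, h2⟩ := exists_inv_one_add hR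
    refine ⟨span_smul_unit (IsUnit.of_mul_eq_one R' h1) hy, Z * R', hZ.mul hR', ?_⟩
    rw [smul_smul, mul_assoc, h2, mul_one, hZy]
  · rintro θ y ⟨hy, Z, hZ, hZy⟩
    refine ⟨L5b_span θ hy, Z, hZ, ?_⟩
    rw [← map_smul, hZy, map_zero]

theorem NoInv.prod_left (h : NoInv q G (S × U)) : NoInv q G S := by
  intro x hx
  have h1 := h (x, 0) (fun g => by
    rw [Prod.smul_mk, hx g, smul_zero])
  exact (Prod.mk_eq_zero.1 h1).1

theorem NoInv.prod_right (h : NoInv q G (S × U)) : NoInv q G U := by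
  intro x hx
  have h1 := h (0, x) (fun g => by
    rw [Prod.smul_mk, hx g, smul_zero])
  exact (Prod.mk_eq_zero.1 h1).2

theorem NoInv.congr (e : W ≃ₗ[BQ q G] W') (h : NoInv q G W) : NoInv q G W' := by
  intro x hx
  have h1 := h (e.symm x) (fun g => by
    rw [← map_smul, hx g])
  exact e.symm.map_eq_zero_iff.1 h1

/-- PROOF: `0` is fixed..: `O` nonempty, so `O = {0}`; `Φ = 1`. -/
theorem PT_of_subsingleton [Subsingleton W] : PT q G W := by
  intro O _ hne v _
  obtain ⟨w, hw⟩ := hne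
  refine ⟨1, Submonoid.one_mem _, ?_⟩
  rw [Subsingleton.elim ((1 : BQ q G) • v) w]
  exact hw

end Pool.Agent.Lib.MP_7a2af1_al
end

section

/-!
# Proposition T: three units
-/

set_option autoImplicit false

open MonoidAlgebra

namespace Pool.Agent.Lib.MP_7a2af1_al

universe u w

variable {q : ℕ} [Fact q.Prime] {G : Type u} [Group G]
variable {S U : Type w} [AddCommGroup S] [Module (BQ q G) S] [AddCommGroup U] [Module (BQ q G) U]

/-- The first unit. PROOF. `x = (s, p)` generates `S × U`: `A • x = (s, 0)`. `c` from `exists_scale` for `A` (at level 1) and `M₀` from `exists_isUnit_add` for `Z_p`: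
for `M = c + 1 + M₀`: `A' = q ^ M A ∈ Sm 1`, `Z₁ = Z_p + A'`, `Z₁ • (s, p) = ((Z_p + q ^ M) • s, Z_p • p) = (.., 0)`; `(Z_p + q ^ M) • s` generates `S`. -/
theorem first_unit [Finite G] {s : S} {p : U} (hx : Submodule.span (BQ q G) {(s, p)} = ⊤)
    {Zp : BQ q G} (hZ : Un Zp) (hZp : Zp • p = 0) :
    ∃ (Z₁ : BQ q G) (s' : S), Un Z₁ ∧ Z₁ • (s, p) = (s', (0 : U)) ∧
      Submodule.span (BQ q G) {s'} = ⊤ := by
  rw [span_eq_top_iff] at hx
  obtain ⟨A, hA⟩ := hx (s, (0 : U))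
  rw [Prod.smul_mk, Prod.mk.injEq] at hA
  obtain ⟨c, hc⟩ := exists_scale A
  obtain ⟨M₀, hM₀⟩ := exists_isUnit_add Zp
  have hS : Submodule.span (BQ q G) {s} = ⊤ := by
    rw [span_eq_top_iff]
    intro w
    obtain ⟨a, ha⟩ := hx (w, (0 : U))
    rw [Prod.smul_mk, Prod.mk.injEq] at ha
    exact ⟨a, ha.1⟩
  refine ⟨Zp + (q : BQ q G) ^ (c + (1 + M₀)) * A, (Zp + (q : BQ q G) ^ (c + (1 + M₀))) • s,
    hZ.add_Sm (Sm_mono (by omega) (hc (1 + M₀))), ?_, span_smul_unit (hM₀ _ (by omega)) hS⟩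
  rw [Prod.smul_mk, Prod.mk.injEq]
  constructor
  · rw [add_smul, add_smul, mul_smul, hA.1]
  · rw [add_smul, mul_smul, hA.2, hZp, smul_zero, add_zero]

/-- The second unit. PROOF. `R₂ • x = (0, u)` (generator), `q ^ d R₂ ∈ Sm 1` (`exists_scale`), `Z = Z₁ + q ^ d R₂`. -/
theorem second_unit [Finite G] {x : S × U} (hx : Submodule.span (BQ q G) {x} = ⊤)
    {Z₁ : BQ q G} {s' : S} (hZ : Un Z₁) (hZx : Z₁ • x = (s', (0 : U))) (u : U) :
    ∃ (Z : BQ q G) (d : ℕ), Un Z ∧ Z • x = (s', (q : BQ q G) ^ d • u) := by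
  rw [span_eq_top_iff] at hx
  obtain ⟨A, hA⟩ := hx ((0 : S), u)
  obtain ⟨c, hc⟩ := exists_scale A
  refine ⟨Z₁ + (q : BQ q G) ^ (c + 1) * A, c + 1, hZ.add_Sm (hc 1), ?_⟩
  rw [add_smul, mul_smul, hA, hZx, Prod.smul_mk, smul_zero, Prod.mk_add_mk, add_zero, zero_add]

/-- Perturbation to an invertible element. PROOF. `y = H Z x ∈ O` generates `W`: `H • x = R₃ • y`. `M₀` from `opn`, `c` from `exists_scale` for `R₃`, `M₁` from `exists_isUnit_add` for `Z`;
`M = c + M₀ + M₁ + 1`: `H (Z + q ^ M) x = y + q ^ M R₃ y = (1 + q ^ M R₃) y`. -/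
theorem third_unit [Finite G] {W : Type w} [AddCommGroup W] [Module (BQ q G) W] {O : Set W}
    (hO : Op q G W O) {H Z : BQ q G} (hZ : Un Z) {x : W} (hx : H • Z • x ∈ O) :
    ∃ Z' : BQ q G, Un Z' ∧ IsUnit Z' ∧ H • Z' • x ∈ O := by
  have hgen := hO.gen _ hx
  rw [span_eq_top_iff] at hgen
  obtain ⟨R₃, hR₃⟩ := hgen (H • x)
  obtain ⟨M₀, hM₀⟩ := hO.opn _ hx
  obtain ⟨c, hc⟩ := exists_scale R₃
  obtain ⟨M₁, hM₁⟩ := exists_isUnit_add Z
  have hq : (q : BQ q G) ^ (c + (M₀ + M₁ + 1)) ∈ Sm q G 1 := by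
    refine Sm_mono (n := c + (M₀ + M₁ + 1)) (by omega) ?_
    exact ⟨1, (B0 q G).one_mem, (mul_one _).symm⟩
  refine ⟨Z + (q : BQ q G) ^ (c + (M₀ + M₁ + 1)), hZ.add_Sm hq, hM₁ _ (by omega), ?_⟩
  have h1 : H • (Z + (q : BQ q G) ^ (c + (M₀ + M₁ + 1))) • x =
      (1 + (q : BQ q G) ^ (c + (M₀ + M₁ + 1)) * R₃) • (H • Z • x) := by
    have hcomm : H * (q : BQ q G) ^ (c + (M₀ + M₁ + 1)) = (q : BQ q G) ^ (c + (M₀ + M₁ + 1)) * H :=
      ((Nat.commute_cast H q).pow_right _).eq
    have h2 : H • ((q : BQ q G) ^ (c + (M₀ + M₁ + 1))) • x = ((q : BQ q G) ^ (c + (M₀ + M₁ + 1))) • H • x := by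
      rw [← mul_smul, hcomm, mul_smul]
    rw [add_smul, add_smul, smul_add, one_smul, mul_smul _ R₃, hR₃, h2]
  rw [h1]
  exact hM₀ _ (Sm_mono (by omega) (hc (M₀ + M₁ + 1)))

end Pool.Agent.Lib.MP_7a2af1_al
end
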