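import Pool.Agent.Lib.MP_7a2af1_al.Mg.G001

section

/-!
# Maximal lattices
-/

set_option autoImplicit false

open MonoidAlgebra

namespace Pool.Agent.Lib.MP_7a2af1_al

universe u w

variable {q : ℕ} [Fact q.Prime] {G : Type u} [Group G]
variable {U : Type w} [AddCommGroup U] [Module (BQ q G) U]

/-- A set of bounded lattices has a maximal element. PROOF. For `N i` let `Ñ i` be the set of the `a : G → ℤ_[q]` such that `q ^ (-C) a p ∈ N i` (that is,
`∃ y ∈ N i, q ^ C y = a p`): a `ℤ_[q]`-submodule of the noetherian module `G → ℤ_[q]`. `N i ⊆ N j` iff `Ñ i ≤ Ñ j`, because every element `y` of `N i` satisfies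
`q ^ C y = a p`, and multiplication by `q` is injective. `WellFoundedGT` gives a maximal `Ñ i`. -/
theorem exists_maximal [Finite G] {ι : Type*} [Nonempty ι] (p : U) (C : ℕ) (N : ι → Set U)
    (hadd : ∀ i, ∀ y ∈ N i, ∀ z ∈ N i, y + z ∈ N i)
    (hsmul : ∀ i, ∀ a ∈ B0 q G, ∀ y ∈ N i, a • y ∈ N i) (hz : ∀ i, (0 : U) ∈ N i)
    (hb : ∀ i, ∀ y ∈ N i, ∃ a ∈ B0 q G, (q : BQ q G) ^ C • y = a • p) :
    ∃ i, ∀ j, N i ⊆ N j → N j ⊆ N i := by
  classical
  have := Fintype.ofFinite G
  let elt : (G → ℤ_[q]) → BQ q G := fun a => ∑ g, single g ((a g : ℤ_[q]) : ℚ_[q])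
  have elt_add : ∀ a b, elt (a + b) = elt a + elt b := by
    intro a b
    show ∑ g, single g (((a + b) g : ℤ_[q]) : ℚ_[q]) = _
    rw [← Finset.sum_add_distrib]
    apply Finset.sum_congr rfl
    intro g _
    rw [Pi.add_apply, PadicInt.coe_add, single_add]
  have elt_zero : elt 0 = 0 := by
    show ∑ g, single g (((0 : G → ℤ_[q]) g : ℤ_[q]) : ℚ_[q]) = 0
    apply Finset.sum_eq_zero
    intro g _
    simp
  have elt_smul : ∀ (c : ℤ_[q]) a, elt (c • a) = single 1 (c : ℚ_[q]) * elt a := by
    intro c a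
    show ∑ g, single g (((c • a) g : ℤ_[q]) : ℚ_[q]) = _
    rw [Finset.mul_sum]
    apply Finset.sum_congr rfl
    intro g _
    rw [single_mul_single, one_mul, Pi.smul_apply, smul_eq_mul, PadicInt.coe_mul]
  have elt_surj : ∀ a ∈ B0 q G, ∃ a', elt a' = a := by
    intro a ha
    refine ⟨fun g => ⟨a.coeff g, (mem_B0_iff a).1 ha g⟩, ?_⟩
    exact (eq_sum_single _ a).symm
  let S : ι → Submodule ℤ_[q] (G → ℤ_[q]) := fun i =>
    { carrier := {a | ∃ y ∈ N i, (q : BQ q G) ^ C • y = elt a • p}
      zero_mem' := ⟨0, hz i, by rw [elt_zero, zero_smul, smul_zero]⟩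
      add_mem' := by
        rintro a b ⟨y, hy, hya⟩ ⟨z, hz', hzb⟩
        exact ⟨y + z, hadd i y hy z hz', by rw [smul_add, hya, hzb, elt_add, add_smul]⟩
      smul_mem' := by
        rintro c a ⟨y, hy, hya⟩
        refine ⟨(single 1 (c : ℚ_[q]) : BQ q G) • y,
          hsmul i _ (single_mem_B0 1 _ (PadicInt.norm_le_one c)) y hy, ?_⟩
        rw [elt_smul, mul_smul, ← hya, ← mul_smul, ← mul_smul]
        congr 1
        exact ((Nat.cast_commute q (single 1 (c : ℚ_[q]) : BQ q G)).pow_left C).eq }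
  have hmemS : ∀ i a, a ∈ S i ↔ ∃ y ∈ N i, (q : BQ q G) ^ C • y = elt a • p := fun i a => Iff.rfl
  have hle : ∀ i j, N i ⊆ N j → S i ≤ S j := by
    intro i j hij a ha
    rw [hmemS] at ha ⊢
    obtain ⟨y, hy, hya⟩ := ha
    exact ⟨y, hij hy, hya⟩
  have hinj : ∀ y z : U, (q : BQ q G) ^ C • y = (q : BQ q G) ^ C • z → y = z := by
    intro y z hyz
    have hunit : IsUnit ((q : BQ q G) ^ C) := by
      apply IsUnit.pow
      refine IsUnit.of_mul_eq_one (qinv q G) ?_
      have := mul_qinv (q := q) (G := G) 1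
      rwa [mul_one] at this
    obtain ⟨u, hu⟩ := hunit
    rw [← hu] at hyz
    have := congrArg (fun t => (↑u⁻¹ : BQ q G) • t) hyz
    simpa [← mul_smul] using this
  have hge : ∀ i j, S i ≤ S j → N i ⊆ N j := by
    intro i j hij y hy
    obtain ⟨a, ha, hya⟩ := hb i y hy
    obtain ⟨a', rfl⟩ := elt_surj a ha
    have h1 : a' ∈ S i := (hmemS i a').2 ⟨y, hy, hya⟩
    obtain ⟨y', hy', hya'⟩ := (hmemS j a').1 (hij h1)
    have : y' = y := hinj _ _ (by rw [hya', hya])
    rwa [← this]
  have hwf : WellFounded (fun a b : Submodule ℤ_[q] (G → ℤ_[q]) => b < a) := wellFounded_gt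
  obtain ⟨m, ⟨i, rfl⟩, hmin⟩ := hwf.has_min (Set.range S) (Set.range_nonempty S)
  refine ⟨i, fun j hij => hge j i ?_⟩
  have h1 := hle i j hij
  have h2 := hmin (S j) ⟨j, rfl⟩
  by_contra h3
  exact h2 (lt_of_le_not_ge h1 h3)

end Pool.Agent.Lib.MP_7a2af1_al
end

section

/-!
# Simple groups are generated by the elements of order prime to `q`
-/

set_option autoImplicit false

open MonoidAlgebra

namespace Pool.Agent.Lib.MP_7a2af1_al

universe u

/-- PROOF. Let `H` contain all elements of order prime to `q`. The subgroup `K` generated by these elements is normal. `K = ⊥` or `⊤`. If `K = ⊥`, every element has an order divisible by `q` or is `1`, so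
(Cauchy: for a prime `r ≠ q` dividing `|G|` there is an element of order `r`) `|G|` is a power of `q` (`> 1`), the centre is not trivial
(`IsPGroup.center_nontrivial`), so it is `G`: `G` is commutative, a contradiction. So `K = ⊤ ≤ H`. -/
theorem genP_of_simple (G : Type u) [Group G] [Finite G] [IsSimpleGroup G]
    (hnc : ¬ ∀ a b : G, a * b = b * a) (q : ℕ) (hq : q.Prime) : GenP G q := by
  intro H hH
  classical
  set K : Subgroup G := Subgroup.closure {g : G | (orderOf g).Coprime q} with hK
  have hKH : K ≤ H := (Subgroup.closure_le H).2 fun g hg => hH g hg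
  have hn : K.Normal := by
    refine ⟨fun n hn g => ?_⟩
    rw [hK] at hn
    induction hn using Subgroup.closure_induction with
    | mem x hx =>
      refine Subgroup.subset_closure ?_
      have h1 : orderOf (g * x * g⁻¹) = orderOf x := by
        have := (MulAut.conj g).orderOf_eq x
        rwa [MulAut.conj_apply] at this
      show (orderOf (g * x * g⁻¹)).Coprime q
      rw [h1]; exact hx
    | one => simp
    | mul x y _ _ hx hy =>
      have h2 : g * (x * y) * g⁻¹ = (g * x * g⁻¹) * (g * y * g⁻¹) := by group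
      rw [h2]; exact K.mul_mem hx hy
    | inv x _ hx =>
      have h2 : g * x⁻¹ * g⁻¹ = (g * x * g⁻¹)⁻¹ := by group
      rw [h2]; exact K.inv_mem hx
  rcases hn.eq_bot_or_eq_top with hb | ht
  · exfalso
    have hone : ∀ g : G, (orderOf g).Coprime q → g = 1 := by
      intro g hg
      have : g ∈ K := Subgroup.subset_closure hg
      rw [hb] at this
      exact Subgroup.mem_bot.1 this
    have : Fact q.Prime := ⟨hq⟩
    have hp : IsPGroup q G := by
      rw [IsPGroup.iff_card]
      refine ⟨(Nat.card G).primeFactorsList.length, ?_⟩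
      refine Nat.eq_prime_pow_of_unique_prime_dvd Nat.card_pos.ne' ?_
      intro r hr hd
      by_contra hne
      have : Fact r.Prime := ⟨hr⟩
      obtain ⟨g, hg⟩ := exists_prime_orderOf_dvd_card' r hd
      have h1 : g = 1 := hone g (by rw [hg]; exact (Nat.coprime_primes hr hq).2 hne)
      rw [h1, orderOf_one] at hg
      exact hr.one_lt.ne hg
    have : Nontrivial G := IsSimpleGroup.toNontrivial
    have hc := hp.center_nontrivial
    have hcn : (Subgroup.center G).Normal := inferInstance
    rcases hcn.eq_bot_or_eq_top with h1 | h1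
    · exact (Subgroup.nontrivial_iff_ne_bot _).1 hc h1
    · apply hnc
      intro a b
      have ha : a ∈ Subgroup.center G := by rw [h1]; exact Subgroup.mem_top a
      exact (Subgroup.mem_center_iff.1 ha b).symm
  · rw [ht] at hKH
    exact top_le_iff.1 hKH

end Pool.Agent.Lib.MP_7a2af1_al
end

section

/-!
# A vector killed by a transversal of a Sylow subgroup
-/

set_option autoImplicit false

open MonoidAlgebra

namespace Pool.Agent.Lib.MP_7a2af1_al

universe u

/-- PROOF. `P` a Sylow subgroup, `s = ∑ x : P, single x 1`, `κ = s v ≠ 0` for some `v ∈ V`. `T = ∑ single t 1` over representatives of the left cosets `t P`: `T s = nrm`, so `T κ = nrm v = 0`, and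
`aug T = |G : P|` is not divisible by `q`. -/
theorem exists_kappa {G : Type u} [Group G] [Fintype G] (q : ℕ) [Fact q.Prime]
    (V : Submodule (MonoidAlgebra ℚ G) (MonoidAlgebra ℚ G)) (hV : ∀ v ∈ V, nrm ℚ G * v = 0) (P : Sylow q G)
    (b : MonoidAlgebra ℤ G) (μ : ℤ) (hμ : μ ≠ 0)
    (hb : ∀ g, (g ∈ (P : Subgroup G) → b.coeff g = μ) ∧ (g ∉ (P : Subgroup G) → b.coeff g = 0))
    (v : MonoidAlgebra ℚ G) (hv : v ∈ V) (hbv : toQ G b * v ≠ 0) :
    ∃ κ ∈ V, κ ≠ 0 ∧ Kq q κ := by
  classical
  haveI : Fintype (G ⧸ (P : Subgroup G)) := Fintype.ofFinite _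
  set Z : MonoidAlgebra ℤ G := ∑ c : G ⧸ (P : Subgroup G), single (Quotient.out c) (1 : ℤ) with hZ
  have hZb : Z * b = μ • nrm ℤ G := by
    apply MonoidAlgebra.ext
    ext g
    have h1 : (Z * b).coeff g = ∑ c : G ⧸ (P : Subgroup G), b.coeff ((Quotient.out c)⁻¹ * g) := by
      rw [hZ, Finset.sum_mul, MonoidAlgebra.coeff_sum, Finsupp.finsetSum_apply]
      refine Finset.sum_congr rfl fun c _ => ?_
      rw [MonoidAlgebra.coeff_single_mul_apply, one_mul]
    have h2 : (μ • nrm ℤ G).coeff g = μ := by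
      rw [nrm, MonoidAlgebra.coeff_smul, Finsupp.smul_apply, MonoidAlgebra.coeff_sum,
        Finsupp.finsetSum_apply]
      simp [MonoidAlgebra.coeff_single, Finsupp.single_apply]
    rw [h1, h2, Finset.sum_eq_single ((g : G ⧸ (P : Subgroup G)))]
    · refine (hb _).1 ?_
      rw [← QuotientGroup.eq]
      exact Quotient.out_eq _
    · intro c _ hc
      refine (hb _).2 ?_
      intro h
      apply hc
      rw [← QuotientGroup.eq] at h
      rw [← h]
      exact (Quotient.out_eq c).symm
    · intro h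
      exact absurd (Finset.mem_univ _) h
  refine ⟨toQ G b * v, ?_, hbv, Z, ?_, ?_⟩
  · exact V.smul_mem (toQ G b) hv
  · rw [← mul_assoc, ← map_mul, hZb, map_zsmul, toQ_nrm, smul_mul_assoc, hV v hv, smul_zero]
  · have h1 : aug ℤ G Z = ((P : Subgroup G).index : ℤ) := by
      rw [hZ, map_sum]
      simp only [aug_single]
      rw [Finset.sum_const, nsmul_eq_mul, mul_one, Finset.card_univ, Subgroup.index_eq_card,
        Nat.card_eq_fintype_card]
    rw [h1]
    intro h
    exact P.not_dvd_index (by exact_mod_cast h)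

end Pool.Agent.Lib.MP_7a2af1_al
end
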