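import Pool.Agent.Lib.MP_7a2af1_al.Mg.G003
import Pool.Agent.Lib.MP_7a2af1_al.Mg.G002
import Pool.Agent.Lib.MP_7a2af1_al.Mg.G004

section

/-!
# Proposition T: the induction step
-/

set_option autoImplicit false

open MonoidAlgebra

namespace Pool.Agent.Lib.MP_7a2af1_al

universe u w

variable {q : ℕ} [Fact q.Prime] {G : Type u} [Group G]
variable {S U : Type w} [AddCommGroup S] [Module (BQ q G) S] [AddCommGroup U] [Module (BQ q G) U]

/-- The induction step. PROOF. `v = (v_S, v_U)`; `v_U ≠ 0` (generator, `U ≠ 0`). `lemma_L1`: `X ∈ YY`, `Zp` with `Zp X v_U = 0`. `x = X • v` generates (`span_smul_unit`). `(w_S, w_U) ∈ O`.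
`first_unit`: `Z₁`, `s'`. The induction hypothesis for the slice at `w_U`: `H ∈ MM`, `(H s', w_U) ∈ O`; `H` is a unit (`isUnit_of_mem_MM`). `second_unit` for `u = H⁻¹ w_U`:
`H Z x = (H s', q ^ d w_U) ∈ O` by `Op.scale`. `third_unit`: `Z'`. `Φ = H * Z' * X ∈ MM`. -/
theorem PT_prod [Finite G] [IsSimpleModule (BQ q G) U] (hG : GenP G q) (hU : NoInv q G U)
    (hS : PT q G S) : PT q G (S × U) := by
  rintro O hO ⟨⟨wS, wU⟩, hw⟩ ⟨vS, vU⟩ hv
  have hnt : Nontrivial U := IsSimpleModule.nontrivial (BQ q G) U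
  obtain ⟨u0, hu0⟩ := exists_ne (0 : U)
  obtain ⟨a, ha⟩ := (span_eq_top_iff (vS, vU)).1 hv ((0 : S), u0)
  have hvU : vU ≠ 0 := by
    rintro rfl
    have h2 : (a • ((vS, 0) : S × U)).2 = u0 := by rw [ha]
    rw [Prod.smul_snd, smul_zero] at h2
    exact hu0 h2.symm
  obtain ⟨X, hX, Zp, hZp, hZpX⟩ := lemma_L1 hG hU vU hvU
  have hXM : X ∈ MM q G := YY_le_MM hX
  have hxs : Submodule.span (BQ q G) {(X • vS, X • vU)} = ⊤ := span_smul_unit (isUnit_of_mem_MM hXM) hv
  obtain ⟨Z₁, s', hZ₁, hZ₁x, hs'⟩ := first_unit hxs hZp hZpX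
  obtain ⟨H, hH, hHs⟩ := hS _ (hO.slice wU) ⟨wS, hw⟩ s' hs'
  obtain ⟨Hu, hHu⟩ := isUnit_of_mem_MM hH
  obtain ⟨Z, d, hZ, hZx⟩ := second_unit hxs hZ₁ hZ₁x (((Hu⁻¹ : (BQ q G)ˣ) : BQ q G) • wU)
  have hHZ : H • Z • ((X • vS, X • vU) : S × U) ∈ O := by
    rw [hZx]
    have h3 : H • (q : BQ q G) ^ d • ((Hu⁻¹ : (BQ q G)ˣ) : BQ q G) • wU = (q : BQ q G) ^ d • wU := by
      rw [smul_smul, smul_smul]
      have h4 : H * (q : BQ q G) ^ d = (q : BQ q G) ^ d * H :=
        ((Nat.cast_commute q H).pow_left d).eq.symm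
      rw [h4, mul_assoc, ← hHu, Units.mul_inv, mul_one]
    have h5 : H • ((s', (q : BQ q G) ^ d • ((Hu⁻¹ : (BQ q G)ˣ) : BQ q G) • wU) : S × U)
        = (H • s', (q : BQ q G) ^ d • wU) := by
      rw [Prod.smul_mk, h3]
    rw [h5]
    exact hO.scale hHs d
  obtain ⟨Z', hZ', hZ'u, hfin⟩ := third_unit hO hZ hHZ
  refine ⟨H * Z' * X, (MM q G).mul_mem ((MM q G).mul_mem hH ?_) hXM, ?_⟩
  · exact Submonoid.subset_closure (Or.inl ⟨hZ'.1, hZ'.2, hZ'u⟩)
  · rw [mul_smul, mul_smul]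
    exact hfin

end Pool.Agent.Lib.MP_7a2af1_al
end

section

/-!
# Proposition T
-/

set_option autoImplicit false

open MonoidAlgebra

namespace Pool.Agent.Lib.MP_7a2af1_al

universe u

variable {q : ℕ} [Fact q.Prime] {G : Type u} [Group G]

/-- PROOF. Induction on `IsFiniteLength`. Subsingleton: `PT_of_subsingleton`. For `N ≤ W` with simple quotient: `W ≃ N × (W ⧸ N)`, since `N` has a complement (Maschke: `IsSemisimpleModule`,
`Submodule.prodEquivOfIsCompl`, `Submodule.quotientEquivOfIsCompl`); `PT_prod`, `PT.congr`, `NoInv.congr`, `NoInv.prod_left`, `NoInv.prod_right`. -/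
theorem PT_of_finiteLength [Finite G] (hG : GenP G q) (W : Type u) [AddCommGroup W] [Module (BQ q G) W]
    (hW : IsFiniteLength (BQ q G) W) (hN : NoInv q G W) : PT q G W := by
  have hne : NeZero (Nat.card G : ℚ_[q]) := ⟨by exact_mod_cast Nat.card_pos.ne'⟩
  revert hN
  induction hW with
  | of_subsingleton =>
    intro _
    exact PT_of_subsingleton
  | @of_simple_quotient M _ _ N _ _ ih =>
    intro hN
    obtain ⟨N', hN'⟩ := MonoidAlgebra.Submodule.exists_isCompl N
    let e : (N × (M ⧸ N)) ≃ₗ[BQ q G] M :=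
      ((LinearEquiv.refl (BQ q G) N).prodCongr (Submodule.quotientEquivOfIsCompl N N' hN')).trans
        (Submodule.prodEquivOfIsCompl N N' hN')
    have h1 : NoInv q G (N × (M ⧸ N)) := NoInv.congr e.symm hN
    exact PT.congr e (PT_prod hG h1.prod_right (ih h1.prod_left))

/-- PROOF: `BQ q G` is an artinian (semisimple) ring: `isFiniteLength_iff_isNoetherian_isArtinian` for submodules of `BQ q G`. -/
theorem finiteLength_submodule [Finite G] (W : Submodule (BQ q G) (BQ q G)) :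
    IsFiniteLength (BQ q G) W := by
  have hne : NeZero (Nat.card G : ℚ_[q]) := ⟨by exact_mod_cast Nat.card_pos.ne'⟩
  rw [isFiniteLength_iff_isNoetherian_isArtinian]
  have h1 : IsSemisimpleRing (BQ q G) := inferInstance
  exact ⟨inferInstance, inferInstance⟩

end Pool.Agent.Lib.MP_7a2af1_al
end

section

/-!
# The local lemma
-/

set_option autoImplicit false

open MonoidAlgebra

namespace Pool.Agent.Lib.MP_7a2af1_al

universe u

variable {q : ℕ} [Fact q.Prime] {G : Type u} [Group G]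

/-- PROOF. `W` = the left ideal generated by the `QP v`, `v ∈ V`. `V = ℚ[G] v` for every `0 ≠ v ∈ V` (simple), so `QP v` generates `W`. The sum `nrm` kills `W`, so an element of `W` fixed by
`G` satisfies `|G| x = nrm x = 0`: `NoInv`. The element `QP κ` is in `KK` (`Z = toP T`, with `‖aug‖ = 1` as `q ∤ aug T`), so `KK` is not empty, and `Op_KK`, `PT_of_finiteLength`. -/
theorem local_lemma [Fintype G] (hG : GenP G q)
    (V : Submodule (MonoidAlgebra ℚ G) (MonoidAlgebra ℚ G)) [IsSimpleModule (MonoidAlgebra ℚ G) V]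
    (hV : ∀ v ∈ V, nrm ℚ G * v = 0) (κ : MonoidAlgebra ℚ G) (hκ : κ ∈ V) (hκ0 : κ ≠ 0)
    (hK : Kq q κ) (v : MonoidAlgebra ℚ G) (hv : v ∈ V) (hv0 : v ≠ 0) :
    ∃ Φ ∈ MM q G, ∃ Z : BQ q G, Un Z ∧ Z * (Φ * QP G q v) = 0 := by
  set W : Submodule (BQ q G) (BQ q G) := Submodule.span (BQ q G) {QP G q v} with hWdef
  have hsimple : ∀ x ∈ V, x ≠ 0 → ∀ y ∈ V, ∃ a : MonoidAlgebra ℚ G, y = a * x := by
    intro x hx hx0 y hy
    have h1 : Submodule.span (MonoidAlgebra ℚ G) {(⟨x, hx⟩ : V)} = ⊤ := by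
      rcases eq_bot_or_eq_top (Submodule.span (MonoidAlgebra ℚ G) {(⟨x, hx⟩ : V)}) with h | h
      · rw [Submodule.span_singleton_eq_bot] at h
        exact absurd (congrArg Subtype.val h) hx0
      · exact h
    have h2 : (⟨y, hy⟩ : V) ∈ Submodule.span (MonoidAlgebra ℚ G) {(⟨x, hx⟩ : V)} := by
      rw [h1]
      trivial
    obtain ⟨a, ha⟩ := Submodule.mem_span_singleton.1 h2
    exact ⟨a, (congrArg Subtype.val ha).symm⟩
  have hvW : QP G q v ∈ W := Submodule.mem_span_singleton_self _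
  obtain ⟨a, ha⟩ := hsimple v hv hv0 κ hκ
  obtain ⟨b, hb⟩ := hsimple κ hκ hκ0 v hv
  have hκW : QP G q κ ∈ W := by
    rw [ha, map_mul]
    exact W.smul_mem _ hvW
  have hgenv : Submodule.span (BQ q G) {(⟨QP G q v, hvW⟩ : W)} = ⊤ := by
    rw [span_eq_top_iff]
    rintro ⟨w, hw⟩
    obtain ⟨c, hc⟩ := Submodule.mem_span_singleton.1 hw
    exact ⟨c, Subtype.ext hc⟩
  have hgenκ : Submodule.span (BQ q G) {(⟨QP G q κ, hκW⟩ : W)} = ⊤ := by
    rw [span_eq_top_iff]
    rintro ⟨w, hw⟩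
    obtain ⟨c, hc⟩ := Submodule.mem_span_singleton.1 hw
    refine ⟨c * QP G q b, Subtype.ext ?_⟩
    change (c * QP G q b) * QP G q κ = w
    rw [mul_assoc, ← map_mul, ← hb]
    exact hc
  have hnrm : QP G q (nrm ℚ G) = nrm ℚ_[q] G := by
    simp [QP, nrm]
  have hNo : NoInv q G W := by
    rintro ⟨x, hx⟩ hfix
    obtain ⟨c, hc⟩ := Submodule.mem_span_singleton.1 hx
    have hc' : c * QP G q v = x := hc
    have h1 : nrm ℚ_[q] G * x = 0 := by
      rw [← hc', ← mul_assoc, nrm_mul, smul_mul_assoc, ← hnrm, ← map_mul, hV v hv, map_zero, smul_zero]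
    have h2 : nrm ℚ_[q] G * x = (Nat.card G : BQ q G) * x := by
      rw [nrm, Finset.sum_mul]
      have h3 : ∀ g ∈ (Finset.univ : Finset G), (single g (1 : ℚ_[q]) : BQ q G) * x = x := by
        intro g _
        exact congrArg Subtype.val (hfix g)
      rw [Finset.sum_congr rfl h3, Finset.sum_const, nsmul_eq_mul, Nat.card_eq_fintype_card]
      rfl
    rw [h1] at h2
    have h4 : (Nat.card G : ℚ_[q]) • x = 0 := by
      rw [Nat.cast_smul_eq_nsmul, nsmul_eq_mul]
      exact h2.symm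
    have h5 : (Nat.card G : ℚ_[q]) ≠ 0 := by exact_mod_cast Nat.card_pos.ne'
    have h6 : x = 0 := (smul_eq_zero.1 h4).resolve_left h5
    exact Subtype.ext h6
  obtain ⟨T, hT0, hTq⟩ := hK
  have hQT : QP G q (toQ G T) = toP G q T := by
    have h1 : (QP G q).comp (toQ G) = toP G q := by
      refine MonoidAlgebra.ringHom_ext ?_ ?_
      · intro r
        simp [QP, toQ, toP]
      · intro g
        simp [QP, toQ, toP]
    rw [← h1]
    rfl
  have haug : aug ℚ_[q] G (toP G q T) = ((aug ℤ G T : ℤ) : ℚ_[q]) := by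
    have h1 : (aug ℚ_[q] G).comp (toP G q) = (Int.castRingHom ℚ_[q]).comp (aug ℤ G) := by
      refine MonoidAlgebra.ringHom_ext ?_ ?_
      · intro r
        simp [toP, aug_single]
      · intro g
        simp [toP, aug_single]
    have h2 := congrArg (fun f => f T) h1
    exact h2
  have hUnT : Un (toP G q T) := by
    refine ⟨toP_mem_B0 T, ?_⟩
    rw [haug]
    by_contra hne
    have h1 : ‖((aug ℤ G T : ℤ) : ℚ_[q])‖ < 1 := lt_of_le_of_ne (Padic.norm_int_le_one _) hne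
    rw [Padic.norm_intCast_lt_one_iff] at h1
    exact hTq h1
  have hKK : (KK q G W).Nonempty := by
    refine ⟨⟨QP G q κ, hκW⟩, hgenκ, toP G q T, hUnT, Subtype.ext ?_⟩
    change toP G q T * QP G q κ = 0
    rw [← hQT, ← map_mul, hT0, map_zero]
  obtain ⟨Φ, hΦ, hΦK⟩ := PT_of_finiteLength hG W (finiteLength_submodule W) hNo (KK q G W) Op_KK hKK
    ⟨QP G q v, hvW⟩ hgenv
  obtain ⟨-, Z, hZ, hZ0⟩ := hΦK
  refine ⟨Φ, hΦ, Z, hZ, ?_⟩
  exact congrArg Subtype.val hZ0

end Pool.Agent.Lib.MP_7a2af1_al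
end

section

/-!
# Simple groups
-/

set_option autoImplicit false

open MonoidAlgebra

namespace Pool.Agent.Lib.MP_7a2af1_al

universe u

/-- PROOF. `kill_left_ideal` for `V = {v | nrm v = 0}`, then `exists_mul_nrm`, `hasU_of_mem_BB`. For a simple `V`: if for some prime `q ∣ |G|` (with a Sylow subgroup `P`, `P ≠ ⊤` since `G` is not a
`q`-group) the element `b` of `mem_BB_of_subgroup` kills `V`: done. Otherwise `exists_kappa` for every `q`; `claimC` with `hD` from `local_lemma` and `claimD`; `kill_min`. -/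
theorem hasU_of_simple (G : Type u) [Group G] [Finite G] [IsSimpleGroup G]
    (hnc : ¬ ∀ a b : G, a * b = b * a) (IH : ∀ P : Subgroup G, P ≠ ⊤ → HasU P) : HasU G := by
  classical
  letI := Fintype.ofFinite G
  have hsimple : ∀ V : Submodule (MonoidAlgebra ℚ G) (MonoidAlgebra ℚ G),
      IsSimpleModule (MonoidAlgebra ℚ G) V →
      (∀ v ∈ V, nrm ℚ G * v = 0) → ∃ b ∈ BB G, ∀ v ∈ V, toQ G b * v = 0 := by
    intro V hVs hV
    by_contra hk
    push Not at hk
    have hκ : ∀ q : ℕ, q.Prime → ∃ κ ∈ V, κ ≠ 0 ∧ Kq q κ := by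
      intro q hq
      haveI : Fact q.Prime := ⟨hq⟩
      obtain ⟨P⟩ : Nonempty (Sylow q G) := inferInstance
      have hP : (P : Subgroup G) ≠ ⊤ := by
        intro hP
        have h1 : IsPGroup q (⊤ : Subgroup G) := hP ▸ P.isPGroup'
        have h2 : IsPGroup q G := h1.of_equiv Subgroup.topEquiv
        haveI := h2.center_nontrivial
        have h3 : Subgroup.center G = ⊤ := by
          rcases (inferInstance : (Subgroup.center G).Normal).eq_bot_or_eq_top with h3 | h3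
          · exact absurd h3 ((Subgroup.nontrivial_iff_ne_bot _).mp inferInstance)
          · exact h3
        refine hnc fun a b => ?_
        have h4 : b ∈ Subgroup.center G := h3 ▸ Subgroup.mem_top b
        exact Subgroup.mem_center_iff.mp h4 a
      obtain ⟨b, hb, μ, hμ, h⟩ := mem_BB_of_subgroup (P : Subgroup G) (IH _ hP)
      obtain ⟨v, hv, hbv⟩ := hk b hb
      exact exists_kappa q V hV P b μ hμ h v hv hbv
    have hC := claimC V hV (fun v hv hv0 S q hq _ hqS hS => by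
      haveI : Fact q.Prime := ⟨hq⟩
      obtain ⟨κ, hκV, hκ0, hKκ⟩ := hκ q hq
      obtain ⟨Φ, hΦ, Z, hZ, hZΦ⟩ :=
        local_lemma (genP_of_simple G hnc q hq) V hV κ hκV hκ0 hKκ v hv hv0
      exact claimD v hv0 hΦ hZ hZΦ S hqS hS)
    obtain ⟨b, hb, hbV⟩ := kill_min V hC
    obtain ⟨v, hv, hne⟩ := hk b hb
    exact hne (hbV v hv)
  let V : Submodule (MonoidAlgebra ℚ G) (MonoidAlgebra ℚ G) :=
    { carrier := {v | nrm ℚ G * v = 0}
      add_mem' := fun {a b} ha hb => by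
        simp only [Set.mem_setOf_eq] at ha hb ⊢
        rw [mul_add, ha, hb, add_zero]
      zero_mem' := mul_zero _
      smul_mem' := fun c x hx => by
        simp only [Set.mem_setOf_eq] at hx ⊢
        rw [smul_eq_mul, ← mul_assoc, nrm_mul, smul_mul_assoc, hx, smul_zero] }
  obtain ⟨b, hb, hbV⟩ := kill_left_ideal hsimple V (fun v hv => hv)
  obtain ⟨m, hm⟩ := exists_mul_nrm (b := b) (fun v hv => hbV v hv)
  exact hasU_of_mem_BB hb hm

end Pool.Agent.Lib.MP_7a2af1_al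
end
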