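import Pool.Agent.Lib.MP_7a2af1_al.ML.Defs

section

/-!
# Lists of blocks: first properties
-/

set_option autoImplicit false

namespace Pool.Agent.Lib.MP_7a2af1_al

universe u v

/-- PROOF: induction on `L`; `Nat.card (Fin p × X) = p * Nat.card X`. -/
theorem card_Idx {G : Type u} (L : List (Blk G)) : Nat.card (Idx L) = (L.map Blk.p).prod := by
  induction L with
  | nil =>
    have h : Nat.card (Idx ([] : List (Blk G))) = Nat.card Unit := rfl
    rw [h]
    simp
  | cons B L ih =>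
    have h : Nat.card (Idx (B :: L)) = Nat.card (Fin B.p × Idx L) := rfl
    rw [h, Nat.card_prod, ih]
    simp

theorem PrimeBlks.append {G : Type u} {L L' : List (Blk G)} (h : PrimeBlks L) (h' : PrimeBlks L') :
    PrimeBlks (L ++ L') := by
  intro B hB
  rcases List.mem_append.1 hB with h1 | h1
  · exact h B h1
  · exact h' B h1

theorem PrimeBlks.mapB {G : Type u} {H : Type v} (φ : G → H) {L : List (Blk G)} (h : PrimeBlks L) :
    PrimeBlks (mapB φ L) := by
  intro B hB
  obtain ⟨B', hB', rfl⟩ := List.mem_map.1 hB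
  exact h B' hB'

/-- PROOF: induction on `L` (`Equiv.prodAssoc`, `mul_assoc`). -/
theorem exists_append {G : Type u} [Monoid G] (L L' : List (Blk G)) :
    ∃ e : Idx (L ++ L') ≃ Idx L × Idx L', ∀ x, ev (L ++ L') x = ev L (e x).1 * ev L' (e x).2 := by
  induction L with
  | nil =>
    refine ⟨(Equiv.punitProd (Idx L')).symm, fun x => ?_⟩
    show ev L' x = 1 * ev L' x
    rw [one_mul]
  | cons B L ih =>
    obtain ⟨e, he⟩ := ih
    let e1 : Fin B.p × Idx (L ++ L') ≃ (Fin B.p × Idx L) × Idx L' :=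
      ((Equiv.refl (Fin B.p)).prodCongr e).trans (Equiv.prodAssoc _ _ _).symm
    refine ⟨e1, ?_⟩
    rintro ⟨i, x⟩
    show B.f i * ev (L ++ L') x = (B.f i * ev L (e x).1) * ev L' (e x).2
    rw [he x, mul_assoc]

/-- PROOF: induction on `L` (the two index types are the same). -/
theorem exists_map {G : Type u} {H : Type v} [Monoid G] [Monoid H] (φ : G →* H) (L : List (Blk G)) :
    ∃ e : Idx (mapB φ L) ≃ Idx L, ∀ x, ev (mapB φ L) x = φ (ev L (e x)) := by
  induction L with
  | nil =>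
    refine ⟨Equiv.refl Unit, fun x => ?_⟩
    show (1 : H) = φ 1
    rw [map_one]
  | cons B L ih =>
    obtain ⟨e, he⟩ := ih
    let e1 : Fin B.p × Idx (mapB φ L) ≃ Fin B.p × Idx L := (Equiv.refl (Fin B.p)).prodCongr e
    refine ⟨e1, ?_⟩
    rintro ⟨i, x⟩
    show φ (B.f i) * ev (mapB φ L) x = φ (B.f i * ev L (e x))
    rw [he x, map_mul]

/-- PROOF: `mapB e`, `exists_map`. -/
theorem HasP.congr {G : Type u} {H : Type v} [Monoid G] [Monoid H] (e : G ≃* H) (h : HasP G) :
    HasP H := by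
  obtain ⟨L, h1, h2⟩ := h
  obtain ⟨e', he'⟩ := exists_map (e : G →* H) L
  refine ⟨mapB (e : G →* H) L, h1.mapB _, ?_⟩
  have h3 : ev (mapB (e : G →* H) L) = e ∘ ev L ∘ e' := by
    funext x
    exact he' x
  rw [h3]
  exact e.bijective.comp (h2.comp e'.bijective)

theorem HasU.congr {G : Type u} {H : Type v} [Monoid G] [Monoid H] (e : G ≃* H) (h : HasU G) :
    HasU H := by
  obtain ⟨L, h1, μ, hμ, h2⟩ := h
  obtain ⟨e', he'⟩ := exists_map (e : G →* H) L
  refine ⟨mapB (e : G →* H) L, h1.mapB _, μ, hμ, fun g => ?_⟩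
  rw [← h2 (e.symm g)]
  refine Nat.card_congr (e'.subtypeEquiv fun x => ?_)
  rw [he' x]
  constructor
  · intro h3
    rw [← h3]
    exact (e.symm_apply_apply _).symm
  · intro h3
    rw [h3]
    exact e.apply_symm_apply g

end Pool.Agent.Lib.MP_7a2af1_al
end

section

/-!
# From blocks to logarithmic signatures: the lengths
-/

set_option autoImplicit false

namespace Pool.Agent.Lib.MP_7a2af1_al

/-- PROOF: induction on the list (`Nat.factorization_mul`, `Nat.Prime.factorization`,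
`Finsupp.sum_add_index'`, `Finsupp.sum_single_index`). -/
theorem sum_primes (l : List ℕ) (h : ∀ p ∈ l, p.Prime) :
    l.sum = l.prod.factorization.sum (fun p k => p * k) := by
  induction l with
  | nil => simp
  | cons p l ih =>
    have hp : p.Prime := h p (List.mem_cons_self)
    have hl : ∀ q ∈ l, q.Prime := fun q hq => h q (List.mem_cons_of_mem _ hq)
    have h0 : l.prod ≠ 0 := by
      intro h1
      exact (hl 0 (List.prod_eq_zero_iff.1 h1)).ne_zero rfl
    rw [List.sum_cons, List.prod_cons, ih hl, Nat.factorization_mul hp.ne_zero h0,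
      Finsupp.sum_add_index' (fun _ => mul_zero _) (fun _ _ _ => mul_add _ _ _),
      hp.factorization, Finsupp.sum_single_index (mul_zero _), mul_one]

end Pool.Agent.Lib.MP_7a2af1_al
end

section

/-!
# From blocks to logarithmic signatures: the choice functions
-/

set_option autoImplicit false

namespace Pool.Agent.Lib.MP_7a2af1_al

universe u

/-- The lists of the elements of the blocks. -/
def toLists {G : Type u} (L : List (Blk G)) : List (List G) := L.map fun B => List.ofFn B.f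

/-- PROOF: induction on `L`. For `B :: L` compose `Fin.consEquiv` (or `Fin.insertNthEquiv`, `Fin.consPiProd`...) for the
dependent functions on `Fin (n + 1)` with `Fin (List.ofFn B.f).length ≃ Fin B.p` and the equivalence for `L`;
`List.ofFn_succ`, `List.prod_cons`. -/
theorem exists_choice_equiv {G : Type u} [Monoid G] (L : List (Blk G)) :
    ∃ e : ((i : Fin (toLists L).length) → Fin ((toLists L).get i).length) ≃ Idx L,
      ∀ c, (List.ofFn (fun i => ((toLists L).get i).get (c i))).prod = ev L (e c) := by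
  induction L with
  | nil =>
    refine ⟨⟨fun _ => (), fun _ i => absurd i.2 (Nat.not_lt_zero _), ?_, ?_⟩, ?_⟩
    · intro c
      funext i
      exact absurd i.2 (Nat.not_lt_zero _)
    · intro _
      rfl
    · intro c
      rfl
  | cons B L ih =>
    obtain ⟨e, he⟩ := ih
    have hlen : (List.ofFn B.f).length = B.p := List.length_ofFn
    let e1 : ((i : Fin ((toLists L).length + 1)) → Fin ((List.ofFn B.f :: toLists L).get i).length) ≃
        Fin (List.ofFn B.f).length × ((i : Fin (toLists L).length) → Fin ((toLists L).get i).length) :=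
      { toFun := fun c => (c 0, fun i => c i.succ)
        invFun := fun x => Fin.cons (α := fun i : Fin ((toLists L).length + 1) =>
          Fin ((List.ofFn B.f :: toLists L).get i).length) x.1 x.2
        left_inv := fun c => Fin.cons_self_tail (α := fun i : Fin ((toLists L).length + 1) =>
          Fin ((List.ofFn B.f :: toLists L).get i).length) c
        right_inv := fun x => rfl }
    let e2 : Fin (List.ofFn B.f).length × ((i : Fin (toLists L).length) → Fin ((toLists L).get i).length) ≃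
        Fin B.p × Idx L := Equiv.prodCongr (finCongr hlen) e
    refine ⟨e1.trans e2, ?_⟩
    intro (c : (i : Fin ((toLists L).length + 1)) → Fin ((List.ofFn B.f :: toLists L).get i).length)
    change (List.ofFn (fun i : Fin ((toLists L).length + 1) =>
      ((List.ofFn B.f :: toLists L).get i).get (c i))).prod = B.f (Fin.cast hlen (c 0)) * ev L (e (fun i => c i.succ))
    rw [List.ofFn_succ, List.prod_cons, ← he]
    congr 1
    exact List.get_ofFn B.f (c 0)

end Pool.Agent.Lib.MP_7a2af1_al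
end

section

/-!
# From blocks to logarithmic signatures
-/

set_option autoImplicit false

namespace Pool.Agent.Lib.MP_7a2af1_al

universe u

/-- PROOF: `toLists L`; the lengths are the `B.p`, `card_Idx`, `Nat.card_congr`, `sum_primes`; the unique choice from
`exists_choice_equiv` and the bijectivity. -/
theorem HasP.hasMLS {G : Type u} [Group G] (h : HasP G) : HasMLS G := by
  obtain ⟨L, hL, hbij⟩ := h
  refine ⟨toLists L, ?_, ?_⟩
  · have h1 : (toLists L).map List.length = L.map Blk.p := by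
      unfold toLists
      rw [List.map_map]
      refine List.map_congr_left fun B _ => ?_
      rw [Function.comp_apply, List.length_ofFn]
    have h2 : Nat.card G = (L.map Blk.p).prod := by
      rw [← card_Idx L]
      exact (Nat.card_congr (Equiv.ofBijective _ hbij)).symm
    rw [h1, h2]
    refine sum_primes _ fun p hp => ?_
    obtain ⟨B, hB, rfl⟩ := List.mem_map.mp hp
    exact hL B hB
  · intro g
    obtain ⟨e, he⟩ := exists_choice_equiv L
    have h3 : Function.Bijective fun c => ev L (e c) := hbij.comp e.bijective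
    obtain ⟨c, hc, hu⟩ := h3.existsUnique g
    refine ⟨c, (he c).trans hc, fun c' hc' => hu c' ((he c').symm.trans hc')⟩

end Pool.Agent.Lib.MP_7a2af1_al
end

section

/-!
# Transversals
-/

set_option autoImplicit false

namespace Pool.Agent.Lib.MP_7a2af1_al

universe u v w

/-- PROOF: blocks `L ++ mapB j LΔ`. Injective: from the same product, apply `π` (`π (a * j d) = π a`), then cancel and use
that `j` is injective. Surjective: for `g` choose `x` with `π (ev L x) = π g`, so `g = ev L x * j d`. -/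
theorem hasP_of_transversal {Γ : Type u} {Δ : Type v} {Ω : Type w} [Group Γ] [Group Δ] (j : Δ →* Γ)
    (hj : Function.Injective j) (π : Γ → Ω) (hπ : ∀ a b, π a = π b ↔ ∃ d : Δ, b = a * j d)
    (L : List (Blk Γ)) (hL : PrimeBlks L) (hb : Function.Bijective fun x => π (ev L x))
    (h : HasP Δ) : HasP Γ := by
  obtain ⟨D, hD, hDb⟩ := h
  obtain ⟨e, he⟩ := exists_append L (mapB j D)
  obtain ⟨e', he'⟩ := exists_map j D
  refine ⟨L ++ mapB j D, hL.append (hD.mapB j), ?_, ?_⟩
  · intro x y hxy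
    rw [he, he, he', he'] at hxy
    have h1 : π (ev L (e x).1) = π (ev L (e y).1) := by
      have h2 : π (ev L (e x).1) = π (ev L (e x).1 * j (ev D (e' (e x).2))) :=
        (hπ _ _).2 ⟨_, rfl⟩
      have h3 : π (ev L (e y).1) = π (ev L (e y).1 * j (ev D (e' (e y).2))) :=
        (hπ _ _).2 ⟨_, rfl⟩
      rw [h2, h3, hxy]
    have h4 : (e x).1 = (e y).1 := hb.1 h1
    rw [h4] at hxy
    have h5 : e' (e x).2 = e' (e y).2 := hDb.1 (hj (mul_left_cancel hxy))
    exact e.injective (Prod.ext h4 (e'.injective h5))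
  · intro g
    obtain ⟨a, ha⟩ := hb.2 (π g)
    obtain ⟨d, hd⟩ := (hπ _ _).1 ha
    obtain ⟨b, hbd⟩ := hDb.2 d
    refine ⟨e.symm (a, e'.symm b), ?_⟩
    rw [he, he', Equiv.apply_symm_apply, Equiv.apply_symm_apply, hbd]
    exact hd.symm

end Pool.Agent.Lib.MP_7a2af1_al
end

section

/-!
# Powers of one element
-/

set_option autoImplicit false

namespace Pool.Agent.Lib.MP_7a2af1_al

universe u

/-- PROOF: induction on a list `l` of primes with product `n` (`Nat.primeFactorsList n`), for all `c`: for `p :: l` take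
the block `i ↦ c ^ (i : ℕ)` (`i : Fin p`) followed by the blocks for `l` and `c ^ p`; `c ^ i * (c ^ p) ^ j = c ^ (i + p * j)`,
and `Fin p × Fin m ≃ Fin (p * m)`, `(i, j) ↦ i + p * j` (`finProdFinEquiv` after `Prod.swap`). -/
theorem exists_cyclic {Γ : Type u} [Group Γ] (c : Γ) (n : ℕ) (hn : 1 ≤ n) :
    ∃ L : List (Blk Γ), PrimeBlks L ∧ ∃ e : Idx L ≃ Fin n, ∀ x, ev L x = c ^ (e x : ℕ) := by
  induction n using Nat.strong_induction_on generalizing c with
  | _ n ih =>
    rcases Nat.eq_or_lt_of_le hn with h1 | h1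
    · subst h1
      refine ⟨[], fun B hB => absurd hB (List.not_mem_nil), ?_⟩
      refine ⟨(Equiv.ofUnique Unit (Fin 1)), fun x => ?_⟩
      have h2 : ((Equiv.ofUnique Unit (Fin 1) x : Fin 1) : ℕ) = 0 := by
        have := (Equiv.ofUnique Unit (Fin 1) x : Fin 1).2
        omega
      exact ((ev_nil x).trans (pow_zero c).symm).trans (congrArg (fun k => c ^ k) h2.symm)
    · have hp : n.minFac.Prime := Nat.minFac_prime (by omega)
      obtain ⟨k, hk⟩ := Nat.minFac_dvd n
      have hk0 : 1 ≤ k := by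
        rcases Nat.eq_zero_or_pos k with h2 | h2
        · rw [h2, mul_zero] at hk
          omega
        · exact h2
      have hkn : k < n := by
        have h2 := hp.two_le
        calc k < n.minFac * k := by nlinarith
          _ = n := hk.symm
      obtain ⟨L, hL, e, he⟩ := ih k hkn (c ^ n.minFac) hk0
      have hkn' : k * n.minFac = n := by rw [mul_comm]; exact hk.symm
      refine ⟨⟨n.minFac, fun i => c ^ (i : ℕ)⟩ :: L, ?_, ?_⟩
      · intro B hB
        rcases List.mem_cons.1 hB with h2 | h2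
        · rw [h2]; exact hp
        · exact hL B h2
      · let e1 : Idx ((⟨n.minFac, fun i => c ^ (i : ℕ)⟩ : Blk Γ) :: L) ≃
            Fin k × Fin n.minFac :=
          (Equiv.prodComm (Fin n.minFac) (Idx L)).trans (Equiv.prodCongr e (Equiv.refl _))
        refine ⟨(e1.trans finProdFinEquiv).trans (finCongr hkn'), fun x => ?_⟩
        obtain ⟨i, y⟩ := x
        have h3 : ((((e1.trans finProdFinEquiv).trans (finCongr hkn')) (i, y) : Fin n) : ℕ) =
            (i : ℕ) + n.minFac * (e y : ℕ) := rfl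
        rw [h3, ev_cons, he, ← pow_mul, ← pow_add]

end Pool.Agent.Lib.MP_7a2af1_al
end

section

/-!
# Property U: trivial groups and groups of prime order
-/

set_option autoImplicit false

namespace Pool.Agent.Lib.MP_7a2af1_al

universe u v

/-- PROOF: no blocks, `μ = 1`. -/
theorem hasU_of_subsingleton (G : Type u) [Group G] [Subsingleton G] : HasU G := by
  refine ⟨[], fun B hB => absurd hB List.not_mem_nil, 1, le_rfl, ?_⟩
  intro g
  rw [Nat.card_eq_one_iff_exists]
  refine ⟨⟨(), Subsingleton.elim _ _⟩, ?_⟩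
  rintro ⟨x, hx⟩
  rfl

/-- PROOF: one block, all elements; `μ = 1`. -/
theorem hasU_of_prime_card (G : Type u) [Group G] (h : (Nat.card G).Prime) : HasU G := by
  have hfin : Finite G := Nat.finite_of_card_ne_zero h.ne_zero
  let e : G ≃ Fin (Nat.card G) := Finite.equivFin G
  refine ⟨[⟨Nat.card G, fun i => e.symm i⟩], ?_, 1, le_rfl, ?_⟩
  · intro B hB
    rw [List.mem_singleton] at hB
    rw [hB]
    exact h
  · intro g
    rw [Nat.card_eq_one_iff_exists]
    have hev : ∀ (i : Fin (Nat.card G)) (y : Unit),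
        ev [(⟨Nat.card G, fun i => e.symm i⟩ : Blk G)] ((i, y) : Fin (Nat.card G) × Unit) = e.symm i := by
      intro i y
      show e.symm i * 1 = e.symm i
      rw [mul_one]
    refine ⟨⟨((e g, ()) : Fin (Nat.card G) × Unit), ?_⟩, ?_⟩
    · rw [hev, Equiv.symm_apply_apply]
    · rintro ⟨⟨i, y⟩, hx⟩
      have h1 : e.symm i = g := by
        rw [← hev i y]
        exact hx
      have h2 : i = e g := by
        rw [← h1, Equiv.apply_symm_apply]
      subst h2
      rfl

end Pool.Agent.Lib.MP_7a2af1_al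
end

section

/-!
# Property U: extensions
-/

set_option autoImplicit false

namespace Pool.Agent.Lib.MP_7a2af1_al

universe u v

/-- PROOF. Blocks `mapB N.subtype L ++ mapB Quotient.out L'`, where `L` belongs to `N` and `L'` to `G ⧸ N`. With `exists_append`, `exists_map`
(for `N.subtype`) and, for the second list, an equivalence `e` with `QuotientGroup.mk (ev (mapB Quotient.out L') y) = ev L' (e y)`
(induction on `L'`, `QuotientGroup.mk` is a homomorphism). The pairs `(x, y)` with `ev x * ev y = g`: the class of `ev y` is the class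
of `g` (`μ'` choices of `y`), and then `ev x = g * (ev y)⁻¹ ∈ N` (`μ` choices): together `μ' * μ`. -/
theorem hasU_of_normal (G : Type u) [Group G] [Finite G] (N : Subgroup G) [N.Normal] (h : HasU N)
    (h' : HasU (G ⧸ N)) : HasU G := by
  obtain ⟨L, hL, μ, hμ, hμc⟩ := h
  obtain ⟨L', hL', μ', hμ', hμc'⟩ := h'
  have hLL : mapB (QuotientGroup.mk' N) (mapB (Quotient.out : G ⧸ N → G) L') = L' := by
    unfold mapB
    rw [List.map_map]
    conv_rhs => rw [← List.map_id L']
    refine List.map_congr_left fun B _ => ?_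
    have : (fun i => QuotientGroup.mk' N (Quotient.out (B.f i))) = B.f := by
      funext i
      exact QuotientGroup.out_eq' (B.f i)
    show (⟨B.p, fun i => QuotientGroup.mk' N (Quotient.out (B.f i))⟩ : Blk (G ⧸ N)) = B
    rw [this]
    rfl
  obtain ⟨A, hA⟩ : ∃ A, A = mapB N.subtype L := ⟨_, rfl⟩
  obtain ⟨C, hC⟩ : ∃ C, C = mapB (Quotient.out : G ⧸ N → G) L' := ⟨_, rfl⟩
  rw [← hC] at hLL
  have hm1 := exists_map (QuotientGroup.mk' N) C
  rw [hLL] at hm1
  obtain ⟨e1, he1⟩ := hm1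
  have hm2 := exists_map N.subtype L
  rw [← hA] at hm2
  obtain ⟨e2, he2⟩ := hm2
  obtain ⟨e3, he3⟩ := exists_append A C
  refine ⟨A ++ C, ?_, μ' * μ, Nat.mul_pos hμ' hμ, fun g => ?_⟩
  · rw [hA, hC]
    exact (hL.mapB _).append (hL'.mapB _)
  -- the pairs
  have hmem : ∀ y : Idx C, (QuotientGroup.mk' N (ev C y) = QuotientGroup.mk' N g) →
      g * (ev C y)⁻¹ ∈ N := by
    intro y hy
    have h1 : (QuotientGroup.mk' N) (g * (ev C y)⁻¹) = 1 := by
      rw [map_mul, map_inv, hy, mul_inv_cancel]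
    exact (QuotientGroup.eq_one_iff _).1 h1
  let E1 : {x : Idx (A ++ C) // ev (A ++ C) x = g} ≃
      {q : Idx L × Idx C // ((ev L q.1 : N) : G) * ev C q.2 = g} :=
    Equiv.subtypeEquiv (e3.trans (Equiv.prodCongr e2 (Equiv.refl _))) (by
      intro x
      rw [he3, he2]
      rfl)
  let E2 : {q : Idx L × Idx C // ((ev L q.1 : N) : G) * ev C q.2 = g} ≃
      Σ y : {y : Idx C // QuotientGroup.mk' N (ev C y) = QuotientGroup.mk' N g},
        {x : Idx L // ev L x = (⟨g * (ev C y.1)⁻¹, hmem y.1 y.2⟩ : N)} :=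
    { toFun := fun q => ⟨⟨q.1.2, by
          have h1 : QuotientGroup.mk' N ((ev L q.1.1 : N) : G) = 1 :=
            (QuotientGroup.eq_one_iff _).2 (ev L q.1.1).2
          have h2 := congrArg (QuotientGroup.mk' N) q.2
          rw [map_mul, h1, one_mul] at h2
          exact h2⟩, ⟨q.1.1, by
          apply Subtype.ext
          show ((ev L q.1.1 : N) : G) = g * (ev C q.1.2)⁻¹
          rw [eq_mul_inv_iff_mul_eq]
          exact q.2⟩⟩
      invFun := fun z => ⟨(z.2.1, z.1.1), by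
        rw [z.2.2]
        show g * (ev C z.1.1)⁻¹ * ev C z.1.1 = g
        rw [inv_mul_cancel_right]⟩
      left_inv := fun q => rfl
      right_inv := fun z => rfl }
  have hE3 : Nat.card {y : Idx C // QuotientGroup.mk' N (ev C y) = QuotientGroup.mk' N g} = μ' := by
    rw [← hμc' (QuotientGroup.mk' N g)]
    apply Nat.card_congr
    exact (Equiv.subtypeEquiv e1 (by
      intro x
      rw [he1])).symm
  rw [Nat.card_congr (E1.trans E2)]
  have hft : Fintype {y : Idx C // QuotientGroup.mk' N (ev C y) = QuotientGroup.mk' N g} :=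
    Fintype.ofFinite _
  rw [Nat.card_sigma]
  rw [Finset.sum_congr rfl (fun y _ => hμc _), Finset.sum_const, Finset.card_univ,
    ← Nat.card_eq_fintype_card, hE3, smul_eq_mul]

end Pool.Agent.Lib.MP_7a2af1_al
end

section

/-!
# Property U
-/
end

section

/-!
# Group algebras: definitions
-/

set_option autoImplicit false

open MonoidAlgebra

namespace Pool.Agent.Lib.MP_7a2af1_al

universe u v

section

variable (R : Type v) [CommRing R] (G : Type u) [Group G]

/-- The augmentation (sum of the coefficients). -/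
noncomputable def aug : MonoidAlgebra R G →+* R := (MonoidAlgebra.lift R R G 1).toRingHom

/-- The sum of all elements of `G`. -/
noncomputable def nrm [Fintype G] : MonoidAlgebra R G := ∑ g : G, single g (1 : R)

variable {G}

/-- The element `q - 1 + g`. -/
noncomputable def yel (q : ℕ) (g : G) : MonoidAlgebra R G :=
  (q : MonoidAlgebra R G) - 1 + single g (1 : R)

end

section

variable (G : Type u) [Group G]

/-- `ℤ[G] → ℚ[G]` -/
noncomputable def toQ : MonoidAlgebra ℤ G →+* MonoidAlgebra ℚ G :=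
  MonoidAlgebra.mapRingHom G (Int.castRingHom ℚ)

/-- `ℤ[G] → ℚ_q[G]` -/
noncomputable def toP (q : ℕ) [Fact q.Prime] : MonoidAlgebra ℤ G →+* MonoidAlgebra ℚ_[q] G :=
  MonoidAlgebra.mapRingHom G (Int.castRingHom ℚ_[q])

/-- `ℚ[G] → ℚ_q[G]` -/
noncomputable def QP (q : ℕ) [Fact q.Prime] : MonoidAlgebra ℚ G →+* MonoidAlgebra ℚ_[q] G :=
  MonoidAlgebra.mapRingHom G (algebraMap ℚ ℚ_[q])

variable {G}

/-- The element of `ℤ[G]` of a block: the sum of its elements. -/
noncomputable def bEl (B : Blk G) : MonoidAlgebra ℤ G := ∑ i, single (B.f i) (1 : ℤ)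

variable (G)

/-- The products of elements of blocks of prime length. -/
noncomputable def BB : Submonoid (MonoidAlgebra ℤ G) :=
  Submonoid.closure {b | ∃ B : Blk G, B.p.Prime ∧ b = bEl B}

/-- The products of elements with augmentation prime to the order of `G`, and of elements `q - 1 + g`. -/
noncomputable def CB : Submonoid (MonoidAlgebra ℤ G) :=
  Submonoid.closure ({Z | IsCoprime (aug ℤ G Z) (Nat.card G : ℤ)} ∪
    {y | ∃ (q : ℕ) (g : G), q.Prime ∧ y = yel ℤ q g})

variable {G}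

/-- `v` is killed by an element of `ℤ[G]` whose augmentation is not divisible by `q`. -/
def Kq (q : ℕ) (v : MonoidAlgebra ℚ G) : Prop :=
  ∃ Z : MonoidAlgebra ℤ G, toQ G Z * v = 0 ∧ ¬ (q : ℤ) ∣ aug ℤ G Z

end

/-- The group is generated by its elements of order prime to `q` (and has more such elements than its subgroups). -/
def GenP (G : Type u) [Group G] (q : ℕ) : Prop :=
  ∀ H : Subgroup G, (∀ g : G, (orderOf g).Coprime q → g ∈ H) → H = ⊤

end Pool.Agent.Lib.MP_7a2af1_al
end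

section

/-!
# Augmentation and sum of all elements
-/

set_option autoImplicit false

open MonoidAlgebra

namespace Pool.Agent.Lib.MP_7a2af1_al

universe u v

variable (R : Type v) [CommRing R] {G : Type u} [Group G]

theorem aug_single (g : G) (r : R) : aug R G (single g r) = r := by
  simp [aug, MonoidAlgebra.lift_single]

theorem eq_sum_single [Fintype G] (a : MonoidAlgebra R G) : a = ∑ g, single g (a.coeff g) := by
  classical
  ext h
  rw [MonoidAlgebra.coeff_sum, Finsupp.finsetSum_apply]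
  simp only [coeff_single, Finsupp.single_apply]
  simp

theorem aug_eq_sum [Fintype G] (a : MonoidAlgebra R G) : aug R G a = ∑ g, a.coeff g := by
  conv_lhs => rw [eq_sum_single R a]
  rw [map_sum]
  exact Finset.sum_congr rfl fun g _ => aug_single R g _

theorem mul_nrm [Fintype G] (a : MonoidAlgebra R G) : a * nrm R G = (aug R G a) • nrm R G := by
  have key : ∀ (g : G) (r : R), (single g r : MonoidAlgebra R G) * nrm R G = r • nrm R G := by
    intro g r
    unfold nrm
    rw [Finset.mul_sum, Finset.smul_sum]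
    refine Fintype.sum_equiv (Equiv.mulLeft g) _ _ fun h => ?_
    rw [single_mul_single, mul_one, smul_single, smul_eq_mul, mul_one]
    rfl
  conv_lhs => rw [eq_sum_single R a]
  rw [Finset.sum_mul, aug_eq_sum, Finset.sum_smul]
  exact Finset.sum_congr rfl fun g _ => key g _

theorem nrm_mul [Fintype G] (a : MonoidAlgebra R G) : nrm R G * a = (aug R G a) • nrm R G := by
  have key : ∀ (g : G) (r : R), nrm R G * (single g r : MonoidAlgebra R G) = r • nrm R G := by
    intro g r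
    unfold nrm
    rw [Finset.sum_mul, Finset.smul_sum]
    refine Fintype.sum_equiv (Equiv.mulRight g) _ _ fun h => ?_
    rw [single_mul_single, one_mul, smul_single, smul_eq_mul, mul_one]
    rfl
  conv_lhs => rw [eq_sum_single R a]
  rw [Finset.mul_sum, aug_eq_sum, Finset.sum_smul]
  exact Finset.sum_congr rfl fun g _ => key g _

theorem aug_nrm [Fintype G] : aug R G (nrm R G) = (Nat.card G : R) := by
  unfold nrm
  rw [map_sum]
  simp [aug_single]

theorem aug_yel (q : ℕ) (g : G) : aug R G (yel R q g) = (q : R) := by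
  unfold yel
  rw [map_add, map_sub, map_natCast, map_one, aug_single]
  ring

end Pool.Agent.Lib.MP_7a2af1_al
end

section

/-!
# Change of coefficients
-/

set_option autoImplicit false

open MonoidAlgebra

namespace Pool.Agent.Lib.MP_7a2af1_al

universe u v

variable {G : Type u} [Group G]

private theorem G1b_map_single {R S : Type*} [Semiring R] [Semiring S] (f : R →+* S) (g : G) (r : R) :
    MonoidAlgebra.mapRingHom G f (single g r) = single g (f r) := by
  ext h
  simp [MonoidAlgebra.mapRingHom, coeff_single]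

private theorem G1b_aug_map {R S : Type*} [CommRing R] [CommRing S] (f : R →+* S)
    (a : MonoidAlgebra R G) : aug S G (MonoidAlgebra.mapRingHom G f a) = f (aug R G a) := by
  have h : (aug S G).comp (MonoidAlgebra.mapRingHom G f) = f.comp (aug R G) := by
    refine MonoidAlgebra.ringHom_ext (fun r => ?_) (fun g => ?_)
    · simp [aug_single]
    · simp [aug_single]
  exact congrArg (fun φ : MonoidAlgebra R G →+* S => φ a) h

theorem aug_toQ (Z : MonoidAlgebra ℤ G) : aug ℚ G (toQ G Z) = ((aug ℤ G Z : ℤ) : ℚ) :=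
  G1b_aug_map _ Z

theorem aug_toP (q : ℕ) [Fact q.Prime] (Z : MonoidAlgebra ℤ G) :
    aug ℚ_[q] G (toP G q Z) = ((aug ℤ G Z : ℤ) : ℚ_[q]) :=
  G1b_aug_map _ Z

theorem QP_toQ (q : ℕ) [Fact q.Prime] (Z : MonoidAlgebra ℤ G) : QP G q (toQ G Z) = toP G q Z := by
  ext g
  simp [QP, toQ, toP, coeff_mapRingHom]

theorem toQ_injective : Function.Injective (toQ G) := by
  intro a b h
  ext g
  have h2 := congrArg (fun x => x.coeff g) h
  simpa [toQ, coeff_mapRingHom] using h2

theorem QP_injective (q : ℕ) [Fact q.Prime] : Function.Injective (QP G q) := by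
  intro a b h
  ext g
  have h2 := congrArg (fun x => x.coeff g) h
  simpa [QP, coeff_mapRingHom] using h2

theorem toQ_nrm [Fintype G] : toQ G (nrm ℤ G) = nrm ℚ G := by
  unfold nrm toQ
  rw [map_sum]
  exact Finset.sum_congr rfl fun g _ => by rw [G1b_map_single, map_one]

theorem QP_nrm [Fintype G] (q : ℕ) [Fact q.Prime] : QP G q (nrm ℚ G) = nrm ℚ_[q] G := by
  unfold nrm QP
  rw [map_sum]
  exact Finset.sum_congr rfl fun g _ => by rw [G1b_map_single, map_one]

theorem toP_yel (q : ℕ) [Fact q.Prime] (g : G) : toP G q (yel ℤ q g) = yel ℚ_[q] q g := by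
  unfold yel toP
  rw [map_add, map_sub, map_natCast, map_one, G1b_map_single, map_one]

theorem toQ_yel (q : ℕ) (g : G) : toQ G (yel ℤ q g) = yel ℚ q g := by
  unfold yel toQ
  rw [map_add, map_sub, map_natCast, map_one, G1b_map_single, map_one]

/-- PROOF: clear the denominators of the coefficients. -/
theorem exists_clear [Finite G] (a : MonoidAlgebra ℚ G) :
    ∃ (Z : MonoidAlgebra ℤ G) (m : ℕ), 1 ≤ m ∧ toQ G Z = (m : MonoidAlgebra ℚ G) * a := by
  classical
  cases nonempty_fintype G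
  have hd : ∀ g : G, (a.coeff g).den ∣ ∏ h : G, (a.coeff h).den := fun g =>
    Finset.dvd_prod_of_mem _ (Finset.mem_univ g)
  have hm : 0 < ∏ h : G, (a.coeff h).den := Finset.prod_pos fun h _ => (a.coeff h).den_pos
  have hc : ∀ g : G, ∃ z : ℤ, (z : ℚ) = ((∏ h : G, (a.coeff h).den : ℕ) : ℚ) * a.coeff g := by
    intro g
    obtain ⟨k, hk⟩ := hd g
    refine ⟨k * (a.coeff g).num, ?_⟩
    rw [hk]
    push_cast
    have h1 : ((a.coeff g).den : ℚ) * a.coeff g = (a.coeff g).num := by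
      rw [mul_comm]
      exact Rat.mul_den_eq_num _
    rw [mul_comm ((a.coeff g).den : ℚ) (k : ℚ), mul_assoc, h1]
  choose z hz using hc
  generalize hmm : (∏ h : G, (a.coeff h).den) = m at hm hz
  refine ⟨∑ g, single g (z g), m, hm, ?_⟩
  have h2 : (m : MonoidAlgebra ℚ G) * a = (m : ℚ) • a := by
    rw [← nsmul_eq_mul, Nat.cast_smul_eq_nsmul]
  rw [h2]
  conv_rhs => rw [eq_sum_single ℚ a]
  rw [Finset.smul_sum]
  unfold toQ
  rw [map_sum]
  refine Finset.sum_congr rfl fun g _ => ?_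
  rw [G1b_map_single, smul_single, smul_eq_mul, ← hz g]
  rfl

end Pool.Agent.Lib.MP_7a2af1_al
end

section

/-!
# Group algebras
-/
end

section

/-!
# The group algebra over `ℚ_q`: definitions
-/

set_option autoImplicit false

open MonoidAlgebra

namespace Pool.Agent.Lib.MP_7a2af1_al

universe u w

section

variable (q : ℕ) [Fact q.Prime] (G : Type u) [Group G]

/-- The group algebra over `ℚ_q`. -/
abbrev BQ : Type u := MonoidAlgebra ℚ_[q] G

/-- The elements with coefficients in `ℤ_q`. -/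
noncomputable def B0 : Subring (BQ q G) :=
  (MonoidAlgebra.mapRingHom G (PadicInt.Coe.ringHom (p := q))).range

/-- The elements of `q ^ n B0`. -/
def Sm (n : ℕ) : Set (BQ q G) := {a | ∃ b ∈ B0 q G, a = (q : BQ q G) ^ n * b}

/-- The submonoid generated by the elements `q - 1 + g`, `g` of order prime to `q`. -/
noncomputable def YY : Submonoid (BQ q G) :=
  Submonoid.closure {y | ∃ g : G, (orderOf g).Coprime q ∧ y = yel ℚ_[q] q g}

/-- The submonoid generated by the elements `q - 1 + g`, `g` of order prime to `q`, and the invertible elements with coefficients in `ℤ_q` and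
augmentation in `ℤ_qˣ`. -/
noncomputable def MM : Submonoid (BQ q G) :=
  Submonoid.closure ({z | z ∈ B0 q G ∧ ‖aug ℚ_[q] G z‖ = 1 ∧ IsUnit z} ∪
    {y | ∃ g : G, (orderOf g).Coprime q ∧ y = yel ℚ_[q] q g})

/-- `1 / q` -/
noncomputable def qinv : BQ q G := algebraMap ℚ_[q] (BQ q G) ((q : ℚ_[q])⁻¹)

end

section

variable {q : ℕ} [Fact q.Prime] {G : Type u} [Group G]

/-- `Z` is an element of `B0` with augmentation in `ℤ_qˣ`. -/
def Un (Z : BQ q G) : Prop := Z ∈ B0 q G ∧ ‖aug ℚ_[q] G Z‖ = 1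

/-- The multiples of `x` by elements of the augmentation ideal of `B0`. -/
def NN {U : Type w} [AddCommGroup U] [Module (BQ q G) U] (x : U) : Set U :=
  {y | ∃ a ∈ B0 q G, aug ℚ_[q] G a = 0 ∧ y = a • x}

end

/-- No vector except `0` is fixed by the group. -/
def NoInv (q : ℕ) [Fact q.Prime] (G : Type u) [Group G] (U : Type w) [AddCommGroup U]
    [Module (BQ q G) U] : Prop :=
  ∀ x : U, (∀ g : G, (single g (1 : ℚ_[q]) : BQ q G) • x = x) → x = 0

/-- The admissible sets of Proposition T. -/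
structure Op (q : ℕ) [Fact q.Prime] (G : Type u) [Group G] (W : Type w) [AddCommGroup W]
    [Module (BQ q G) W] (O : Set W) : Prop where
  gen : ∀ y ∈ O, Submodule.span (BQ q G) {y} = ⊤
  opn : ∀ y ∈ O, ∃ M : ℕ, ∀ R ∈ Sm q G M, (1 + R) • y ∈ O
  inv : ∀ θ : W ≃ₗ[BQ q G] W, ∀ y ∈ O, θ y ∈ O

/-- The property of Proposition T: from every generator one reaches every nonempty admissible set. -/
def PT (q : ℕ) [Fact q.Prime] (G : Type u) [Group G] (W : Type w) [AddCommGroup W]
    [Module (BQ q G) W] : Prop :=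
  ∀ O : Set W, Op q G W O → O.Nonempty → ∀ v : W, Submodule.span (BQ q G) {v} = ⊤ →
    ∃ Φ ∈ MM q G, Φ • v ∈ O

/-- The generators which are killed by an element of `B0` with augmentation in `ℤ_qˣ`. -/
def KK (q : ℕ) [Fact q.Prime] (G : Type u) [Group G] (W : Type w) [AddCommGroup W]
    [Module (BQ q G) W] : Set W :=
  {y | Submodule.span (BQ q G) {y} = ⊤ ∧ ∃ Z : BQ q G, Un Z ∧ Z • y = 0}

end Pool.Agent.Lib.MP_7a2af1_al
end

section

/-!
# Elements with coefficients in `ℤ_q`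
-/

set_option autoImplicit false

open MonoidAlgebra

namespace Pool.Agent.Lib.MP_7a2af1_al

universe u w

variable {q : ℕ} [Fact q.Prime] {G : Type u} [Group G]

theorem mem_B0_iff [Finite G] (a : BQ q G) : a ∈ B0 q G ↔ ∀ g, ‖a.coeff g‖ ≤ 1 := by
  constructor
  · rintro ⟨x, rfl⟩ g
    rw [coeff_mapRingHom]
    exact (x.coeff g).2
  · intro h
    have h' : ∀ g, ∃ z : ℤ_[q], PadicInt.Coe.ringHom z = a.coeff g := fun g =>
      ⟨⟨a.coeff g, h g⟩, rfl⟩
    choose z hz using h'
    refine ⟨ofCoeff (Finsupp.equivFunOnFinite.symm z), ?_⟩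
    ext g
    rw [coeff_mapRingHom, coeff_ofCoeff]
    exact hz g

theorem single_mem_B0 (g : G) (r : ℚ_[q]) (hr : ‖r‖ ≤ 1) : (single g r : BQ q G) ∈ B0 q G := by
  obtain ⟨z, hz⟩ : ∃ z : ℤ_[q], PadicInt.Coe.ringHom z = r := ⟨⟨r, hr⟩, rfl⟩
  refine ⟨single g z, ?_⟩
  rw [mapRingHom_single, hz]

theorem toP_mem_B0 (Z : MonoidAlgebra ℤ G) : toP G q Z ∈ B0 q G := by
  refine ⟨MonoidAlgebra.mapRingHom G (Int.castRingHom ℤ_[q]) Z, ?_⟩
  ext g
  unfold toP
  rw [coeff_mapRingHom, coeff_mapRingHom, coeff_mapRingHom]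
  simp

theorem yel_mem_B0 (g : G) : yel ℚ_[q] q g ∈ B0 q G := by
  unfold yel
  exact Subring.add_mem _ (Subring.sub_mem _ (natCast_mem _ q) (Subring.one_mem _))
    (single_mem_B0 g 1 (by simp))

private theorem L1a_aug (x : MonoidAlgebra ℤ_[q] G) :
    aug ℚ_[q] G (MonoidAlgebra.mapRingHom G (PadicInt.Coe.ringHom (p := q)) x) =
      ((aug ℤ_[q] G x : ℤ_[q]) : ℚ_[q]) := by
  induction x using MonoidAlgebra.induction_linear with
  | zero => simp
  | add x y hx hy => rw [map_add, map_add, hx, hy, map_add, PadicInt.coe_add]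
  | single m r =>
    rw [mapRingHom_single, aug_single, aug_single]
    rfl

theorem norm_aug_le {a : BQ q G} (ha : a ∈ B0 q G) : ‖aug ℚ_[q] G a‖ ≤ 1 := by
  obtain ⟨x, rfl⟩ := ha
  rw [L1a_aug]
  exact (aug ℤ_[q] G x).2

end Pool.Agent.Lib.MP_7a2af1_al
end

section

/-!
# Elements divisible by powers of `q`
-/

set_option autoImplicit false

open MonoidAlgebra

namespace Pool.Agent.Lib.MP_7a2af1_al

universe u w

variable {q : ℕ} [Fact q.Prime] {G : Type u} [Group G]

theorem Sm_add {n : ℕ} {a b : BQ q G} (ha : a ∈ Sm q G n) (hb : b ∈ Sm q G n) :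
    a + b ∈ Sm q G n := by
  obtain ⟨c, hc, rfl⟩ := ha
  obtain ⟨d, hd, rfl⟩ := hb
  exact ⟨c + d, Subring.add_mem _ hc hd, by rw [mul_add]⟩

theorem Sm_mul_right {n : ℕ} {a b : BQ q G} (ha : a ∈ Sm q G n) (hb : b ∈ B0 q G) :
    a * b ∈ Sm q G n := by
  obtain ⟨c, hc, rfl⟩ := ha
  exact ⟨c * b, Subring.mul_mem _ hc hb, by rw [mul_assoc]⟩

private theorem L1b_comm (n : ℕ) (a : BQ q G) : a * (q : BQ q G) ^ n = (q : BQ q G) ^ n * a :=
  (((Nat.cast_commute q a).pow_left n).eq).symm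

/-- PROOF: `q` is central. -/
theorem Sm_mul_left {n : ℕ} {a b : BQ q G} (ha : a ∈ B0 q G) (hb : b ∈ Sm q G n) :
    a * b ∈ Sm q G n := by
  obtain ⟨c, hc, rfl⟩ := hb
  exact ⟨a * c, Subring.mul_mem _ ha hc, by rw [← mul_assoc, L1b_comm, mul_assoc]⟩

theorem Sm_mono {m n : ℕ} (h : m ≤ n) {a : BQ q G} (ha : a ∈ Sm q G n) : a ∈ Sm q G m := by
  obtain ⟨c, hc, rfl⟩ := ha
  obtain ⟨k, rfl⟩ := Nat.exists_eq_add_of_le h
  refine ⟨(q : BQ q G) ^ k * c, Subring.mul_mem _ (Subring.pow_mem _ (natCast_mem _ q) k) hc, ?_⟩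
  rw [pow_add, mul_assoc]

theorem Sm_sub_B0 {n : ℕ} {a : BQ q G} (ha : a ∈ Sm q G n) : a ∈ B0 q G := by
  obtain ⟨c, hc, rfl⟩ := ha
  exact Subring.mul_mem _ (Subring.pow_mem _ (natCast_mem _ q) n) hc

private theorem L1b_coeff (c : ℕ) (a : BQ q G) (g : G) :
    ((q : BQ q G) ^ c * a).coeff g = (q : ℚ_[q]) ^ c * a.coeff g := by
  have h1 : (q : BQ q G) ^ c * a = ((q : ℚ_[q]) ^ c) • a := by
    rw [Algebra.smul_def, map_pow, map_natCast]
  rw [h1]
  simp [MonoidAlgebra.coeff_smul]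

/-- Every element becomes divisible after multiplication by a power of `q`. PROOF: finitely many coefficients. -/
theorem exists_scale [Finite G] (a : BQ q G) :
    ∃ c : ℕ, ∀ n : ℕ, (q : BQ q G) ^ (c + n) * a ∈ Sm q G n := by
  have hlim : Filter.Tendsto (fun c : ℕ => ‖(q : ℚ_[q])‖ ^ c) Filter.atTop (nhds 0) :=
    tendsto_pow_atTop_nhds_zero_of_lt_one (norm_nonneg _) Padic.norm_p_lt_one
  have h1 : ∀ g : G, ∀ᶠ c : ℕ in Filter.atTop, ‖(q : ℚ_[q])‖ ^ c * ‖a.coeff g‖ ≤ 1 := by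
    intro g
    have h2 := hlim.mul_const ‖a.coeff g‖
    rw [zero_mul] at h2
    exact h2.eventually (ge_mem_nhds zero_lt_one)
  obtain ⟨c, hc⟩ := (Filter.eventually_all.2 h1).exists
  refine ⟨c, fun n => ⟨(q : BQ q G) ^ c * a, ?_, ?_⟩⟩
  · rw [mem_B0_iff]
    intro g
    rw [L1b_coeff, norm_mul, norm_pow]
    exact hc g
  · rw [add_comm c n, pow_add, mul_assoc]

/-- PROOF: `‖aug a‖ ≤ 1 / q < 1`, ultrametric. -/
theorem Un.add_Sm {Z a : BQ q G} (hZ : Un Z) (ha : a ∈ Sm q G 1) : Un (Z + a) := by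
  refine ⟨Subring.add_mem _ hZ.1 (Sm_sub_B0 ha), ?_⟩
  obtain ⟨c, hc, rfl⟩ := ha
  have h1 : ‖aug ℚ_[q] G ((q : BQ q G) ^ 1 * c)‖ < 1 := by
    rw [pow_one, map_mul, map_natCast, norm_mul]
    have h2 := norm_aug_le hc
    have h3 : ‖(q : ℚ_[q])‖ < 1 := Padic.norm_p_lt_one
    calc ‖(q : ℚ_[q])‖ * ‖aug ℚ_[q] G c‖ ≤ ‖(q : ℚ_[q])‖ * 1 :=
          mul_le_mul_of_nonneg_left h2 (norm_nonneg _)
      _ < 1 := by rw [mul_one]; exact h3
  rw [map_add, Padic.add_eq_max_of_ne, hZ.2, max_eq_left h1.le]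
  rw [hZ.2]
  exact h1.ne'

theorem Un.mul {Z Z' : BQ q G} (hZ : Un Z) (hZ' : Un Z') : Un (Z * Z') := by
  refine ⟨Subring.mul_mem _ hZ.1 hZ'.1, ?_⟩
  rw [map_mul, norm_mul, hZ.2, hZ'.2, mul_one]

private theorem L1b_q : (q : ℚ_[q])⁻¹ * (q : ℚ_[q]) = 1 := by
  refine inv_mul_cancel₀ ?_
  have := (Fact.out : q.Prime).ne_zero
  exact_mod_cast this

private theorem L1b_qq : qinv q G * (q : BQ q G) = 1 := by
  rw [qinv, ← map_natCast (algebraMap ℚ_[q] (BQ q G)) q, ← map_mul, L1b_q, map_one]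

theorem qinv_mul (a : BQ q G) : qinv q G * ((q : BQ q G) * a) = a := by
  rw [← mul_assoc, L1b_qq, one_mul]

theorem mul_qinv (a : BQ q G) : (q : BQ q G) * (qinv q G * a) = a := by
  rw [← mul_assoc, (Nat.cast_commute q (qinv q G)).eq, L1b_qq, one_mul]

theorem qinv_comm (a : BQ q G) : qinv q G * a = a * qinv q G := by
  exact Algebra.commutes _ a

end Pool.Agent.Lib.MP_7a2af1_al
end

section

/-!
# Elements with coefficients in `ℤ_q`
-/
end

section

/-!
# Approximation by elements of `ℤ[G]`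
-/

set_option autoImplicit false

open MonoidAlgebra

namespace Pool.Agent.Lib.MP_7a2af1_al

universe u

variable {q : ℕ} [Fact q.Prime] {G : Type u} [Group G]

/-- PROOF. Coefficientwise: `ℤ` is dense in `ℤ_q` (`PadicInt.appr`, or `PadicInt.exists_mem_range`), and the Chinese remainder theorem for the moduli `q ^ L` and `p ^ M`, `p ∈ S`
(`Int` or `Nat.chineseRemainderOfFinset`; or `Ideal`). -/
theorem exists_int_approx [Finite G] {z : BQ q G} (hz : z ∈ B0 q G) (S : Finset ℕ)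
    (hS : ∀ p ∈ S, p.Prime ∧ p ≠ q) (t : ℕ → MonoidAlgebra ℤ G) (L M : ℕ) :
    ∃ ζ : MonoidAlgebra ℤ G, toP G q ζ - z ∈ Sm q G L ∧
      ∀ p ∈ S, ∃ R : MonoidAlgebra ℤ G, ζ = t p + (p : MonoidAlgebra ℤ G) ^ M * R := by
  have := Fintype.ofFinite G
  have hz' := (mem_B0_iff z).1 hz
  -- the integer statement
  have key : ∀ (S : Finset ℕ), (∀ p ∈ S, p.Prime ∧ p ≠ q) → ∀ (m : ℤ) (u : ℕ → ℤ),
      ∃ n : ℤ, (q : ℤ) ^ L ∣ n - m ∧ ∀ p ∈ S, (p : ℤ) ^ M ∣ n - u p := by
    intro S
    induction S using Finset.induction_on with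
    | empty =>
      intro _ m u
      exact ⟨m, by simp, by simp⟩
    | insert p S hpS ih =>
      intro hS m u
      obtain ⟨n, hn1, hn2⟩ := ih (fun p' hp' => hS p' (Finset.mem_insert_of_mem hp')) m u
      obtain ⟨hp, hpq⟩ := hS p (Finset.mem_insert_self _ _)
      have hcop : IsCoprime ((q : ℤ) ^ L * ∏ p' ∈ S, (p' : ℤ) ^ M) ((p : ℤ) ^ M) := by
        refine IsCoprime.mul_left ?_ ?_
        · refine IsCoprime.pow ?_
          rw [Nat.isCoprime_iff_coprime]
          exact (Nat.coprime_primes (Fact.out) hp).2 (Ne.symm hpq)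
        · refine IsCoprime.prod_left fun p' hp' => ?_
          refine IsCoprime.pow ?_
          rw [Nat.isCoprime_iff_coprime]
          refine (Nat.coprime_primes (hS p' (Finset.mem_insert_of_mem hp')).1 hp).2 ?_
          rintro rfl
          exact hpS hp'
      obtain ⟨x, y, hxy⟩ := hcop
      refine ⟨n + ((q : ℤ) ^ L * ∏ p' ∈ S, (p' : ℤ) ^ M) * (x * (u p - n)), ?_, ?_⟩
      · have : n + ((q : ℤ) ^ L * ∏ p' ∈ S, (p' : ℤ) ^ M) * (x * (u p - n)) - m =
            (n - m) + (q : ℤ) ^ L * ((∏ p' ∈ S, (p' : ℤ) ^ M) * (x * (u p - n))) := by ring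
        rw [this]
        exact dvd_add hn1 (Dvd.intro _ rfl)
      · intro p' hp'
        rcases Finset.mem_insert.1 hp' with rfl | hp'
        · have : n + ((q : ℤ) ^ L * ∏ p' ∈ S, (p' : ℤ) ^ M) * (x * (u p' - n)) - u p' =
              (n - u p') * (1 - x * ((q : ℤ) ^ L * ∏ p' ∈ S, (p' : ℤ) ^ M)) := by ring
          rw [this, ← hxy]
          exact Dvd.intro_left ((n - u p') * y) (by ring)
        · have : n + ((q : ℤ) ^ L * ∏ p' ∈ S, (p' : ℤ) ^ M) * (x * (u p - n)) - u p' =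
              (n - u p') + (∏ p' ∈ S, (p' : ℤ) ^ M) * ((q : ℤ) ^ L * (x * (u p - n))) := by ring
          rw [this]
          exact dvd_add (hn2 p' hp') (Dvd.dvd.mul_right (Finset.dvd_prod_of_mem _ hp') _)
  -- approximation of the coefficients
  have happ : ∀ g : G, ∃ m : ℤ, ‖(m : ℚ_[q]) - z.coeff g‖ ≤ (q : ℝ) ^ (-(L : ℤ)) := by
    intro g
    obtain ⟨c, hc⟩ : ∃ c : ℤ_[q], (c : ℚ_[q]) = z.coeff g := ⟨⟨z.coeff g, hz' g⟩, rfl⟩
    refine ⟨(c.appr L : ℤ), ?_⟩
    have h1 := PadicInt.appr_spec L c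
    rw [← PadicInt.norm_le_pow_iff_mem_span_pow] at h1
    rw [← hc, norm_sub_rev]
    have h2 : ((c - (c.appr L : ℤ_[q]) : ℤ_[q]) : ℚ_[q]) = (c : ℚ_[q]) - (((c.appr L : ℕ) : ℤ) : ℚ_[q]) := by
      push_cast
      rfl
    rw [← h2]
    exact h1
  choose m hm using happ
  choose n hn1 hn2 using fun g : G => key S hS (m g) (fun p => (t p).coeff g)
  have hq0 : (q : ℚ_[q]) ≠ 0 := by exact_mod_cast (Fact.out : q.Prime).ne_zero
  have hcoeff : ∀ g, (ofCoeff (Finsupp.equivFunOnFinite.symm n) : MonoidAlgebra ℤ G).coeff g = n g := fun g => rfl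
  refine ⟨ofCoeff (Finsupp.equivFunOnFinite.symm n), ?_, ?_⟩
  · have hcf : ∀ g, (toP G q (ofCoeff (Finsupp.equivFunOnFinite.symm n)) - z).coeff g = (n g : ℚ_[q]) - z.coeff g := by
      intro g
      rfl
    refine ⟨((q : ℚ_[q]) ^ L)⁻¹ • (toP G q (ofCoeff (Finsupp.equivFunOnFinite.symm n)) - z), ?_, ?_⟩
    · rw [mem_B0_iff]
      intro g
      rw [coeff_smul_apply, hcf, smul_eq_mul, norm_mul, norm_inv, norm_pow, Padic.norm_p]
      have h1 : ‖(n g : ℚ_[q]) - z.coeff g‖ ≤ (q : ℝ) ^ (-(L : ℤ)) := by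
        have h2 : (n g : ℚ_[q]) - z.coeff g = ((n g - m g : ℤ) : ℚ_[q]) + ((m g : ℚ_[q]) - z.coeff g) := by
          push_cast
          ring
        rw [h2]
        refine (Padic.nonarchimedean _ _).trans (max_le ?_ (hm g))
        rw [Padic.norm_int_le_pow_iff_dvd]
        exact_mod_cast hn1 g
      have hqpos : (0 : ℝ) < q := by exact_mod_cast (Fact.out : q.Prime).pos
      rw [inv_pow, inv_inv]
      calc (q : ℝ) ^ L * ‖(n g : ℚ_[q]) - z.coeff g‖ ≤ (q : ℝ) ^ L * (q : ℝ) ^ (-(L : ℤ)) :=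
            mul_le_mul_of_nonneg_left h1 (by positivity)
        _ = 1 := by
            rw [zpow_neg, zpow_natCast]
            exact mul_inv_cancel₀ (by positivity)
    · have h1 : (q : BQ q G) ^ L * (((q : ℚ_[q]) ^ L)⁻¹ • (toP G q (ofCoeff (Finsupp.equivFunOnFinite.symm n)) - z)) =
          ((q : ℚ_[q]) ^ L) • (((q : ℚ_[q]) ^ L)⁻¹ • (toP G q (ofCoeff (Finsupp.equivFunOnFinite.symm n)) - z)) := by
        rw [← Nat.cast_pow, ← Nat.cast_pow, Nat.cast_smul_eq_nsmul, nsmul_eq_mul]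
      rw [h1, smul_inv_smul₀ (pow_ne_zero _ hq0)]
  · intro p hp
    have hdiv : ∀ g, ∃ r : ℤ, n g = (t p).coeff g + (p : ℤ) ^ M * r := by
      intro g
      obtain ⟨r, hr⟩ := hn2 g p hp
      exact ⟨r, by linarith⟩
    choose r hr using hdiv
    refine ⟨ofCoeff (Finsupp.equivFunOnFinite.symm r), ?_⟩
    refine MonoidAlgebra.ext (Finsupp.ext fun g => ?_)
    have h1 : (p : MonoidAlgebra ℤ G) ^ M * (ofCoeff (Finsupp.equivFunOnFinite.symm r)) =
        ((p : ℤ) ^ M) • (ofCoeff (Finsupp.equivFunOnFinite.symm r) : MonoidAlgebra ℤ G) := by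
      rw [← Nat.cast_pow, ← Nat.cast_pow, Nat.cast_smul_eq_nsmul, nsmul_eq_mul]
    rw [h1, coeff_add, Finsupp.add_apply, coeff_smul_apply]
    exact hr g

end Pool.Agent.Lib.MP_7a2af1_al
end

section

/-!
# Regularity
-/

set_option autoImplicit false

open MonoidAlgebra

namespace Pool.Agent.Lib.MP_7a2af1_al

universe u

variable {G : Type u} [Group G]

/-- PROOF. `ℚ[G]` is semisimple (Maschke): the left ideal of `x` has a complement, so it is generated by an idempotent `e = b x` with `x e = x`. -/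
theorem exists_regular [Finite G] (x : MonoidAlgebra ℚ G) : ∃ b : MonoidAlgebra ℚ G, x * b * x = x := by
  have : NeZero (Nat.card G : ℚ) := ⟨by exact_mod_cast Nat.card_pos.ne'⟩
  obtain ⟨J, hJ⟩ := exists_isCompl (Submodule.span (MonoidAlgebra ℚ G) ({x} : Set (MonoidAlgebra ℚ G)))
  have h1 : (1 : MonoidAlgebra ℚ G) ∈
      (Submodule.span (MonoidAlgebra ℚ G) ({x} : Set (MonoidAlgebra ℚ G))) ⊔ J := by
    rw [hJ.sup_eq_top]
    exact Submodule.mem_top
  obtain ⟨e, he, f, hf, hef⟩ := Submodule.mem_sup.1 h1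
  obtain ⟨b, hb⟩ := Submodule.mem_span_singleton.1 he
  have hxI : x ∈ Submodule.span (MonoidAlgebra ℚ G) ({x} : Set (MonoidAlgebra ℚ G)) :=
    Submodule.mem_span_singleton_self x
  have h2 : x * f = x - x * e := by
    rw [eq_sub_iff_add_eq, ← mul_add, add_comm f e, hef, mul_one]
  have h3 : x * f ∈ J := J.smul_mem x hf
  have h4 : x * f ∈ Submodule.span (MonoidAlgebra ℚ G) ({x} : Set (MonoidAlgebra ℚ G)) := by
    rw [h2]
    exact Submodule.sub_mem _ hxI (Submodule.smul_mem _ x he)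
  have h5 : x * f = 0 := by
    have := Submodule.mem_inf.2 ⟨h4, h3⟩
    rw [hJ.inf_eq_bot] at this
    exact (Submodule.mem_bot _).1 this
  refine ⟨b, ?_⟩
  rw [h5] at h2
  rw [mul_assoc, ← smul_eq_mul b x, hb]
  exact (sub_eq_zero.1 h2.symm).symm

end Pool.Agent.Lib.MP_7a2af1_al
end

section

/-!
# Descent from `ℤ_q` to `ℤ`
-/

set_option autoImplicit false

open MonoidAlgebra

namespace Pool.Agent.Lib.MP_7a2af1_al

universe u

variable {q : ℕ} [Fact q.Prime] {G : Type u} [Group G]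

/-- An element of `ℤ[G]` which is divisible by a power of `q` in `B0` is divisible in `ℤ[G]`. -/
private theorem D1b_div [Finite G] {n : ℕ} {y : MonoidAlgebra ℤ G} (hy : toP G q y ∈ Sm q G n) :
    ∃ y₀ : MonoidAlgebra ℤ G, y = (q : MonoidAlgebra ℤ G) ^ n * y₀ := by
  obtain ⟨b, hb, hyb⟩ := hy
  have hdvd : ∀ g : G, ((q ^ n : ℕ) : ℤ) ∣ y.coeff g := by
    intro g
    have h1 : (toP G q y).coeff g = ((y.coeff g : ℤ) : ℚ_[q]) := by
      simp [toP]
    have h2 : ((q : BQ q G) ^ n * b).coeff g = (q : ℚ_[q]) ^ n * b.coeff g := by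
      have : (q : BQ q G) ^ n * b = ((q : ℚ_[q]) ^ n) • b := by
        rw [Algebra.smul_def, map_pow, map_natCast]
      rw [this, MonoidAlgebra.coeff_smul, Finsupp.smul_apply, smul_eq_mul]
    have h3 := (mem_B0_iff b).1 hb g
    have h4 : ‖((y.coeff g : ℤ) : ℚ_[q])‖ ≤ (q : ℝ) ^ (-(n : ℤ)) := by
      rw [← h1, hyb, h2, norm_mul, norm_pow, Padic.norm_p]
      rw [zpow_neg, zpow_natCast, inv_pow]
      exact mul_le_of_le_one_right (by positivity) h3
    have h5 := (Padic.norm_int_le_pow_iff_dvd _ _).1 h4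
    exact_mod_cast h5
  refine ⟨MonoidAlgebra.ofCoeff (y.coeff.mapRange (fun k => k / ((q ^ n : ℕ) : ℤ)) (by simp)), ?_⟩
  have h6 : ∀ w : MonoidAlgebra ℤ G, (q : MonoidAlgebra ℤ G) ^ n * w = (q ^ n : ℕ) • w := by
    intro w
    rw [nsmul_eq_mul, Nat.cast_pow]
  rw [h6]
  ext g
  rw [MonoidAlgebra.coeff_smul, Finsupp.smul_apply]
  simp only [Finsupp.mapRange_apply, nsmul_eq_mul]
  exact (Int.mul_ediv_cancel' (hdvd g)).symm

private theorem D1b_cancel {n : ℕ} (hn : n ≠ 0) {v : MonoidAlgebra ℚ G}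
    (h : (n : MonoidAlgebra ℚ G) * v = 0) : v = 0 := by
  have h1 : (n : MonoidAlgebra ℚ G) * v = (n : ℚ) • v := by
    rw [Algebra.smul_def, map_natCast]
  rw [h1] at h
  rcases smul_eq_zero.1 h with h2 | h2
  · exact absurd (by exact_mod_cast h2) hn
  · exact h2

/-- Descent. PROOF. Multiplying `x` by a positive integer (`exists_clear`; it is invertible in `BQ`) we may assume `x = toQ x₀`. Let `x b x = x` (`exists_regular`), `m b = toQ b₀` (`exists_clear`), `m = q ^ c m'`,
`q ∤ m'`. Let `ζ ∈ ℤ[G]` with `toP ζ - Z ∈ Sm (c + 1)` (`exists_int_approx` with `S = ∅`). `y = ζ x₀` is divisible by `q ^ (c + 1)` in `ℤ[G]`: `toP y = (toP ζ - Z) toP x₀`; `y = q ^ (c + 1) y₀`.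
Put `Z' = m' ζ - q y₀ b₀`. Then `q ^ c Z' x = m ζ x - y b₀ x = m (ζ x - ζ x b x) = 0` and `aug Z' ≡ m' aug ζ` modulo `q`, not divisible by `q` (`aug ζ ≡ aug Z`). -/
theorem descent [Finite G] (x : MonoidAlgebra ℚ G) {Z : BQ q G} (hZ : Un Z)
    (h : Z * QP G q x = 0) : Kq q x := by
  have hq : q.Prime := Fact.out
  obtain ⟨x₀, k, hk, hx₀⟩ := exists_clear x
  obtain ⟨b, hb⟩ := exists_regular (toQ G x₀)
  obtain ⟨b₀, m, hm, hb₀⟩ := exists_clear b
  obtain ⟨c, m', hm', hmc⟩ := Nat.exists_eq_pow_mul_and_not_dvd (n := m) (by omega) q hq.ne_one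
  obtain ⟨ζ, hζ, -⟩ := exists_int_approx hZ.1 (∅ : Finset ℕ) (by simp) (fun _ => 0) (c + 1) 0
  have hZx : Z * toP G q x₀ = 0 := by
    rw [← QP_toQ, hx₀, map_mul, map_natCast, ← mul_assoc, (Nat.commute_cast Z k).eq, mul_assoc, h,
      mul_zero]
  have hy : toP G q (ζ * x₀) ∈ Sm q G (c + 1) := by
    have h1 : toP G q (ζ * x₀) = (toP G q ζ - Z) * toP G q x₀ := by
      rw [sub_mul, hZx, sub_zero, map_mul]
    rw [h1]
    exact Sm_mul_right hζ (toP_mem_B0 x₀)
  obtain ⟨y₀, hy₀⟩ := D1b_div hy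
  have haug : ¬ (q : ℤ) ∣ aug ℤ G ζ := by
    have h1 : Un (Z + (toP G q ζ - Z)) := hZ.add_Sm (Sm_mono (by omega) hζ)
    rw [add_sub_cancel] at h1
    have h2 := h1.2
    rw [aug_toP] at h2
    intro h3
    have h4 := Padic.norm_intCast_lt_one_iff.2 h3
    rw [h2] at h4
    exact lt_irrefl _ h4
  refine ⟨(m' : MonoidAlgebra ℤ G) * ζ - (q : MonoidAlgebra ℤ G) * y₀ * b₀, ?_, ?_⟩
  · -- it kills `x`
    set X : MonoidAlgebra ℚ G := toQ G x₀ with hX
    set ZZ : MonoidAlgebra ℤ G :=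
      (m' : MonoidAlgebra ℤ G) * ζ - (q : MonoidAlgebra ℤ G) * y₀ * b₀ with hZZ
    have h1 : ((q ^ c : ℕ) : MonoidAlgebra ℤ G) * ZZ =
        (m : MonoidAlgebra ℤ G) * ζ - ζ * x₀ * b₀ := by
      rw [hZZ, hy₀, hmc]
      push_cast
      rw [mul_sub, pow_succ]
      simp only [mul_assoc]
    have h2 : ((q ^ c : ℕ) : MonoidAlgebra ℚ G) * (toQ G ZZ * X) = 0 := by
      have h3 := congrArg (fun w => toQ G w * X) h1
      simp only [map_mul, map_sub, map_natCast] at h3
      rw [← mul_assoc, h3, sub_mul, ← hX, hb₀]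
      have h4 : toQ G ζ * X * ((m : MonoidAlgebra ℚ G) * b) * X =
          (m : MonoidAlgebra ℚ G) * (toQ G ζ * (X * b * X)) := by
        rw [← mul_assoc (toQ G ζ * X) (m : MonoidAlgebra ℚ G) b,
          (Nat.commute_cast (toQ G ζ * X) m).eq]
        simp only [mul_assoc]
      rw [h4, hb, mul_assoc, sub_self]
    have h5 : toQ G ZZ * X = 0 := D1b_cancel (pow_ne_zero _ hq.ne_zero) h2
    rw [hx₀, ← mul_assoc, (Nat.commute_cast (toQ G ZZ) k).eq, mul_assoc] at h5
    exact D1b_cancel (by omega) h5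
  · intro h1
    rw [map_sub, map_mul, map_mul, map_mul, map_natCast, map_natCast] at h1
    have h2 : (q : ℤ) ∣ (m' : ℤ) * aug ℤ G ζ := by
      have h3 : (q : ℤ) ∣ (q : ℤ) * aug ℤ G y₀ * aug ℤ G b₀ := by
        rw [mul_assoc]; exact dvd_mul_right _ _
      have h4 := dvd_add h1 h3
      rwa [sub_add_cancel] at h4
    rcases (Nat.prime_iff_prime_int.1 hq).dvd_or_dvd h2 with h3 | h3
    · exact hm' (by exact_mod_cast h3)
    · exact haug h3

end Pool.Agent.Lib.MP_7a2af1_al
end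

section

/-!
# Adjugates
-/

set_option autoImplicit false

open MonoidAlgebra

namespace Pool.Agent.Lib.MP_7a2af1_al

universe u

variable {G : Type u} [Group G]

/-- PROOF. Let `a = N' + p R` and `L_a : MonoidAlgebra ℤ G →ₗ[ℤ] MonoidAlgebra ℤ G` the left multiplication (`LinearMap.mulLeft ℤ a`), `χ` its characteristic polynomial. By
Cayley-Hamilton (`LinearMap.aeval_self_charpoly`) `χ(L_a) = 0`, so `aeval a χ = 0` (apply to `1`; `aeval (L_a) f 1 = aeval a f`, e.g. since `Algebra.lmul` is an algebra homomorphism). `χ = X * c + C D₀`, `D₀ = χ.coeff 0`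
(`Polynomial.divX_mul_X_add`), so `c(a) a = - D₀`: `a' = c(a)`, `D = - D₀`. `D₀ = ± det L_a` (`LinearMap.det_eq_sign_charpoly_coeff`), and modulo `p` the matrix of `L_a` in the basis of the group elements is
`N' • 1`, so `det L_a ≡ N' ^ n`, not divisible by `p` (`RingHom.map_det`, `Int.castRingHom (ZMod p)`). Alternatively: `χ` modulo `p` is `(X - N') ^ n`. Finally `aug a' * aug a = D` (apply `aug`), so `p` does not divide `aug a'`. -/
theorem exists_adjugate [Fintype G] (p : ℕ) (hp : p.Prime) (N' : ℤ) (hN : ¬ (p : ℤ) ∣ N')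
    (R : MonoidAlgebra ℤ G) :
    ∃ (a' : MonoidAlgebra ℤ G) (D : ℤ), ¬ (p : ℤ) ∣ D ∧ ¬ (p : ℤ) ∣ aug ℤ G a' ∧
      a' * ((N' : MonoidAlgebra ℤ G) + (p : MonoidAlgebra ℤ G) * R) = (D : MonoidAlgebra ℤ G) := by
  have hp0 : (p : ℤ) ≠ 0 := by exact_mod_cast hp.ne_zero
  have hint : IsIntegral ℤ R := IsIntegral.of_finite ℤ R
  obtain ⟨f, hfm, hf⟩ := hint
  have hf0 : Polynomial.aeval R f = 0 := hf
  set n : ℕ := f.natDegree with hn
  set h : Polynomial ℤ := Polynomial.scaleRoots f (p : ℤ) with hh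
  have hhn : h.natDegree = n := by rw [hh, Polynomial.natDegree_scaleRoots]
  have hy : Polynomial.aeval ((p : MonoidAlgebra ℤ G) * R) h = 0 := by
    rw [Polynomial.aeval_eq_sum_range, hhn]
    have h1 : ∀ i ∈ Finset.range (n + 1), h.coeff i • ((p : MonoidAlgebra ℤ G) * R) ^ i =
        ((p : ℤ) ^ n) • (f.coeff i • R ^ i) := by
      intro i hi
      have hin : i ≤ n := by
        have := Finset.mem_range.1 hi
        omega
      have h2 : ((p : MonoidAlgebra ℤ G) * R) ^ i = ((p : ℤ) ^ i) • R ^ i := by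
        rw [(Nat.cast_commute p R).mul_pow, ← Nat.cast_pow, ← nsmul_eq_mul, ← natCast_zsmul,
          Nat.cast_pow]
      rw [h2, hh, Polynomial.coeff_scaleRoots, smul_smul, smul_smul, ← hn, mul_assoc, ← pow_add,
        Nat.sub_add_cancel hin, mul_comm]
    rw [Finset.sum_congr rfl h1, ← Finset.smul_sum, hn, ← Polynomial.aeval_eq_sum_range, hf0,
      smul_zero]
  have hdvd : (Polynomial.X - Polynomial.C (-N')) ∣ h - Polynomial.C (h.eval (-N')) := by
    rw [Polynomial.dvd_iff_isRoot]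
    simp
  obtain ⟨r, hr⟩ := hdvd
  rw [mul_comm] at hr
  have hev := congrArg (Polynomial.aeval ((p : MonoidAlgebra ℤ G) * R)) hr
  have hc : ∀ k : ℤ, algebraMap ℤ (MonoidAlgebra ℤ G) k = (k : MonoidAlgebra ℤ G) :=
    fun k => eq_intCast _ k
  rw [map_sub, hy, map_mul, map_sub, Polynomial.aeval_X, Polynomial.aeval_C, Polynomial.aeval_C,
    hc, hc, zero_sub, Int.cast_neg, sub_neg_eq_add,
    add_comm ((p : MonoidAlgebra ℤ G) * R)] at hev
  have hD : ¬ (p : ℤ) ∣ -(h.eval (-N')) := by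
    rw [dvd_neg]
    intro hd
    rw [Polynomial.eval_eq_sum_range, hhn, Finset.sum_range_succ] at hd
    have h3 : (p : ℤ) ∣ ∑ i ∈ Finset.range n, h.coeff i * (-N') ^ i := by
      refine Finset.dvd_sum fun i hi => ?_
      have hin : n - i ≠ 0 := by
        have := Finset.mem_range.1 hi
        omega
      rw [hh, Polynomial.coeff_scaleRoots, ← hn]
      exact ((dvd_pow_self (p : ℤ) hin).mul_left _).mul_right _
    rw [dvd_add_right h3] at hd
    have h4 : h.coeff n = 1 := by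
      rw [hh, Polynomial.coeff_scaleRoots, ← hn, Nat.sub_self, pow_zero, mul_one, hn]
      exact hfm
    rw [h4, one_mul] at hd
    have h5 := (Nat.prime_iff_prime_int.1 hp).dvd_of_dvd_pow hd
    rw [dvd_neg] at h5
    exact hN h5
  refine ⟨Polynomial.aeval ((p : MonoidAlgebra ℤ G) * R) r, -(h.eval (-N')), hD, ?_, ?_⟩
  · intro hd
    apply hD
    have h6 := congrArg (aug ℤ G) hev
    rw [map_neg, map_intCast, map_mul] at h6
    rw [Int.cast_id] at h6
    rw [h6]
    exact hd.mul_right _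
  · rw [← hev, Int.cast_neg]

end Pool.Agent.Lib.MP_7a2af1_al
end

section

/-!
# Coprimality and the primes different from `q`
-/

set_option autoImplicit false

open MonoidAlgebra

namespace Pool.Agent.Lib.MP_7a2af1_al

universe u

variable {q : ℕ} [Fact q.Prime] {G : Type u} [Group G]

private theorem D2a_norm_aug_Sm {L : ℕ} (hL : 1 ≤ L) {a : BQ q G} (ha : a ∈ Sm q G L) :
    ‖aug ℚ_[q] G a‖ < 1 := by
  obtain ⟨b, hb, rfl⟩ := ha
  have hq : (1 : ℝ) < q := by exact_mod_cast (Fact.out : q.Prime).one_lt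
  rw [map_mul, map_pow, map_natCast, norm_mul, norm_pow, Padic.norm_p]
  have h1 := norm_aug_le hb
  have h2 : ((q : ℝ)⁻¹) ^ L < 1 := by
    apply pow_lt_one₀ (by positivity) (inv_lt_one_of_one_lt₀ hq) (by omega)
  calc ((q : ℝ)⁻¹) ^ L * ‖aug ℚ_[q] G b‖ ≤ ((q : ℝ)⁻¹) ^ L * 1 := by
        gcongr
    _ < 1 := by rw [mul_one]; exact h2

private theorem D2a_norm_eq {x y : ℚ_[q]} (hy : ‖y‖ = 1) (h : ‖x - y‖ < 1) : ‖x‖ = 1 := by
  have h1 : x = (x - y) + y := by ring
  have hne : ‖x - y‖ ≠ ‖y‖ := by rw [hy]; exact h.ne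
  rw [h1, IsUltrametricDist.norm_add_eq_max_of_norm_ne_norm hne, hy]
  exact max_eq_right h.le

/-- PROOF. If `d = gcd(aug ζ, |G|) ≠ 1` take a prime `p ∣ d`: `p = q` or `p ∈ S`. -/
theorem isCoprime_of_approx [Finite G] {z : BQ q G} (hz : ‖aug ℚ_[q] G z‖ = 1) (S : Finset ℕ)
    (hS : ∀ p ∈ S, p.Prime) (hSG : ∀ p : ℕ, p.Prime → p ∣ Nat.card G → p = q ∨ p ∈ S)
    (t : ℕ → MonoidAlgebra ℤ G) (ht : ∀ p ∈ S, ¬ (p : ℤ) ∣ aug ℤ G (t p)) {L M : ℕ} (hL : 1 ≤ L)
    (hM : 1 ≤ M) {ζ : MonoidAlgebra ℤ G} (h1 : toP G q ζ - z ∈ Sm q G L)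
    (h2 : ∀ p ∈ S, ∃ R : MonoidAlgebra ℤ G, ζ = t p + (p : MonoidAlgebra ℤ G) ^ M * R) :
    IsCoprime (aug ℤ G ζ) (Nat.card G : ℤ) := by
  rw [Int.isCoprime_iff_gcd_eq_one]
  by_contra hne
  obtain ⟨p, hp, hpd⟩ := Nat.exists_prime_and_dvd hne
  have hd1 : (p : ℤ) ∣ aug ℤ G ζ :=
    (Int.natCast_dvd_natCast.mpr hpd).trans (Int.gcd_dvd_left _ _)
  have hd2 : p ∣ Nat.card G := by
    have := (Int.natCast_dvd_natCast.mpr hpd).trans (Int.gcd_dvd_right (aug ℤ G ζ) (Nat.card G : ℤ))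
    exact_mod_cast this
  rcases hSG p hp hd2 with rfl | hpS
  · have h3 := D2a_norm_aug_Sm hL h1
    rw [map_sub, aug_toP] at h3
    have h4 := D2a_norm_eq hz h3
    have h5 := (Padic.norm_intCast_lt_one_iff (p := p) (k := aug ℤ G ζ)).mpr hd1
    rw [h4] at h5
    exact lt_irrefl _ h5
  · obtain ⟨R, hR⟩ := h2 p hpS
    apply ht p hpS
    have h3 : aug ℤ G ζ = aug ℤ G (t p) + (p : ℤ) ^ M * aug ℤ G R := by
      rw [hR, map_add, map_mul, map_pow, map_natCast]
    have h4 : (p : ℤ) ∣ (p : ℤ) ^ M * aug ℤ G R :=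
      Dvd.dvd.mul_right (dvd_pow_self _ (by omega)) _
    rw [h3] at hd1
    exact (dvd_add_left h4).mp hd1

/-- At the primes `p ≠ q`. PROOF. `c v = X (Zp + p X') v + p ^ M R v = p N v + p ^ M R v`; `N = p ^ ν N'`, `p ∤ N'`, `M = ν + 2`: `c v = p ^ (ν + 1) (N' + p R) v`; `exists_adjugate`: `a' (N' + p R) = D`.
`Zp a'` kills `c v`: `Zp a' c v = p ^ (ν + 1) D Zp v = 0`, and its augmentation is not divisible by `p`. -/
theorem Kq_of_approx [Fintype G] {p : ℕ} (hp : p.Prime) {v : MonoidAlgebra ℚ G} {Zp X X' : MonoidAlgebra ℤ G}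
    (hZv : toQ G Zp * v = 0) (hZ : ¬ (p : ℤ) ∣ aug ℤ G Zp) {N : ℤ} {ν : ℕ} {N' : ℤ}
    (hX : X * X' = (N : MonoidAlgebra ℤ G)) (hN : N = (p : ℤ) ^ ν * N') (hN' : ¬ (p : ℤ) ∣ N')
    {c R : MonoidAlgebra ℤ G}
    (hc : c = X * (Zp + (p : MonoidAlgebra ℤ G) * X') + (p : MonoidAlgebra ℤ G) ^ (ν + 2) * R) :
    Kq p (toQ G c * v) := by
  obtain ⟨a', D, hD, ha', haD⟩ := exists_adjugate p hp N' hN' R
  refine ⟨Zp * a', ?_, ?_⟩
  · have hcomm : ∀ x : MonoidAlgebra ℤ G, x * (p : MonoidAlgebra ℤ G) = (p : MonoidAlgebra ℤ G) * x :=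
      fun x => (Nat.cast_commute p x).symm.eq
    have hDc : ∀ x : MonoidAlgebra ℤ G, x * (D : MonoidAlgebra ℤ G) = (D : MonoidAlgebra ℤ G) * x :=
      fun x => (Int.cast_commute D x).symm.eq
    have h1 : c = X * Zp + (p : MonoidAlgebra ℤ G) ^ (ν + 1) *
        ((N' : MonoidAlgebra ℤ G) + (p : MonoidAlgebra ℤ G) * R) := by
      rw [hc, mul_add, ← mul_assoc X, hcomm, mul_assoc, hX, hN]
      push_cast
      rw [mul_add, ← mul_assoc ((p : MonoidAlgebra ℤ G) ^ (ν + 1)), ← pow_succ, ← mul_assoc,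
        ← pow_succ', add_assoc]
    have h2 : toQ G c * v = toQ G ((p : MonoidAlgebra ℤ G) ^ (ν + 1) *
        ((N' : MonoidAlgebra ℤ G) + (p : MonoidAlgebra ℤ G) * R)) * v := by
      rw [h1, map_add, add_mul, map_mul, mul_assoc, hZv, mul_zero, zero_add]
    rw [h2, ← mul_assoc, ← map_mul]
    have hcp : ∀ x : MonoidAlgebra ℤ G, x * (p : MonoidAlgebra ℤ G) ^ (ν + 1) =
        (p : MonoidAlgebra ℤ G) ^ (ν + 1) * x :=
      fun x => ((Nat.cast_commute p x).pow_left (ν + 1)).symm.eq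
    have h3 : Zp * a' * ((p : MonoidAlgebra ℤ G) ^ (ν + 1) *
        ((N' : MonoidAlgebra ℤ G) + (p : MonoidAlgebra ℤ G) * R)) =
        (p : MonoidAlgebra ℤ G) ^ (ν + 1) * ((D : MonoidAlgebra ℤ G) * Zp) := by
      rw [← mul_assoc (Zp * a'), hcp, mul_assoc, mul_assoc Zp, haD, hDc]
    rw [h3, map_mul, map_mul (toQ G) (D : MonoidAlgebra ℤ G), mul_assoc, mul_assoc, hZv, mul_zero,
      mul_zero]
  · rw [map_mul]
    intro h
    rcases (Nat.prime_iff_prime_int.mp hp).dvd_or_dvd h with h | h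
    · exact hZ h
    · exact ha' h

end Pool.Agent.Lib.MP_7a2af1_al
end

section

/-!
# The inverse of `q - 1 + g`
-/

set_option autoImplicit false

open MonoidAlgebra

namespace Pool.Agent.Lib.MP_7a2af1_al

universe u

variable {G : Type u} [Group G]

/-- PROOF. `o = orderOf g`, `a = q - 1`: `(a + g) * ∑ j ∈ range o, (-1) ^ j * a ^ (o - 1 - j) * g ^ j = a ^ o - (-g) ^ o = a ^ o - (-1) ^ o` (geometric sum:
`Commute.geom_sum₂_mul` for the commuting elements `a` and `-g`; `g ^ o = 1`). `N = (q - 1) ^ o - (-1) ^ o ≠ 0`: for `q = 2` the number `o` is odd and `N = 2`; for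
`q ≥ 3`: `(q - 1) ^ o ≥ 2`. -/
theorem exists_adj [Finite G] (q : ℕ) (hq : q.Prime) (g : G) (hg : (orderOf g).Coprime q) :
    ∃ (Y : MonoidAlgebra ℤ G) (N : ℤ), N ≠ 0 ∧ yel ℤ q g * Y = (N : MonoidAlgebra ℤ G) ∧
      Y * yel ℤ q g = (N : MonoidAlgebra ℤ G) := by
  have ho : 0 < orderOf g := orderOf_pos g
  have hq2 := hq.two_le
  have hN : ((q : ℤ) - 1) ^ orderOf g - (-1) ^ orderOf g ≠ 0 := by
    rcases Nat.lt_or_ge q 3 with h3 | h3
    · have hq' : q = 2 := by omega
      subst hq'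
      have hodd : Odd (orderOf g) := Nat.coprime_two_right.1 hg
      rw [hodd.neg_one_pow]
      norm_num
    · have h2 : (2 : ℤ) ≤ (q : ℤ) - 1 := by
        have : (3 : ℤ) ≤ (q : ℤ) := by exact_mod_cast h3
        linarith
      have h4 : (2 : ℤ) ≤ ((q : ℤ) - 1) ^ orderOf g := by
        calc (2 : ℤ) ≤ (q : ℤ) - 1 := h2
          _ = ((q : ℤ) - 1) ^ 1 := (pow_one _).symm
          _ ≤ ((q : ℤ) - 1) ^ orderOf g := pow_le_pow_right₀ (by linarith) ho
      rcases neg_one_pow_eq_or ℤ (orderOf g) with h | h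
      · rw [h]
        intro h0
        linarith
      · rw [h]
        intro h0
        linarith
  have hu : (single g (1 : ℤ) : MonoidAlgebra ℤ G) ^ orderOf g = 1 := by
    rw [MonoidAlgebra.single_pow, pow_orderOf_eq_one, one_pow, MonoidAlgebra.one_def]
  have hc : Commute (((q : ℤ) - 1 : ℤ) : MonoidAlgebra ℤ G) (-(single g (1 : ℤ))) := Int.cast_commute _ _
  have hy : yel ℤ q g = (((q : ℤ) - 1 : ℤ) : MonoidAlgebra ℤ G) - (-(single g (1 : ℤ))) := by
    unfold yel
    push_cast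
    abel
  have hp : (((q : ℤ) - 1 : ℤ) : MonoidAlgebra ℤ G) ^ orderOf g - (-(single g (1 : ℤ))) ^ orderOf g =
      ((((q : ℤ) - 1) ^ orderOf g - (-1) ^ orderOf g : ℤ) : MonoidAlgebra ℤ G) := by
    rw [neg_pow, hu, mul_one]
    push_cast
    rfl
  refine ⟨∑ i ∈ Finset.range (orderOf g), (((q : ℤ) - 1 : ℤ) : MonoidAlgebra ℤ G) ^ i *
    (-(single g (1 : ℤ))) ^ (orderOf g - 1 - i), ((q : ℤ) - 1) ^ orderOf g - (-1) ^ orderOf g, hN, ?_, ?_⟩
  · rw [hy, hc.mul_geom_sum₂, hp]
  · rw [hy, hc.geom_sum₂_mul, hp]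

end Pool.Agent.Lib.MP_7a2af1_al
end

section

/-!
# The submonoids
-/

set_option autoImplicit false

open MonoidAlgebra

namespace Pool.Agent.Lib.MP_7a2af1_al

universe u w

variable {q : ℕ} [Fact q.Prime] {G : Type u} [Group G]

/-- PROOF: `exists_adj` mapped by `toP`. -/
theorem isUnit_yel [Finite G] (g : G) (hg : (orderOf g).Coprime q) : IsUnit (yel ℚ_[q] q g) := by
  obtain ⟨Y, N, hN, h1, h2⟩ := exists_adj q (Fact.out : q.Prime) g hg
  have hN' : ((N : ℤ) : ℚ_[q]) ≠ 0 := by exact_mod_cast hN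
  have e1 : yel ℚ_[q] q g * toP G q Y = ((N : ℤ) : BQ q G) := by
    have := congrArg (toP G q) h1
    rwa [map_mul, toP_yel, map_intCast] at this
  have e2 : toP G q Y * yel ℚ_[q] q g = ((N : ℤ) : BQ q G) := by
    have := congrArg (toP G q) h2
    rwa [map_mul, toP_yel, map_intCast] at this
  have hu : IsUnit (((N : ℤ) : BQ q G)) := by
    have h3 := (IsUnit.mk0 _ hN').map (algebraMap ℚ_[q] (BQ q G))
    rwa [map_intCast] at h3
  obtain ⟨u, hu⟩ := hu
  rw [← hu] at e1 e2
  refine ⟨⟨yel ℚ_[q] q g, toP G q Y * ((u⁻¹ : (BQ q G)ˣ) : BQ q G), ?_, ?_⟩, rfl⟩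
  · rw [← mul_assoc, e1, Units.mul_inv]
  · have h4 : ((u⁻¹ : (BQ q G)ˣ) : BQ q G) * yel ℚ_[q] q g = yel ℚ_[q] q g * ((u⁻¹ : (BQ q G)ˣ) : BQ q G) := by
      have hc : Commute (u : BQ q G) (yel ℚ_[q] q g) := by
        rw [hu]; exact Int.cast_commute _ _
      exact (Commute.units_inv_left hc)
    rw [mul_assoc, h4, ← mul_assoc, e2, Units.mul_inv]

theorem isUnit_of_mem_MM [Finite G] {Φ : BQ q G} (h : Φ ∈ MM q G) : IsUnit Φ := by
  unfold MM at h
  induction h using Submonoid.closure_induction with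
  | mem x hx =>
    rcases hx with ⟨-, -, hx⟩ | ⟨g, hg, rfl⟩
    · exact hx
    · exact isUnit_yel g hg
  | one => exact isUnit_one
  | mul x y _ _ hx hy => exact hx.mul hy

theorem mem_B0_of_mem_MM {Φ : BQ q G} (h : Φ ∈ MM q G) : Φ ∈ B0 q G := by
  unfold MM at h
  induction h using Submonoid.closure_induction with
  | mem x hx =>
    rcases hx with ⟨hx, -, -⟩ | ⟨g, hg, rfl⟩
    · exact hx
    · exact yel_mem_B0 g
  | one => exact one_mem _
  | mul x y _ _ hx hy => exact mul_mem hx hy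

theorem YY_le_MM : YY q G ≤ MM q G :=
  Submonoid.closure_mono Set.subset_union_right

end Pool.Agent.Lib.MP_7a2af1_al
end

section

/-!
# Approximation of the elements of `MM`
-/

set_option autoImplicit false

open MonoidAlgebra

namespace Pool.Agent.Lib.MP_7a2af1_al

universe u

variable {q : ℕ} [Fact q.Prime] {G : Type u} [Group G]

private theorem D2b_aug_one_not_dvd {p : ℕ} (hp : p.Prime) :
    ¬ (p : ℤ) ∣ aug ℤ G (1 : MonoidAlgebra ℤ G) := by
  rw [map_one]
  intro h
  have h1 := Int.isUnit_iff.mp (isUnit_of_dvd_one h)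
  have h2 := hp.two_le
  rcases h1 with h1 | h1 <;> omega

private theorem D2b_ncomm (p : ℕ) (M : ℕ) (x : MonoidAlgebra ℤ G) :
    x * (p : MonoidAlgebra ℤ G) ^ M = (p : MonoidAlgebra ℤ G) ^ M * x :=
  ((Nat.cast_commute p x).pow_left M).symm.eq

/-- PROOF. Induction on `Φ` (`Submonoid.closure_induction_left`). `Φ = 1`: `X = X' = 1`, `N = 1`, `c = ζ₀` from `exists_int_approx` for `z = 1`, `t`. `Φ = z Φ'` with `z ∈ B0`,
`‖aug z‖ = 1`: `c = ζ c'`, `ζ` from `exists_int_approx` for `z` and `t = 1`; `X`, `X'`, `N` unchanged (`ζ c' = (1 + p ^ M R) (X t + p ^ M R')`). `Φ = yel g * Φ'`: `c = yel g * c'`,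
`X = yel g * X₁`, `X' = X₁' * Y`, `N = N₁ N_g` (`exists_adj`). The elements `ζ` are in `CB` by `isCoprime_of_approx`; `toP ζ toP c' - z Φ' = (toP ζ - z) toP c' + z (toP c' - Φ')`. -/
theorem approx [Finite G] {Φ : BQ q G} (hΦ : Φ ∈ MM q G) :
    ∃ (X X' : MonoidAlgebra ℤ G) (N : ℤ), N ≠ 0 ∧ X * X' = (N : MonoidAlgebra ℤ G) ∧
      ∀ (S : Finset ℕ), (∀ p ∈ S, p.Prime ∧ p ≠ q) →
        (∀ p : ℕ, p.Prime → p ∣ Nat.card G → p = q ∨ p ∈ S) →
        ∀ (t : ℕ → MonoidAlgebra ℤ G), (∀ p ∈ S, ¬ (p : ℤ) ∣ aug ℤ G (t p)) →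
        ∀ (L M : ℕ), 1 ≤ L → 1 ≤ M →
          ∃ c ∈ CB G, toP G q c - Φ ∈ Sm q G L ∧
            ∀ p ∈ S, ∃ R : MonoidAlgebra ℤ G, c = X * t p + (p : MonoidAlgebra ℤ G) ^ M * R := by
  unfold MM at hΦ
  induction hΦ using Submonoid.closure_induction_left with
  | one =>
    refine ⟨1, 1, 1, one_ne_zero, by simp, ?_⟩
    intro S hS hSG t ht L M hL hM
    obtain ⟨ζ, h1, h2⟩ := exists_int_approx (q := q) (G := G) (z := 1) (B0 q G).one_mem S hS t L M
    refine ⟨ζ, ?_, h1, ?_⟩
    · apply Submonoid.subset_closure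
      left
      exact isCoprime_of_approx (by rw [map_one, norm_one]) S (fun p hp => (hS p hp).1) hSG t ht hL hM
        h1 h2
    · intro p hp
      obtain ⟨R, hR⟩ := h2 p hp
      exact ⟨R, by rw [one_mul]; exact hR⟩
  | mul_left z hz Φ' hΦ' ih =>
    obtain ⟨X, X', N, hN, hX, h⟩ := ih
    rcases hz with hz | ⟨g, hg, rfl⟩
    · obtain ⟨hz0, hz1, hz2⟩ := hz
      refine ⟨X, X', N, hN, hX, ?_⟩
      intro S hS hSG t ht L M hL hM
      obtain ⟨c', hc', hc1, hc2⟩ := h S hS hSG t ht L M hL hM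
      obtain ⟨ζ, h1, h2⟩ := exists_int_approx (q := q) (G := G) hz0 S hS (fun _ => 1) L M
      refine ⟨ζ * c', ?_, ?_, ?_⟩
      · apply Submonoid.mul_mem _ _ hc'
        apply Submonoid.subset_closure
        left
        exact isCoprime_of_approx hz1 S (fun p hp => (hS p hp).1) hSG (fun _ => 1)
          (fun p hp => D2b_aug_one_not_dvd (hS p hp).1) hL hM h1 h2
      · have h3 : toP G q (ζ * c') - z * Φ' = (toP G q ζ - z) * toP G q c' + z * (toP G q c' - Φ') := by
          rw [map_mul]; noncomm_ring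
        rw [h3]
        exact Sm_add (Sm_mul_right h1 (toP_mem_B0 c')) (Sm_mul_left hz0 hc1)
      · intro p hp
        obtain ⟨R, hR⟩ := h2 p hp
        obtain ⟨R', hR'⟩ := hc2 p hp
        refine ⟨R' + R * c', ?_⟩
        have h4 : ζ * c' = c' + (p : MonoidAlgebra ℤ G) ^ M * R * c' := by
          rw [hR]; noncomm_ring
        rw [h4, mul_add, ← add_assoc, ← hR', mul_assoc]
    · obtain ⟨Y, Ng, hNg, hY1, hY2⟩ := exists_adj q (Fact.out : q.Prime) g hg
      refine ⟨yel ℤ q g * X, X' * Y, N * Ng, mul_ne_zero hN hNg, ?_, ?_⟩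
      · have h5 : (N : MonoidAlgebra ℤ G) * Y = Y * (N : MonoidAlgebra ℤ G) :=
          (Int.cast_commute N Y).eq
        calc yel ℤ q g * X * (X' * Y) = yel ℤ q g * ((X * X') * Y) := by
              simp only [mul_assoc]
          _ = (yel ℤ q g * Y) * (N : MonoidAlgebra ℤ G) := by rw [hX, h5, mul_assoc]
          _ = ((N * Ng : ℤ) : MonoidAlgebra ℤ G) := by
              rw [hY1]; push_cast; exact (Int.cast_commute Ng _).eq
      · intro S hS hSG t ht L M hL hM
        obtain ⟨c', hc', hc1, hc2⟩ := h S hS hSG t ht L M hL hM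
        refine ⟨yel ℤ q g * c', ?_, ?_, ?_⟩
        · apply Submonoid.mul_mem _ _ hc'
          apply Submonoid.subset_closure
          right
          exact ⟨q, g, Fact.out, rfl⟩
        · have h3 : toP G q (yel ℤ q g * c') - yel ℚ_[q] q g * Φ' =
              yel ℚ_[q] q g * (toP G q c' - Φ') := by
            rw [map_mul, toP_yel, mul_sub]
          rw [h3]
          exact Sm_mul_left (yel_mem_B0 g) hc1
        · intro p hp
          obtain ⟨R', hR'⟩ := hc2 p hp
          refine ⟨yel ℤ q g * R', ?_⟩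
          rw [← mul_assoc, ← D2b_ncomm, mul_assoc, mul_assoc (yel ℤ q g) _ R', ← mul_add, ← hR']

end Pool.Agent.Lib.MP_7a2af1_al
end

section

/-!
# Invertible perturbations
-/

set_option autoImplicit false

open MonoidAlgebra

namespace Pool.Agent.Lib.MP_7a2af1_al

universe u w

variable {q : ℕ} [Fact q.Prime] {G : Type u} [Group G]

/-- PROOF. The left multiplication `L_a` on the finite dimensional space has finitely many eigenvalues; if `-q ^ M` is not an eigenvalue, then `a + q ^ M`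
has an injective, so bijective, left multiplication, so it is a unit (right inverse `b`, and then also a left inverse in a finite dimensional
algebra). The numbers `-q ^ M` are different. -/
theorem exists_isUnit_add [Finite G] (a : BQ q G) :
    ∃ M₀ : ℕ, ∀ M, M₀ ≤ M → IsUnit (a + (q : BQ q G) ^ M) := by
  have hint : IsIntegral ℚ_[q] a := IsIntegral.of_finite ℚ_[q] a
  set p := minpoly ℚ_[q] a with hp
  have hp0 : p ≠ 0 := minpoly.ne_zero hint
  have hroot : ∀ r ∈ spectrum ℚ_[q] a, p.IsRoot r := by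
    intro r hr
    have h1 : Polynomial.eval r p ∈ spectrum ℚ_[q] (Polynomial.aeval a p) :=
      spectrum.subset_polynomial_aeval a p ⟨r, hr, rfl⟩
    rw [hp, minpoly.aeval, spectrum.zero_eq] at h1
    exact h1
  have hfin : (spectrum ℚ_[q] a).Finite := by
    classical
    refine Set.Finite.subset (p.roots.toFinset.finite_toSet) fun r hr => ?_
    simp only [Finset.mem_coe, Multiset.mem_toFinset, Polynomial.mem_roots', ne_eq]
    exact ⟨hp0, hroot r hr⟩
  have hq1 : (1 : ℕ) < q := (Fact.out : q.Prime).one_lt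
  have hinj : Function.Injective (fun M : ℕ => (-((q : ℚ_[q]) ^ M) : ℚ_[q])) := by
    intro M N h
    have h2 : ((q : ℚ_[q]) ^ M) = (q : ℚ_[q]) ^ N := neg_injective h
    have h3 : q ^ M = q ^ N := by exact_mod_cast h2
    exact Nat.pow_right_injective hq1 h3
  have hfin2 : ((fun M : ℕ => (-((q : ℚ_[q]) ^ M) : ℚ_[q])) ⁻¹' spectrum ℚ_[q] a).Finite :=
    hfin.preimage hinj.injOn
  obtain ⟨B, hB⟩ := hfin2.bddAbove
  refine ⟨B + 1, fun M hM => ?_⟩
  have hM2 : (-((q : ℚ_[q]) ^ M) : ℚ_[q]) ∉ spectrum ℚ_[q] a := fun h => by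
    have := hB h
    omega
  have hu := spectrum.notMem_iff.1 hM2
  have he : a + (q : BQ q G) ^ M = -(algebraMap ℚ_[q] (BQ q G) (-((q : ℚ_[q]) ^ M)) - a) := by
    rw [map_neg, map_pow, map_natCast]
    abel
  rw [he]
  exact hu.neg

end Pool.Agent.Lib.MP_7a2af1_al
end

section

/-!
# Killing left ideals, reduction to simple left ideals
-/

set_option autoImplicit false

open MonoidAlgebra

namespace Pool.Agent.Lib.MP_7a2af1_al

universe u

variable {G : Type u} [Group G]

/-- PROOF. Well-founded induction on `V` (the submodules of the artinian ring `ℚ[G]`; or strong induction on the dimension over `ℚ`). `V = ⊥`: `b = 1`. Otherwise there is a simple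
submodule `W ≤ V` (`IsSemisimpleModule` lattice is atomic: `IsAtomic.exists_atom_le`.., `isSimpleModule_iff_isAtom`) and `W'` with `W ⊔ W' = V`, `W ⊓ W' = ⊥` (complement `W₁` of `W` in the whole ring,
`W' = W₁ ⊓ V`, modular law), `W' < V`. `b₁` kills `W` (hypothesis `h`), `b₂` kills `W'` (induction): `b₁ * b₂ ∈ BB G` kills `W'`, and `b₁ (b₂ w) = 0` for `w ∈ W` since `b₂ w ∈ W`. The ring `ℚ[G]` is
semisimple: instance `MonoidAlgebra.Submodule...` in `Mathlib.RepresentationTheory.Maschke` (`IsSemisimpleModule (MonoidAlgebra k G) V`, it needs `NeZero (Nat.card G : ℚ)`); a semisimple ring is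
artinian. -/
theorem kill_left_ideal [Fintype G]
    (h : ∀ V : Submodule (MonoidAlgebra ℚ G) (MonoidAlgebra ℚ G), IsSimpleModule (MonoidAlgebra ℚ G) V →
      (∀ v ∈ V, nrm ℚ G * v = 0) → ∃ b ∈ BB G, ∀ v ∈ V, toQ G b * v = 0)
    (V : Submodule (MonoidAlgebra ℚ G) (MonoidAlgebra ℚ G)) (hV : ∀ v ∈ V, nrm ℚ G * v = 0) :
    ∃ b ∈ BB G, ∀ v ∈ V, toQ G b * v = 0 := by
  classical
  have hne : NeZero (Nat.card G : ℚ) := ⟨by exact_mod_cast Nat.card_pos.ne'⟩
  have hss : IsSemisimpleModule (MonoidAlgebra ℚ G) (MonoidAlgebra ℚ G) := inferInstance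
  have hart : IsArtinian (MonoidAlgebra ℚ G) (MonoidAlgebra ℚ G) := inferInstance
  have key : ∀ V : Submodule (MonoidAlgebra ℚ G) (MonoidAlgebra ℚ G), (∀ v ∈ V, nrm ℚ G * v = 0) →
      ∃ b ∈ BB G, ∀ v ∈ V, toQ G b * v = 0 := by
    intro V
    induction V using WellFoundedLT.induction with
    | ind V ih =>
      intro hV
      by_cases hbot : V = ⊥
      · refine ⟨1, (BB G).one_mem, fun v hv => ?_⟩
        rw [hbot, Submodule.mem_bot] at hv
        rw [hv, mul_zero]
      · obtain ⟨W, hW1, hW2⟩ := (IsAtomic.eq_bot_or_exists_atom_le V).resolve_left hbot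
        obtain ⟨W₁, hc⟩ := exists_isCompl W
        have hlt : W₁ ⊓ V < V := by
          refine lt_of_le_of_ne inf_le_right fun heq => ?_
          have h1 : V ≤ W₁ := heq ▸ inf_le_left
          exact hW1.1 (le_bot_iff.1 (hc.disjoint le_rfl (hW2.trans h1)))
        have hsup : W ⊔ W₁ ⊓ V = V := by
          rw [← sup_inf_assoc_of_le W₁ hW2, hc.sup_eq_top, top_inf_eq]
        obtain ⟨b₁, hb₁, hk₁⟩ := h W (isSimpleModule_iff_isAtom.2 hW1) fun v hv => hV v (hW2 hv)
        obtain ⟨b₂, hb₂, hk₂⟩ := ih (W₁ ⊓ V) hlt fun v hv => hV v hv.2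
        refine ⟨b₁ * b₂, (BB G).mul_mem hb₁ hb₂, fun v hv => ?_⟩
        rw [← hsup] at hv
        obtain ⟨w, hw, w', hw', rfl⟩ := Submodule.mem_sup.1 hv
        have h1 : toQ G b₂ * w ∈ W := W.smul_mem (toQ G b₂) hw
        rw [map_mul, mul_add, mul_assoc, mul_assoc, hk₁ _ h1, hk₂ w' hw', mul_zero, add_zero]
  exact key V hV

end Pool.Agent.Lib.MP_7a2af1_al
end
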