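import Pool.Agent.Lib.MP_7a2af1_al.Mg.G002
import Pool.Agent.Lib.MP_7a2af1_al.Mg.G001
import Pool.Agent.Lib.MP_7a2af1_al.Mg.G004

section

/-!
# One step: multiplication by `(q - 1 + g) / q`
-/

set_option autoImplicit false

open MonoidAlgebra

namespace Pool.Agent.Lib.MP_7a2af1_al

universe u w

variable {q : ℕ} [Fact q.Prime] {G : Type u} [Group G]
variable {U : Type w} [AddCommGroup U] [Module (BQ q G) U]

theorem NN_add {x y z : U} (hy : y ∈ NN (q := q) (G := G) x) (hz : z ∈ NN (q := q) (G := G) x) :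
    y + z ∈ NN (q := q) (G := G) x := by
  obtain ⟨a, ha, ha0, rfl⟩ := hy
  obtain ⟨b, hb, hb0, rfl⟩ := hz
  exact ⟨a + b, (B0 q G).add_mem ha hb, by rw [map_add, ha0, hb0, add_zero], (add_smul a b x).symm⟩

theorem NN_smul {x y : U} {a : BQ q G} (ha : a ∈ B0 q G) (hy : y ∈ NN (q := q) (G := G) x) :
    a • y ∈ NN (q := q) (G := G) x := by
  obtain ⟨b, hb, hb0, rfl⟩ := hy
  exact ⟨a * b, (B0 q G).mul_mem ha hb, by rw [map_mul, hb0, mul_zero], (mul_smul a b x).symm⟩

private theorem L3b_aug_single (g : G) (r : ℚ_[q]) : aug ℚ_[q] G (single g r) = r := by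
  unfold aug
  show (MonoidAlgebra.lift ℚ_[q] ℚ_[q] G 1) (single g r) = r
  rw [MonoidAlgebra.lift_single]
  simp

/-- Killable means `x ∈ NN x`. PROOF: `x = a x`: `Z = 1 - a`; conversely `Z x = 0`: `c = aug Z` is a unit of `ℤ_q`, `a = 1 - c⁻¹ Z`. -/
theorem mem_NN_self_iff (x : U) :
    x ∈ NN (q := q) (G := G) x ↔ ∃ Z : BQ q G, Un Z ∧ Z • x = 0 := by
  constructor
  · rintro ⟨a, ha, ha0, hx⟩
    refine ⟨1 - a, ⟨(B0 q G).sub_mem (B0 q G).one_mem ha, ?_⟩, ?_⟩
    · rw [map_sub, map_one, ha0, sub_zero, norm_one]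
    · rw [sub_smul, one_smul, ← hx, sub_self]
  · rintro ⟨Z, ⟨hZ, hZ1⟩, hZx⟩
    set c := aug ℚ_[q] G Z with hc
    have hc0 : c ≠ 0 := by
      intro h0
      rw [h0, norm_zero] at hZ1
      exact zero_ne_one hZ1
    refine ⟨1 - single 1 c⁻¹ * Z, (B0 q G).sub_mem (B0 q G).one_mem
      ((B0 q G).mul_mem (single_mem_B0 1 c⁻¹ ?_) hZ), ?_, ?_⟩
    · rw [norm_inv, hZ1, inv_one]
    · rw [map_sub, map_one, map_mul, L3b_aug_single, ← hc, inv_mul_cancel₀ hc0, sub_self]
    · rw [sub_smul, one_smul, mul_smul, hZx, smul_zero, sub_zero]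

/-- PROOF. `x' = q⁻¹ Y x`, `Y = yel`. `(1 - e) Y = Y - q e = Y (1 - e)`, so `(1 - e) x' = q⁻¹ Y (1 - e) x` and `u' (1 - e) x' = q⁻¹ (1 - e) x`: this is in `NN x'`, since `1 - e` is in the
augmentation ideal of `B0`. `e x' = e x`. (1) For `a` in the augmentation ideal: `a x = a e x' + a q (q⁻¹ (1 - e) x)`. (2) `x' - x = (1 - e) x' - (1 - e) x`. -/
theorem step [Finite G] (g : G) (hg : (orderOf g).Coprime q) (x : U) :
    NN (q := q) (G := G) x ⊆ NN (q := q) (G := G) (qinv q G • yel ℚ_[q] q g • x) ∧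
      qinv q G • yel ℚ_[q] q g • x - x ∈ NN (q := q) (G := G) (qinv q G • yel ℚ_[q] q g • x) ∧
      qinv q G • (single g (1 : ℚ_[q]) - 1 : BQ q G) • x ∈
        NN (q := q) (G := G) (qinv q G • yel ℚ_[q] q g • x) := by
  obtain ⟨e, u', he, hu', hee, haug, hge, hye, hey, huy⟩ := exists_idem (q := q) g hg
  set Y := yel ℚ_[q] q g with hY
  set x' := qinv q G • Y • x with hx'
  have hqq : qinv q G * (q : BQ q G) = 1 := by
    have := qinv_mul (q := q) (G := G) 1
    rwa [mul_one] at this
  have hqq' : (q : BQ q G) * qinv q G = 1 := by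
    have := mul_qinv (q := q) (G := G) 1
    rwa [mul_one] at this
  have hq0 : (q : BQ q G) ∈ B0 q G := natCast_mem (B0 q G) q
  have h1e : 1 - e ∈ B0 q G := (B0 q G).sub_mem (B0 q G).one_mem he
  have haug1 : aug ℚ_[q] G (1 - e) = 0 := by rw [map_sub, map_one, haug, sub_self]
  have hcomm : (1 - e) * Y = Y * (1 - e) := by
    rw [sub_mul, mul_sub, one_mul, mul_one, hye, hey]
  -- `e x' = e x`
  have hex : e • x' = e • x := by
    rw [hx', ← mul_smul, ← mul_smul, ← qinv_comm, mul_assoc (qinv q G), hey,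
      ← mul_assoc, hqq, one_mul]
  -- `q⁻¹ (1 - e) x`
  have hu : (u' * (1 - e)) • x' = qinv q G • (1 - e) • x := by
    rw [hx', ← mul_smul, ← mul_smul, ← mul_smul]
    congr 1
    calc u' * (1 - e) * qinv q G * Y = u' * ((1 - e) * qinv q G * Y) := by
          simp only [mul_assoc]
      _ = u' * (qinv q G * (1 - e) * Y) := by rw [qinv_comm (1 - e)]
      _ = (u' * qinv q G) * ((1 - e) * Y) := by simp only [mul_assoc]
      _ = qinv q G * (u' * (Y * (1 - e))) := by rw [← qinv_comm u', hcomm, mul_assoc]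
      _ = qinv q G * (1 - e) := by rw [huy]
  have hN : qinv q G • (1 - e) • x ∈ NN (q := q) (G := G) x' :=
    ⟨u' * (1 - e), (B0 q G).mul_mem hu' h1e, by rw [map_mul, haug1, mul_zero], hu.symm⟩
  have hN2 : (1 - e) • x ∈ NN (q := q) (G := G) x' := by
    have h := NN_smul hq0 hN
    rwa [← mul_smul, hqq', one_smul] at h
  refine ⟨?_, ?_, ?_⟩
  · rintro y ⟨a, ha, ha0, rfl⟩
    have h1 : a • x = (a * e) • x' + a • ((1 - e) • x) := by
      rw [mul_smul, hex, ← smul_add, sub_smul, one_smul]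
      congr 1
      abel
    rw [h1]
    refine NN_add ⟨a * e, (B0 q G).mul_mem ha he, ?_, rfl⟩ (NN_smul ha hN2)
    rw [map_mul, ha0, zero_mul]
  · have h1 : x' - x = (1 - e) • x' + (-1 : BQ q G) • ((1 - e) • x) := by
      rw [sub_smul, sub_smul, one_smul, one_smul, hex, neg_one_smul]
      abel
    rw [h1]
    exact NN_add ⟨1 - e, h1e, haug1, rfl⟩
      (NN_smul ((B0 q G).neg_mem (B0 q G).one_mem) hN2)
  · have h1 : qinv q G • (single g (1 : ℚ_[q]) - 1 : BQ q G) • x =
        (single g (1 : ℚ_[q]) - 1 : BQ q G) • (qinv q G • (1 - e) • x) := by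
      have h2 : (single g (1 : ℚ_[q]) - 1 : BQ q G) * (1 - e) = single g (1 : ℚ_[q]) - 1 := by
        rw [mul_sub, mul_one, sub_mul, one_mul, hge, sub_self, sub_zero]
      rw [← mul_smul, ← mul_smul, ← mul_smul]
      congr 1
      rw [← qinv_comm, mul_assoc, h2]
    rw [h1]
    refine NN_smul ?_ hN
    exact (B0 q G).sub_mem (single_mem_B0 g 1 (by rw [norm_one])) (B0 q G).one_mem

end Pool.Agent.Lib.MP_7a2af1_al
end

section

/-!
# Strict growth
-/

set_option autoImplicit false

open MonoidAlgebra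

namespace Pool.Agent.Lib.MP_7a2af1_al

universe u w

variable {q : ℕ} [Fact q.Prime] {G : Type u} [Group G]
variable {U : Type w} [AddCommGroup U] [Module (BQ q G) U]

/-- PROOF. Suppose that for all `g` of order prime to `q` the vector `q⁻¹ (g - 1) x` is in `NN x`. The set of the `h` with `q⁻¹ (h - 1) x ∈ NN x` is a subgroup
(`h k - 1 = h (k - 1) + (h - 1)`, `h⁻¹ - 1 = - h⁻¹ (h - 1)`; `NN_add`, `NN_smul`), so it is `⊤` (`GenP`): (1) for every `h` there is `a_h ∈ B0` with `aug a_h = 0` and `(h - 1) x = q a_h x`. Every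
`a ∈ B0` with `aug a = 0` is `∑ h, a.coeff h • (h - 1)`, coefficients in `ℤ_q`. So with `N = NN x` (a finitely generated `ℤ_q`-module, spanned by the vectors `(h - 1) x`): `N ⊆ q N`, and Nakayama gives
`N = 0` (`Submodule.eq_bot_of_le_smul_of_le_jacobson_bot` with the ideal `(q)` of `ℤ_[q]`; the structure `Module ℤ_[q] U` is `Module.compHom U` of `algebraMap ∘ PadicInt.Coe.ringHom`. Another way: `x' := ` the
vector `((h - 1) x)_h` in `G → U` satisfies `(1 - q C) x' = 0` for a matrix `C` over `ℤ_q`, whose determinant is a unit). So `(h - 1) x = 0` for all `h` and `x = 0` by `NoInv`. -/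
theorem strict [Finite G] (hG : GenP G q) (hU : NoInv q G U) (x : U) (hx : x ≠ 0) :
    ∃ g : G, (orderOf g).Coprime q ∧
      qinv q G • (single g (1 : ℚ_[q]) - 1 : BQ q G) • x ∉ NN (q := q) (G := G) x := by
  classical
  have := Fintype.ofFinite G
  by_contra hcon
  push Not at hcon
  -- the subgroup
  let H : Subgroup G :=
    { carrier := {h | qinv q G • (single h (1 : ℚ_[q]) - 1 : BQ q G) • x ∈ NN (q := q) (G := G) x}
      one_mem' := by
        refine ⟨0, (B0 q G).zero_mem, map_zero _, ?_⟩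
        have : (single (1 : G) (1 : ℚ_[q]) - 1 : BQ q G) = 0 := by
          rw [← one_def, sub_self]
        rw [this, zero_smul, smul_zero]
      mul_mem' := by
        intro h k hh hk
        have e : (single (h * k) (1 : ℚ_[q]) - 1 : BQ q G) =
            single h 1 * (single k 1 - 1) + (single h 1 - 1) := by
          rw [mul_sub, single_mul_single, mul_one, mul_one]
          abel
        show qinv q G • (single (h * k) (1 : ℚ_[q]) - 1 : BQ q G) • x ∈ NN (q := q) (G := G) x
        rw [e, add_smul, smul_add, mul_smul, ← mul_smul (qinv q G), qinv_comm, mul_smul]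
        exact NN_add (NN_smul (single_mem_B0 h 1 (by simp)) hk) hh
      inv_mem' := by
        intro h hh
        have e : (single h⁻¹ (1 : ℚ_[q]) - 1 : BQ q G) =
            (-single h⁻¹ 1) * (single h 1 - 1) := by
          rw [neg_mul, mul_sub, single_mul_single, mul_one, mul_one, inv_mul_cancel, ← one_def]
          abel
        show qinv q G • (single h⁻¹ (1 : ℚ_[q]) - 1 : BQ q G) • x ∈ NN (q := q) (G := G) x
        rw [e, mul_smul, ← mul_smul (qinv q G), qinv_comm, mul_smul]
        exact NN_smul ((B0 q G).neg_mem (single_mem_B0 h⁻¹ 1 (by simp))) hh }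
  have hH : H = ⊤ := hG H hcon
  have hall : ∀ h : G, qinv q G • (single h (1 : ℚ_[q]) - 1 : BQ q G) • x ∈
      NN (q := q) (G := G) x := by
    intro h
    have : h ∈ H := by
      rw [hH]
      exact Subgroup.mem_top h
    exact this
  choose a haB ha0 hax using hall
  letI : Module ℚ_[q] U := Module.compHom U (algebraMap ℚ_[q] (BQ q G))
  have hsc : ∀ (c : ℚ_[q]) (u : U), c • u = (algebraMap ℚ_[q] (BQ q G) c) • u := fun _ _ => rfl
  let w : G → U := fun h => (single h (1 : ℚ_[q]) - 1 : BQ q G) • x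
  have hw : ∀ h, w h = (q : ℚ_[q]) • ∑ k, (a h).coeff k • w k := by
    intro h
    have h1 : (single h (1 : ℚ_[q]) - 1 : BQ q G) • x = (q : BQ q G) • a h • x := by
      rw [← hax h, ← mul_smul, ← mul_smul, mul_assoc, mul_qinv]
    have h2 : a h = ∑ k, algebraMap ℚ_[q] (BQ q G) ((a h).coeff k) * (single k 1 - 1) := by
      have h3 : ∑ k, (a h).coeff k = 0 := by
        rw [← aug_eq_sum]
        exact ha0 h
      have h4 : ∀ k, (algebraMap ℚ_[q] (BQ q G) ((a h).coeff k) * (single k 1 - 1) : BQ q G) =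
          single k ((a h).coeff k) - algebraMap ℚ_[q] (BQ q G) ((a h).coeff k) := by
        intro k
        rw [mul_sub, mul_one]
        congr 1
        simp
      rw [Finset.sum_congr rfl (fun k _ => h4 k), Finset.sum_sub_distrib, ← map_sum, h3, map_zero,
        sub_zero]
      exact eq_sum_single _ (a h)
    show (single h (1 : ℚ_[q]) - 1 : BQ q G) • x = _
    rw [h1, hsc, map_natCast]
    congr 1
    conv_lhs => rw [h2, Finset.sum_smul]
    apply Finset.sum_congr rfl
    intro k _
    rw [mul_smul]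
    rfl
  -- the matrix
  have hcoef : ∀ h k, ‖(a h).coeff k‖ ≤ 1 := fun h k => (mem_B0_iff _).1 (haB h) k
  let C0 : Matrix G G ℤ_[q] := fun h k => ⟨(a h).coeff k, hcoef h k⟩
  let M0 : Matrix G G ℤ_[q] := 1 - (q : ℤ_[q]) • C0
  have hdet0 : M0.det ≠ 0 := by
    intro h0
    have h1 : (PadicInt.toZMod (p := q)) M0.det = 0 := by rw [h0, map_zero]
    rw [RingHom.map_det] at h1
    have h2 : (PadicInt.toZMod (p := q)).mapMatrix M0 = 1 := by
      show (PadicInt.toZMod (p := q)).mapMatrix (1 - (q : ℤ_[q]) • C0) = 1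
      rw [map_sub, map_one]
      have h3 : (PadicInt.toZMod (p := q)).mapMatrix ((q : ℤ_[q]) • C0) = 0 := by
        ext i j
        simp [RingHom.mapMatrix_apply, Matrix.map_apply]
      rw [h3, sub_zero]
    rw [h2, Matrix.det_one] at h1
    have : Nontrivial (ZMod q) := ZMod.nontrivial_iff.2 (Fact.out : q.Prime).one_lt.ne'
    exact one_ne_zero h1
  let M : Matrix G G ℚ_[q] := (PadicInt.Coe.ringHom (p := q)).mapMatrix M0
  have hdet : M.det ≠ 0 := by
    show ((PadicInt.Coe.ringHom (p := q)).mapMatrix M0).det ≠ 0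
    rw [← RingHom.map_det]
    intro h0
    apply hdet0
    exact Subtype.coe_injective h0
  have hMw : ∀ f : Module.Dual ℚ_[q] U, Matrix.mulVec M (fun k => f (w k)) = 0 := by
    intro f
    ext h
    have hM : ∀ k, M h k = (if h = k then 1 else 0) - (q : ℚ_[q]) * (a h).coeff k := by
      intro k
      show (PadicInt.Coe.ringHom (p := q)) ((1 - (q : ℤ_[q]) • C0) h k) = _
      rw [Matrix.sub_apply, Matrix.smul_apply, map_sub, Matrix.one_apply, smul_eq_mul, map_mul,
        map_natCast]
      congr 1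
      split_ifs
      · exact map_one _
      · exact map_zero _
    rw [Matrix.mulVec, dotProduct, Pi.zero_apply]
    rw [Finset.sum_congr rfl (fun k _ => by rw [hM k, sub_mul])]
    rw [Finset.sum_sub_distrib]
    have h5 : f (w h) = (q : ℚ_[q]) * ∑ k, (a h).coeff k * f (w k) := by
      conv_lhs => rw [hw h]
      rw [map_smul, map_sum, smul_eq_mul]
      congr 1
      apply Finset.sum_congr rfl
      intro k _
      rw [map_smul, smul_eq_mul]
    simp only [ite_mul, one_mul, zero_mul, Finset.sum_ite_eq, Finset.mem_univ, if_true]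
    rw [h5, Finset.mul_sum, sub_eq_zero]
    apply Finset.sum_congr rfl
    intro k _
    ring
  have hw0 : ∀ h, w h = 0 := by
    intro h
    rw [← Module.forall_dual_apply_eq_zero_iff ℚ_[q]]
    intro f
    exact congrFun (Matrix.eq_zero_of_mulVec_eq_zero hdet (hMw f)) h
  apply hx
  apply hU
  intro g
  have := hw0 g
  have h6 : (single g (1 : ℚ_[q]) - 1 : BQ q G) • x = 0 := this
  rw [sub_smul, one_smul, sub_eq_zero] at h6
  exact h6

end Pool.Agent.Lib.MP_7a2af1_al
end

section

/-!
# One step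
-/
end

section

/-!
# Lemma L1: simple modules
-/

set_option autoImplicit false

open MonoidAlgebra

namespace Pool.Agent.Lib.MP_7a2af1_al

universe u w

variable {q : ℕ} [Fact q.Prime] {G : Type u} [Group G]
variable {U : Type w} [AddCommGroup U] [Module (BQ q G) U]

private noncomputable def L4c_x (q : ℕ) [Fact q.Prime] {G : Type u} [Group G]
    {U : Type w} [AddCommGroup U] [Module (BQ q G) U] (p : U) :
    List {g : G // (orderOf g).Coprime q} → U
  | [] => p
  | g :: l => qinv q G • yel ℚ_[q] q g.1 • L4c_x q p l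

private noncomputable def L4c_X (q : ℕ) [Fact q.Prime] {G : Type u} [Group G] :
    List {g : G // (orderOf g).Coprime q} → BQ q G
  | [] => 1
  | g :: l => yel ℚ_[q] q g.1 * L4c_X q l

private theorem L4c_X_mem (l : List {g : G // (orderOf g).Coprime q}) :
    L4c_X q l ∈ YY q G := by
  induction l with
  | nil => exact one_mem _
  | cons g l ih =>
    exact mul_mem (Submonoid.subset_closure ⟨g.1, g.2, rfl⟩) ih

private theorem L4c_X_smul (p : U) (l : List {g : G // (orderOf g).Coprime q}) :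
    L4c_X q l • p = (q : BQ q G) ^ l.length • L4c_x q p l := by
  induction l with
  | nil => simp [L4c_X, L4c_x]
  | cons g l ih =>
    have hc : Commute ((q : BQ q G) ^ l.length) (yel ℚ_[q] q g.1) :=
      (Nat.cast_commute q _).pow_left _
    show (yel ℚ_[q] q g.1 * L4c_X q l) • p
      = (q : BQ q G) ^ (l.length + 1) • (qinv q G • yel ℚ_[q] q g.1 • L4c_x q p l)
    rw [mul_smul, ih, ← mul_smul, ← hc.eq, smul_smul, smul_smul, pow_succ]
    rw [mul_assoc, ← mul_assoc _ (qinv q G), mul_assoc _ (qinv q G), mul_assoc,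
      mul_qinv]

private theorem L4c_zero_mem (x : U) : (0 : U) ∈ NN (q := q) (G := G) x :=
  ⟨0, zero_mem _, map_zero _, (zero_smul _ _).symm⟩

private theorem L4c_sub_mem [Finite G] (p : U) (l : List {g : G // (orderOf g).Coprime q}) :
    L4c_x q p l - p ∈ NN (q := q) (G := G) (L4c_x q p l) := by
  induction l with
  | nil =>
    show p - p ∈ NN (q := q) (G := G) p
    rw [sub_self]
    exact L4c_zero_mem (q := q) (G := G) p
  | cons g l ih =>
    obtain ⟨h1, h2, -⟩ := step (q := q) (G := G) g.1 g.2 (L4c_x q p l)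
    have h3 := NN_add (q := q) (G := G) h2 (h1 ih)
    have : qinv q G • yel ℚ_[q] q g.1 • L4c_x q p l - L4c_x q p l + (L4c_x q p l - p)
        = qinv q G • yel ℚ_[q] q g.1 • L4c_x q p l - p := by abel
    rw [this] at h3
    exact h3

/-- Lemma L1. -/
theorem lemma_L1 [Finite G] [IsSimpleModule (BQ q G) U] (hG : GenP G q) (hU : NoInv q G U) (p : U)
    (hp : p ≠ 0) : ∃ X ∈ YY q G, ∃ Z : BQ q G, Un Z ∧ Z • X • p = 0 := by
  by_cases h : ∃ l : List {g : G // (orderOf g).Coprime q}, L4c_x q p l ∈ NN (q := q) (G := G) (L4c_x q p l)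
  · obtain ⟨l, hl⟩ := h
    obtain ⟨Z, hZ, hz⟩ := (mem_NN_self_iff _).1 hl
    refine ⟨L4c_X q l, L4c_X_mem l, Z, hZ, ?_⟩
    have hc : Commute ((q : BQ q G) ^ l.length) Z := (Nat.cast_commute q _).pow_left _
    rw [L4c_X_smul, ← mul_smul, ← hc.eq, mul_smul, hz, smul_zero]
  · exfalso
    push Not at h
    obtain ⟨C, hC⟩ := uniform_bound (q := q) (G := G) p hp
    have hpn : ∀ l : List {g : G // (orderOf g).Coprime q}, p ∉ NN (q := q) (G := G) (L4c_x q p l) := by
      intro l hl
      apply h l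
      have := NN_add (L4c_sub_mem p l) hl
      rwa [sub_add_cancel] at this
    obtain ⟨l, hl⟩ := exists_maximal (q := q) (G := G) p C
      (fun l : List {g : G // (orderOf g).Coprime q} => NN (q := q) (G := G) (L4c_x q p l))
      (fun l y hy z hz => NN_add hy hz) (fun l a ha y hy => NN_smul ha hy)
      (fun l => L4c_zero_mem _) (by
        intro l y hy
        by_contra hcon
        obtain ⟨a, ha, hpa⟩ := hC y hcon
        have hm := NN_smul (q := q) (G := G) ha hy
        rw [← hpa] at hm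
        exact hpn l hm)
    have hx0 : L4c_x q p l ≠ 0 := by
      intro h0
      apply h l
      have := L4c_zero_mem (q := q) (G := G) (L4c_x q p l)
      rw [h0] at this ⊢
      exact this
    obtain ⟨g, hg, hgn⟩ := strict hG hU (L4c_x q p l) hx0
    obtain ⟨h1, -, h3⟩ := step g hg (L4c_x q p l)
    exact hgn (hl (⟨g, hg⟩ :: l) h1 h3)

end Pool.Agent.Lib.MP_7a2af1_al
end
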