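import Pool.Agent.Lib.MP_7a2af1_al.Mg.G001
import Pool.Agent.Lib.MP_7a2af1_al.ML.A7a

section

/-!
# Permutations with a fixed point; a full cycle
-/

set_option autoImplicit false

namespace Pool.Agent.Lib.MP_7a2af1_al

universe u v

/-- PROOF: `σ⁻¹ * τ` fixes `ω`, so it is `Equiv.Perm.ofSubtype` of its restriction to the other points
(`Equiv.Perm.ofSubtype_subtypePerm`); `Equiv.Perm.ofSubtype_apply_of_not_mem`. -/
theorem perm_coset {Ω : Type v} [DecidableEq Ω] (ω : Ω) (σ τ : Equiv.Perm Ω) :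
    σ ω = τ ω ↔ ∃ d : Equiv.Perm {x : Ω // x ≠ ω}, τ = σ * Equiv.Perm.ofSubtype d := by
  constructor
  · intro h
    have h0 : (σ⁻¹ * τ) ω = ω := by
      rw [Equiv.Perm.mul_apply, ← h]
      exact σ.symm_apply_apply ω
    have h1 : ∀ x : Ω, x ≠ ω ↔ (σ⁻¹ * τ) x ≠ ω := by
      intro x
      constructor
      · intro hx hx'
        apply hx
        apply (σ⁻¹ * τ).injective
        rw [hx', h0]
      · intro hx hx'
        apply hx
        rw [hx', h0]
    refine ⟨(σ⁻¹ * τ).subtypePerm (fun x => (h1 x).symm), ?_⟩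
    rw [Equiv.Perm.ofSubtype_subtypePerm]
    · rw [mul_inv_cancel_left]
    · intro x hx hx'
      apply hx
      rw [hx', h0]
  · rintro ⟨d, rfl⟩
    rw [Equiv.Perm.mul_apply, Equiv.Perm.ofSubtype_apply_of_not_mem]
    intro h
    exact h rfl

/-- PROOF: `c i = i + 1` (e.g. `Equiv.addRight 1` for the additive group `Fin (m + 1)`, `n = m + 1`): `(c ^ t) s = s + t`
(induction on `t`), and `t ↦ s + t` is bijective. -/
theorem exists_cycle (n : ℕ) (hn : 1 ≤ n) :
    ∃ c : Equiv.Perm (Fin n), ∀ s : Fin n, Function.Bijective fun t : Fin n => (c ^ (t : ℕ)) s := by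
  obtain ⟨m, rfl⟩ : ∃ m, n = m + 1 := ⟨n - 1, by omega⟩
  have h1 : ∀ (t : ℕ) (s : Fin (m + 1)),
      (((Equiv.addRight (1 : Fin (m + 1))) ^ t : Equiv.Perm (Fin (m + 1))) s).val =
        (s.val + t) % (m + 1) := by
    intro t
    induction t with
    | zero =>
      intro s
      rw [pow_zero, Equiv.Perm.one_apply]
      exact (Nat.mod_eq_of_lt s.isLt).symm
    | succ t ih =>
      intro s
      rw [pow_succ', Equiv.Perm.mul_apply, Equiv.coe_addRight, Fin.val_add, ih s,
        Fin.val_one', ← Nat.add_mod, Nat.add_assoc]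
  refine ⟨Equiv.addRight (1 : Fin (m + 1)), fun s => ?_⟩
  apply Finite.injective_iff_bijective.1
  intro t t' h
  have h2 := congrArg Fin.val h
  have h3 : (s.val + t.val) % (m + 1) = (s.val + t'.val) % (m + 1) := by
    rw [← h1, ← h1]
    exact h2
  have h4 : t.val ≡ t'.val [MOD (m + 1)] := Nat.ModEq.add_left_cancel' s.val h3
  exact Fin.ext (Nat.ModEq.eq_of_lt_of_lt h4 t.isLt t'.isLt)

end Pool.Agent.Lib.MP_7a2af1_al
end

section

/-!
# Symmetric groups
-/

set_option autoImplicit false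

namespace Pool.Agent.Lib.MP_7a2af1_al

universe u v

/-- PROOF: `hasP_of_transversal` with `Γ = G × Equiv.Perm (Fin (n + 1))`, `Ω = Fin (n + 1)`, `π (g, σ) = σ 0`,
`Δ = G × Equiv.Perm {x : Fin (n + 1) // x ≠ 0}`, `j (g, d) = (g, Equiv.Perm.ofSubtype d)` (`MonoidHom.prodMap`), `hπ` from `perm_coset`, and `L` = the blocks of
`exists_cyclic` for the element `(1, c)` of `Γ` and `n + 1`, `c` from `exists_cycle`. `HasP Δ` by `HasP.congr` from `h`: the set `{x // x ≠ 0}` has `n` elements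
(`Fintype.equivFinOfCardEq`, `Equiv.permCongrHom`/`Equiv.Perm.permCongrHom`/`MulEquiv.prodCongr`). -/
theorem hasP_step (G : Type u) [Group G] (n : ℕ) (h : HasP (G × Equiv.Perm (Fin n))) :
    HasP (G × Equiv.Perm (Fin (n + 1))) := by
  classical
  have hcard : Fintype.card {x : Fin (n + 1) // x ≠ 0} = n := by simp
  have hΔ : HasP (G × Equiv.Perm {x : Fin (n + 1) // x ≠ 0}) :=
    HasP.congr (MulEquiv.prodCongr (MulEquiv.refl G)
      (Fintype.equivFinOfCardEq hcard).symm.permCongrHom) h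
  obtain ⟨c, hc⟩ := exists_cycle (n + 1) (by omega)
  obtain ⟨L, hL, e, he⟩ :=
    exists_cyclic (((1 : G), c) : G × Equiv.Perm (Fin (n + 1))) (n + 1) (by omega)
  refine hasP_of_transversal
    (MonoidHom.prodMap (MonoidHom.id G)
      (Equiv.Perm.ofSubtype : Equiv.Perm {x : Fin (n + 1) // x ≠ 0} →* Equiv.Perm (Fin (n + 1))))
    ?_ (fun g => g.2 0) ?_ L hL ?_ hΔ
  · rintro ⟨a, d⟩ ⟨a', d'⟩ hh
    have hh' : ((a, (Equiv.Perm.ofSubtype d : Equiv.Perm (Fin (n + 1)))) :
        G × Equiv.Perm (Fin (n + 1))) = (a', Equiv.Perm.ofSubtype d') := hh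
    rw [Prod.mk.injEq] at hh'
    exact Prod.ext hh'.1 (Equiv.Perm.ofSubtype_injective hh'.2)
  · rintro ⟨a, σ⟩ ⟨b, τ⟩
    constructor
    · intro hab
      obtain ⟨d, hd⟩ := (perm_coset (0 : Fin (n + 1)) σ τ).1 hab
      exact ⟨(a⁻¹ * b, d), Prod.ext (by simp) hd⟩
    · rintro ⟨⟨x, d⟩, hd⟩
      exact (perm_coset (0 : Fin (n + 1)) σ τ).2 ⟨d, congrArg Prod.snd hd⟩
  · have hfun : (fun x => (ev L x).2 0) = (fun t : Fin (n + 1) => (c ^ (t : ℕ)) 0) ∘ e := by
      funext x
      simp [he]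
    rw [hfun]
    exact (hc 0).comp e.bijective

/-- PROOF: induction on `n`: `hasP_step` for `G = PUnit` (or `Unit`) and `HasP.congr` (`MulEquiv` between `PUnit × H` and `H`: `MulEquiv.punitProd`/`uniqueProd`).
`n = 0`: no blocks (`Equiv.Perm (Fin 0)` is a subsingleton). -/
theorem hasP_perm (n : ℕ) : HasP (Equiv.Perm (Fin n)) := by
  induction n with
  | zero =>
    refine ⟨[], (fun B hB => absurd hB (List.not_mem_nil)), ?_, ?_⟩
    · intro x y _
      exact Subsingleton.elim (α := Unit) x y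
    · intro g
      exact ⟨(() : Unit), Subsingleton.elim _ _⟩
  | succ n ih =>
    exact HasP.congr MulEquiv.uniqueProd
      (hasP_step PUnit.{1} n (HasP.congr MulEquiv.uniqueProd.symm ih))

/-- PROOF: `Finite.equivFin`, `HasP.congr`, `hasP_perm`. -/
theorem hasP_perm' (Ω : Type v) [Finite Ω] : HasP (Equiv.Perm Ω) :=
  HasP.congr (Finite.equivFin Ω).symm.permCongrHom (hasP_perm (Nat.card Ω))

end Pool.Agent.Lib.MP_7a2af1_al
end

section

/-!
# Realisation of an injective family of points by permutations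
-/

set_option autoImplicit false

namespace Pool.Agent.Lib.MP_7a2af1_al

universe u v w

/-- PROOF: the bijection `range a → range b` extends to a permutation (`Equiv.extendSubtype`, or
`Function.Embedding.exists_equiv_extend..`; `Ω` is finite, the complements have the same cardinality). -/
theorem exists_perm_extend {I : Type w} {Ω : Type v} [Finite Ω] (a b : I → Ω)
    (ha : Function.Injective a) (hb : Function.Injective b) :
    ∃ σ : Equiv.Perm Ω, ∀ i, σ (a i) = b i := by
  classical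
  haveI : Fintype Ω := Fintype.ofFinite Ω
  let e : {x : Ω // x ∈ Set.range a} ≃ {x : Ω // x ∈ Set.range b} :=
    (Equiv.ofInjective a ha).symm.trans (Equiv.ofInjective b hb)
  refine ⟨e.extendSubtype, fun i => ?_⟩
  have hmem : a i ∈ Set.range a := ⟨i, rfl⟩
  rw [Equiv.extendSubtype_apply_of_mem e (a i) hmem]
  have h1 : (Equiv.ofInjective a ha).symm ⟨a i, hmem⟩ = i := by
    rw [Equiv.symm_apply_eq]
    rfl
  have h2 : e ⟨a i, hmem⟩ = Equiv.ofInjective b hb i := by
    change Equiv.ofInjective b hb ((Equiv.ofInjective a ha).symm ⟨a i, hmem⟩) = _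
    rw [h1]
  rw [h2]
  rfl

/-- PROOF: induction on `L`. `[]`: `Idx L` has one element `()`; `ev [] = 1` would give `x () = ω`: this is not assumed, so the
statement has the extra permutation `ρ`. (Let `ρ` be a permutation with `ρ ω = x ()`.)
`B :: L`: let `x' y = x (i₀, y)` for some `i₀ : Fin B.p` (if `B.p = 0` the index types are empty; take any blocks of the same
lengths), `L'` from the induction hypothesis for `x'`, with `ρ'`. For `i : Fin B.p` let `s i` be a permutation with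
`s i (x' y) = x (i, y)` (`exists_perm_extend`). The first block is `i ↦ (B.f i, s i)`, and `ρ = ρ'`. -/
theorem exists_perm_blocks {G : Type u} {Ω : Type v} [Group G] [Finite Ω] (ω : Ω) (L : List (Blk G))
    (x : Idx L → Ω) (hx : Function.Injective x) :
    ∃ (L' : List (Blk (G × Equiv.Perm Ω))) (ρ : Equiv.Perm Ω), (PrimeBlks L → PrimeBlks L') ∧
      ∃ e : Idx L' ≃ Idx L, ∀ y, (ev L' y).1 = ev L (e y) ∧ (ev L' y).2 (ρ ω) = x (e y) := by
  classical
  induction L with
  | nil =>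
    refine ⟨[], Equiv.swap ω (x ()), fun _ B hB => ?_, Equiv.refl Unit, fun y => ⟨rfl, ?_⟩⟩
    · simp at hB
    · change Equiv.swap ω (x ()) ω = x y
      rw [Equiv.swap_apply_left]
      rfl
  | cons B L ih =>
    rcases Nat.eq_zero_or_pos B.p with hp | hp
    · haveI h1 : IsEmpty (Fin B.p) := by
        rw [hp]
        infer_instance
      haveI h2 : IsEmpty (Idx (B :: L)) := inferInstanceAs (IsEmpty (Fin B.p × Idx L))
      haveI h3 : IsEmpty (Idx ([⟨0, Fin.elim0⟩] : List (Blk (G × Equiv.Perm Ω)))) :=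
        inferInstanceAs (IsEmpty (Fin 0 × Unit))
      refine ⟨[⟨0, Fin.elim0⟩], 1, fun h => ?_, Equiv.equivOfIsEmpty _ _, fun y => ?_⟩
      · exfalso
        have := h B (by simp)
        rw [hp] at this
        exact Nat.not_prime_zero this
      · exact h3.elim y
    · have hx' : Function.Injective (fun y : Idx L => x ((⟨0, hp⟩ : Fin B.p), y)) := by
        intro y z hyz
        have := hx hyz
        exact (Prod.ext_iff.1 this).2
      obtain ⟨L', ρ', hP, e, he⟩ := ih _ hx'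
      have hs : ∀ i : Fin B.p, ∃ σ : Equiv.Perm Ω,
          ∀ y : Idx L, σ (x ((⟨0, hp⟩ : Fin B.p), y)) = x (i, y) := by
        intro i
        refine exists_perm_extend _ (fun y : Idx L => x (i, y)) hx' ?_
        intro y z hyz
        have := hx hyz
        exact (Prod.ext_iff.1 this).2
      choose s hs using hs
      refine ⟨⟨B.p, fun i => (B.f i, s i)⟩ :: L', ρ', fun h C hC => ?_,
        (Equiv.prodCongr (Equiv.refl (Fin B.p)) e : Fin B.p × Idx L' ≃ Fin B.p × Idx L), ?_⟩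
      · rcases List.mem_cons.1 hC with hC | hC
        · rw [hC]
          exact h B (by simp)
        · exact hP (fun D hD => h D (List.mem_cons_of_mem _ hD)) C hC
      · rintro ⟨i, y⟩
        obtain ⟨he1, he2⟩ := he y
        constructor
        · change B.f i * (ev L' y).1 = B.f i * ev L (e y)
          rw [he1]
        · change s i ((ev L' y).2 (ρ' ω)) = x (i, e y)
          rw [he2]
          exact hs i (e y)

end Pool.Agent.Lib.MP_7a2af1_al
end

section

/-!
# From property U to signatures of `G × Sₙ`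
-/

set_option autoImplicit false

namespace Pool.Agent.Lib.MP_7a2af1_al

universe u v

/-- PROOF. `L`, `μ` from `HasU G`, `J = Idx L`, `P = Nat.card J ≥ 1` (`card_Idx`, primes), `cl` from `exists_numbering`, a bijection
`r : J ≃ Fin P`, `Ω = Fin μ × Fin P`, `x j = (cl j, r j)` (injective), `c₀` from `exists_cycle P`, `c = (a, s) ↦ (a, c₀ s)`.
Inner blocks `L'`, `ρ` from `exists_perm_blocks` (any `ω`), `ω' = ρ ω`. Outer blocks `L₁` from `exists_cyclic` for the element `(1, c)`
of `G × Equiv.Perm Ω` and `n = P`. `hasP_of_transversal` with `L₁ ++ L'`, `π (g, σ) = (g, σ ω')`,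
`Δ = Equiv.Perm {x // x ≠ ω'}`, `j d = (1, Equiv.Perm.ofSubtype d)` (`perm_coset`), `hasP_perm'`:
`π (ev ..) = (f j, (cl j, (c₀ ^ t) (r j)))` is a bijection `Fin P × J → G × Ω`: for `(g, (a, s))` there is one `j` with
`(f j, cl j) = (g, a)`, then one `t`. Finally `Equiv.Perm Ω ≃* Equiv.Perm (Fin n)`, `n = μ P`, `HasP.congr`. -/
theorem hasP_of_hasU (G : Type u) [Group G] [Finite G] (h : HasU G) :
    ∃ n : ℕ, HasP (G × Equiv.Perm (Fin n)) := by
  classical
  obtain ⟨L, hL, μ, hμ, hU⟩ := h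
  have hne : Nonempty (Idx L) := by
    by_contra hcon
    rw [not_nonempty_iff] at hcon
    have h1 := hU 1
    rw [Nat.card_of_isEmpty] at h1
    omega
  have hP : 1 ≤ Nat.card (Idx L) := Nat.card_pos
  obtain ⟨cl, hcl⟩ := exists_numbering (ev L) μ hU
  obtain ⟨P, hP, ⟨r⟩⟩ : ∃ P : ℕ, 1 ≤ P ∧ Nonempty (Idx L ≃ Fin P) :=
    ⟨Nat.card (Idx L), hP, ⟨Finite.equivFin (Idx L)⟩⟩
  obtain ⟨c0, hc0⟩ := exists_cycle P hP
  let x : Idx L → Fin μ × Fin P := fun j => (cl j, r j)
  have hx : Function.Injective x := by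
    intro a b hab
    exact r.injective (Prod.ext_iff.1 hab).2
  let c : Equiv.Perm (Fin μ × Fin P) := Equiv.prodCongr (Equiv.refl (Fin μ)) c0
  have hc : ∀ (t : ℕ) (a : Fin μ) (s : Fin P), (c ^ t) (a, s) = (a, (c0 ^ t) s) := by
    intro t
    induction t with
    | zero => intro a s; rfl
    | succ t ih =>
      intro a s
      rw [pow_succ, pow_succ, Equiv.Perm.mul_apply, Equiv.Perm.mul_apply]
      show (c ^ t) (a, c0 s) = _
      rw [ih]
  let ω : Fin μ × Fin P := (⟨0, hμ⟩, ⟨0, hP⟩)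
  obtain ⟨L', ρ, hL', e', he'⟩ := exists_perm_blocks ω L x hx
  obtain ⟨L1, hL1, e1, he1⟩ := exists_cyclic (((1 : G), c) : G × Equiv.Perm (Fin μ × Fin P)) P hP
  obtain ⟨ea, hea⟩ := exists_append L1 L'
  let j : Equiv.Perm {y : Fin μ × Fin P // y ≠ ρ ω} →* G × Equiv.Perm (Fin μ × Fin P) :=
    (MonoidHom.inr G (Equiv.Perm (Fin μ × Fin P))).comp Equiv.Perm.ofSubtype
  have hjv : ∀ d, j d = ((1 : G), Equiv.Perm.ofSubtype d) := fun d => rfl
  have hj : Function.Injective j := by
    intro a b hab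
    rw [hjv, hjv] at hab
    exact Equiv.Perm.ofSubtype_injective (Prod.ext_iff.1 hab).2
  let π : G × Equiv.Perm (Fin μ × Fin P) → G × (Fin μ × Fin P) := fun a => (a.1, a.2 (ρ ω))
  have hπ : ∀ a b, π a = π b ↔ ∃ d, b = a * j d := by
    intro a b
    constructor
    · intro hab
      have h1 : a.1 = b.1 := (Prod.ext_iff.1 hab).1
      have h2 : a.2 (ρ ω) = b.2 (ρ ω) := (Prod.ext_iff.1 hab).2
      obtain ⟨d, hd⟩ := (perm_coset (ρ ω) a.2 b.2).1 h2
      refine ⟨d, ?_⟩
      rw [hjv]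
      refine Prod.ext ?_ ?_
      · rw [Prod.fst_mul, mul_one, h1]
      · rw [Prod.snd_mul, hd]
    · rintro ⟨d, hd⟩
      rw [hjv] at hd
      have h1 : b.1 = a.1 := by rw [hd, Prod.fst_mul, mul_one]
      have h2 : b.2 = a.2 * Equiv.Perm.ofSubtype d := by rw [hd, Prod.snd_mul]
      refine Prod.ext h1.symm ?_
      exact (perm_coset (ρ ω) a.2 b.2).2 ⟨d, h2⟩
  let Φ : Fin P × Idx L → G × (Fin μ × Fin P) := fun y =>
    (ev L y.2, (cl y.2, (c0 ^ (y.1 : ℕ)) (r y.2)))
  have hΦ : Function.Bijective Φ := by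
    constructor
    · rintro ⟨t, i⟩ ⟨t', i'⟩ hy
      have h1 : ev L i = ev L i' := (Prod.ext_iff.1 hy).1
      have h2 := (Prod.ext_iff.1 hy).2
      have h3 : cl i = cl i' := (Prod.ext_iff.1 h2).1
      have h4 : (c0 ^ (t : ℕ)) (r i) = (c0 ^ (t' : ℕ)) (r i') := (Prod.ext_iff.1 h2).2
      have h5 : i = i' := hcl.1 (Prod.ext h1 h3)
      subst h5
      have h6 : t = t' := (hc0 (r i)).1 h4
      rw [h6]
    · rintro ⟨g, a, s⟩
      obtain ⟨i, hi⟩ := hcl.2 (g, a)
      have h1 : ev L i = g := (Prod.ext_iff.1 hi).1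
      have h2 : cl i = a := (Prod.ext_iff.1 hi).2
      obtain ⟨t, ht⟩ := (hc0 (r i)).2 s
      refine ⟨(t, i), ?_⟩
      exact Prod.ext h1 (Prod.ext h2 ht)
  have hb : Function.Bijective fun y => π (ev (L1 ++ L') y) := by
    have h1 : (fun y => π (ev (L1 ++ L') y)) = Φ ∘ (ea.trans (Equiv.prodCongr e1 e')) := by
      funext y
      rw [hea y, he1]
      have h2 := he' (ea y).2
      show ((((1 : G), c) ^ (e1 (ea y).1 : ℕ) * ev L' (ea y).2 : G × Equiv.Perm (Fin μ × Fin P)).1,
        (((1 : G), c) ^ (e1 (ea y).1 : ℕ) * ev L' (ea y).2 : G × Equiv.Perm (Fin μ × Fin P)).2 (ρ ω)) =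
        (ev L (e' (ea y).2), (cl (e' (ea y).2), (c0 ^ (e1 (ea y).1 : ℕ)) (r (e' (ea y).2))))
      rw [Prod.pow_mk, Prod.fst_mul, Prod.snd_mul, one_pow, one_mul, h2.1, Equiv.Perm.mul_apply, h2.2]
      refine Prod.ext rfl ?_
      exact hc _ _ _
    rw [h1]
    exact hΦ.comp (Equiv.bijective _)
  have hPP : HasP (G × Equiv.Perm (Fin μ × Fin P)) :=
    hasP_of_transversal j hj π hπ (L1 ++ L') (hL1.append (hL' hL)) hb (hasP_perm' _)
  exact ⟨μ * P, hPP.congr
    (MulEquiv.prodCongr (MulEquiv.refl G) (Equiv.permCongrHom finProdFinEquiv))⟩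

/-- PROOF: `hasP_of_hasU`, `hasP_step` (`Nat.le_induction`), `HasP.hasMLS`. -/
theorem hasMLS_of_hasU (G : Type u) [Group G] [Finite G] (h : HasU G) :
    ∃ n₀ : ℕ, ∀ n, n₀ ≤ n → HasMLS (G × Equiv.Perm (Fin n)) := by
  obtain ⟨n₀, h0⟩ := hasP_of_hasU G h
  refine ⟨n₀, fun n hn => HasP.hasMLS ?_⟩
  induction n, hn using Nat.le_induction with
  | base => exact h0
  | succ n _ ih => exact hasP_step G n ih

end Pool.Agent.Lib.MP_7a2af1_al
end

section

/-!
# The stabiliser of a point in the alternating group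
-/

set_option autoImplicit false

namespace Pool.Agent.Lib.MP_7a2af1_al

universe u v

/-- The alternating group of the points different from `ω`, as a subgroup of the alternating group (complete definition). -/
def altIncl {Ω : Type v} [DecidableEq Ω] [Fintype Ω] (ω : Ω) :
    alternatingGroup {x : Ω // x ≠ ω} →* alternatingGroup Ω :=
  ((Equiv.Perm.ofSubtype (p := fun x : Ω => x ≠ ω)).comp (alternatingGroup {x : Ω // x ≠ ω}).subtype).codRestrict
    (alternatingGroup Ω) (by
      intro x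
      have := x.2
      rw [Equiv.Perm.mem_alternatingGroup] at this ⊢
      simpa [Equiv.Perm.sign_ofSubtype] using this)

/-- PROOF: `Equiv.Perm.ofSubtype` is injective (`Equiv.Perm.ofSubtype_injective`). -/
theorem altIncl_injective {Ω : Type v} [DecidableEq Ω] [Fintype Ω] (ω : Ω) :
    Function.Injective (altIncl ω) := by
  intro x y h
  have h1 := congrArg (fun z : alternatingGroup Ω => (z : Equiv.Perm Ω)) h
  exact Subtype.ext (Equiv.Perm.ofSubtype_injective h1)

/-- PROOF: as for `perm_coset` (file `A5a`): the restriction of `σ⁻¹ * τ` to the points `≠ ω`, and its sign is `1` (`Equiv.Perm.sign_ofSubtype`). -/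
theorem alt_coset {Ω : Type v} [DecidableEq Ω] [Fintype Ω] (ω : Ω) (σ τ : alternatingGroup Ω) :
    (σ : Equiv.Perm Ω) ω = (τ : Equiv.Perm Ω) ω ↔ ∃ d, τ = σ * altIncl ω d := by
  rw [perm_coset]
  constructor
  · rintro ⟨d, hd⟩
    have hd1 : d ∈ alternatingGroup {x : Ω // x ≠ ω} := by
      rw [Equiv.Perm.mem_alternatingGroup]
      have h1 : Equiv.Perm.sign (τ : Equiv.Perm Ω) = 1 := Equiv.Perm.mem_alternatingGroup.1 τ.2
      have h2 : Equiv.Perm.sign (σ : Equiv.Perm Ω) = 1 := Equiv.Perm.mem_alternatingGroup.1 σ.2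
      rw [hd, Equiv.Perm.sign_mul, h2, one_mul, Equiv.Perm.sign_ofSubtype] at h1
      exact h1
    refine ⟨⟨d, hd1⟩, Subtype.ext ?_⟩
    rw [hd]
    rfl
  · rintro ⟨d, hd⟩
    refine ⟨(d : Equiv.Perm {x : Ω // x ≠ ω}), ?_⟩
    rw [hd]
    rfl

end Pool.Agent.Lib.MP_7a2af1_al
end

section

/-!
# Realisation of an injective family of points by even permutations
-/

set_option autoImplicit false

namespace Pool.Agent.Lib.MP_7a2af1_al

universe u v w

/-- PROOF: `exists_perm_extend` (file `A6`); if the permutation `σ` is odd take `Equiv.swap ω₁ ω₂ * σ`. -/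
theorem exists_alt_extend {I : Type w} {Ω : Type v} [DecidableEq Ω] [Fintype Ω] (a b : I → Ω)
    (ha : Function.Injective a) (hb : Function.Injective b) (ω₁ ω₂ : Ω) (hne : ω₁ ≠ ω₂)
    (h₁ : ∀ i, b i ≠ ω₁) (h₂ : ∀ i, b i ≠ ω₂) :
    ∃ σ : alternatingGroup Ω, ∀ i, (σ : Equiv.Perm Ω) (a i) = b i := by
  obtain ⟨σ, hσ⟩ := exists_perm_extend a b ha hb
  rcases Int.units_eq_one_or (Equiv.Perm.sign σ) with h | h
  · exact ⟨⟨σ, Equiv.Perm.mem_alternatingGroup.2 h⟩, hσ⟩
  · refine ⟨⟨Equiv.swap ω₁ ω₂ * σ, Equiv.Perm.mem_alternatingGroup.2 ?_⟩, fun i => ?_⟩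
    · rw [Equiv.Perm.sign_mul, h, Equiv.Perm.sign_swap hne]
      simp
    · show (Equiv.swap ω₁ ω₂ * σ) (a i) = b i
      rw [Equiv.Perm.mul_apply, hσ]
      exact Equiv.swap_apply_of_ne_of_ne (h₁ i) (h₂ i)

/-- PROOF: exactly as `exists_perm_blocks` (file `A6`), induction on `L`, with `exists_alt_extend` in place of `exists_perm_extend`: in the step
`B :: L` with `p = B.p ≥ 2` the family `y ↦ x (i, y)` has `m = Nat.card (Idx L)` points and `p m ≤ Nat.card Ω` (since `x` is injective on `Fin p × Idx L`), so at least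
`Nat.card Ω - m ≥ Nat.card Ω / 2 ≥ 2` points are outside. -/
theorem exists_alt_blocks {G : Type u} {Ω : Type v} [Group G] [DecidableEq Ω] [Fintype Ω]
    (h4 : 4 ≤ Nat.card Ω) (ω : Ω) (L : List (Blk G)) (hL : PrimeBlks L)
    (x : Idx L → Ω) (hx : Function.Injective x) :
    ∃ (L' : List (Blk (G × alternatingGroup Ω))) (ω' : Ω), PrimeBlks L' ∧
      ∃ e : Idx L' ≃ Idx L, ∀ y, (ev L' y).1 = ev L (e y) ∧
        ((ev L' y).2 : Equiv.Perm Ω) ω' = x (e y) := by
  induction L with
  | nil =>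
    refine ⟨[], x (), ?_, Equiv.refl Unit, ?_⟩
    · intro B hB
      exact absurd hB List.not_mem_nil
    · intro y
      exact ⟨rfl, rfl⟩
  | cons B L ih =>
    have hp : B.p.Prime := hL B List.mem_cons_self
    have hL1 : PrimeBlks L := fun C hC => hL C (List.mem_cons_of_mem _ hC)
    have hx2 : ∀ (i j : Fin B.p) (y z : Idx L), x (i, y) = x (j, z) → i = j ∧ y = z := by
      intro i j y z h
      exact Prod.mk.inj (hx h)
    obtain ⟨i₀⟩ : Nonempty (Fin B.p) := ⟨⟨0, hp.pos⟩⟩
    obtain ⟨L', ω', hL', e, he⟩ := ih hL1 (fun y => x (i₀, y)) (fun y z h => (hx2 _ _ _ _ h).2)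
    -- two points outside
    have hcard : B.p * Nat.card (Idx L) ≤ Nat.card Ω := by
      have h1 := Nat.card_le_card_of_injective x hx
      have h2 : Nat.card (Idx (B :: L)) = Nat.card (Fin B.p × Idx L) := rfl
      rw [h2, Nat.card_prod, Nat.card_fin] at h1
      exact h1
    have hout : ∀ i : Fin B.p, ∃ ω₁ ω₂ : Ω, ω₁ ≠ ω₂ ∧ (∀ y, x (i, y) ≠ ω₁) ∧
        ∀ y, x (i, y) ≠ ω₂ := by
      intro i
      have hfin : Finite (Idx L) := inferInstance
      have hft : Fintype (Idx L) := Fintype.ofFinite _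
      obtain ⟨S, hS⟩ : ∃ S : Finset Ω, S = Finset.univ.image fun y : Idx L => x (i, y) := ⟨_, rfl⟩
      have h1 : S.card ≤ Nat.card (Idx L) := by
        rw [hS, Nat.card_eq_fintype_card]
        exact Finset.card_image_le
      have h2 : Sᶜ.card = Nat.card Ω - S.card := by
        rw [Finset.card_compl, Nat.card_eq_fintype_card]
      have h3 : 2 * Nat.card (Idx L) ≤ Nat.card Ω :=
        (Nat.mul_le_mul_right _ hp.two_le).trans hcard
      have h4' : 1 < Sᶜ.card := by omega
      obtain ⟨ω₁, hω₁, ω₂, hω₂, hne⟩ := Finset.one_lt_card.1 h4'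
      refine ⟨ω₁, ω₂, hne, fun y hy => ?_, fun y hy => ?_⟩
      · rw [Finset.mem_compl] at hω₁
        apply hω₁
        rw [hS, Finset.mem_image]
        exact ⟨y, Finset.mem_univ _, hy⟩
      · rw [Finset.mem_compl] at hω₂
        apply hω₂
        rw [hS, Finset.mem_image]
        exact ⟨y, Finset.mem_univ _, hy⟩
    have hσ : ∀ i : Fin B.p, ∃ σ : alternatingGroup Ω,
        ∀ y, (σ : Equiv.Perm Ω) (x (i₀, y)) = x (i, y) := by
      intro i
      obtain ⟨ω₁, ω₂, hne, h1, h2⟩ := hout i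
      exact exists_alt_extend (fun y => x (i₀, y)) (fun y => x (i, y))
        (fun y z h => (hx2 _ _ _ _ h).2) (fun y z h => (hx2 _ _ _ _ h).2) ω₁ ω₂ hne h1 h2
    choose σ hσ using hσ
    refine ⟨⟨B.p, fun i => (B.f i, σ i)⟩ :: L', ω', ?_, Equiv.prodCongr (Equiv.refl _) e, ?_⟩
    · intro C hC
      rcases List.mem_cons.1 hC with h | h
      · rw [h]
        exact hp
      · exact hL' C h
    · rintro ⟨i, z⟩
      obtain ⟨h1, h2⟩ := he z
      constructor
      · show B.f i * (ev L' z).1 = B.f i * ev L (e z)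
        rw [h1]
      · show ((σ i * (ev L' z).2 : alternatingGroup Ω) : Equiv.Perm Ω) ω' = x (i, e z)
        rw [Subgroup.coe_mul, Equiv.Perm.mul_apply, h2]
        exact hσ i (e z)

end Pool.Agent.Lib.MP_7a2af1_al
end

section

/-!
# Alternating groups
-/

set_option autoImplicit false

namespace Pool.Agent.Lib.MP_7a2af1_al

universe u v

/-- PROOF. For the points of `Fin (n + 1)`, `n + 1 ≥ 4`: let `L` be a list of blocks of `G` with all elements `1`, prime lengths and `Idx L ≃ Fin (n + 1)` (`exists_cyclic` for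
`c = 1`: `ev L x = 1 ^ _ = 1`), `x` this bijection. `exists_alt_blocks` gives `L'`, `ω'`. `hasP_of_transversal` with `Γ = G × alternatingGroup (Fin (n + 1))`, `Ω = Fin (n + 1)`,
`π (g, σ) = σ ω'`, `Δ = G × alternatingGroup {x // x ≠ ω'}`, `j (g, d) = (g, altIncl ω' d)`, `alt_coset`. `HasP Δ` by `HasP.congr` from `h`: `{x // x ≠ ω'} ≃ Fin n` and
`Equiv.altCongrHom` (or restrict `Equiv.permCongrHom`, `Equiv.Perm.sign_permCongr`). -/
theorem hasP_alt_step (G : Type u) [Group G] (n : ℕ) (hn : 3 ≤ n)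
    (h : HasP (G × alternatingGroup (Fin n))) : HasP (G × alternatingGroup (Fin (n + 1))) := by
  obtain ⟨L, hL, e, he⟩ := exists_cyclic (1 : G) (n + 1) (by omega)
  have h4 : 4 ≤ Nat.card (Fin (n + 1)) := by
    rw [Nat.card_eq_fintype_card, Fintype.card_fin]; omega
  obtain ⟨L', ω', hL', e', he'⟩ :=
    exists_alt_blocks h4 (0 : Fin (n + 1)) L hL (fun x => e x) e.injective
  have hcard : Fintype.card {x : Fin (n + 1) // x ≠ ω'} = n := by
    rw [Fintype.card_subtype_compl, Fintype.card_fin, Fintype.card_subtype_eq]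
    rfl
  have eq : {x : Fin (n + 1) // x ≠ ω'} ≃ Fin n := Fintype.equivFinOfCardEq hcard
  have hΔ : HasP (G × alternatingGroup {x : Fin (n + 1) // x ≠ ω'}) :=
    HasP.congr (MulEquiv.prodCongr (MulEquiv.refl G) (Equiv.altCongrHom eq.symm)) h
  refine hasP_of_transversal (MonoidHom.prodMap (MonoidHom.id G) (altIncl ω')) ?_
    (fun g : G × alternatingGroup (Fin (n + 1)) => (g.2 : Equiv.Perm (Fin (n + 1))) ω')
    ?_ L' hL' ?_ hΔ
  · rintro ⟨a, b⟩ ⟨c, d⟩ hh
    have h1 : a = c := (Prod.ext_iff.1 hh).1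
    have h2 : altIncl ω' b = altIncl ω' d := (Prod.ext_iff.1 hh).2
    exact Prod.ext h1 (altIncl_injective ω' h2)
  · rintro ⟨a, σ⟩ ⟨b, τ⟩
    refine (alt_coset ω' σ τ).trans ?_
    constructor
    · rintro ⟨d, hd⟩
      exact ⟨(a⁻¹ * b, d), Prod.ext (by simp) (by simpa using hd)⟩
    · rintro ⟨⟨g, d⟩, hd⟩
      exact ⟨d, (Prod.ext_iff.1 hd).2⟩
  · have hfun : (fun x => ((ev L' x).2 : Equiv.Perm (Fin (n + 1))) ω') = fun x => e (e' x) :=
      funext fun x => (he' x).2
    change Function.Bijective (fun x => ((ev L' x).2 : Equiv.Perm (Fin (n + 1))) ω')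
    rw [hfun]
    exact (e'.trans e).bijective

private theorem T3_sub {H : Type u} [Monoid H] [Subsingleton H] : HasP H := by
  refine ⟨[], ?_, ?_⟩
  · intro B hB
    exact absurd hB (by simp)
  · refine ⟨?_, ?_⟩
    · intro x y _
      exact Subsingleton.elim (α := Unit) x y
    · intro g
      exact ⟨(() : Unit), Subsingleton.elim _ _⟩

private theorem T3_prime {H : Type u} [Monoid H] [Finite H] (hp : (Nat.card H).Prime) :
    HasP H := by
  let e : Fin (Nat.card H) ≃ H := (Finite.equivFin H).symm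
  refine ⟨[⟨Nat.card H, e⟩], ?_, ?_⟩
  · intro B hB
    rw [List.mem_singleton] at hB
    subst hB
    exact hp
  · have hb : Function.Bijective (fun x : Fin (Nat.card H) × Unit => e x.1 * 1) := by
      refine ⟨?_, ?_⟩
      · rintro ⟨a, u⟩ ⟨b, v⟩ hab
        have h1 : e a = e b := by simpa using hab
        exact Prod.ext (e.injective h1) rfl
      · intro g
        exact ⟨(e.symm g, ()), by simp⟩
    exact hb

/-- PROOF. Induction on `n`. For `n ≤ 2` the group is trivial (no blocks), for `n = 3` it has `3` elements (`nat_card_alternatingGroup` or `card_alternatingGroup`; one block with all the elements), and then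
`hasP_alt_step` for `G = PUnit`. -/
theorem hasP_alt (n : ℕ) : HasP (alternatingGroup (Fin n)) := by
  have h3 : ∀ m, 3 ≤ m → HasP (alternatingGroup (Fin m)) := by
    intro m hm
    induction m, hm using Nat.le_induction with
    | base =>
      apply T3_prime
      rw [nat_card_alternatingGroup, Nat.card_eq_fintype_card, Fintype.card_fin]
      norm_num [Nat.factorial]
    | succ k hk ih =>
      have h1 : HasP (PUnit.{1} × alternatingGroup (Fin k)) :=
        HasP.congr (MulEquiv.uniqueProd (M := alternatingGroup (Fin k)) (N := PUnit.{1})).symm ih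
      have h2 := hasP_alt_step PUnit.{1} k hk h1
      exact HasP.congr
        (MulEquiv.uniqueProd (M := alternatingGroup (Fin (k + 1))) (N := PUnit.{1})) h2
  by_cases hn : 3 ≤ n
  · exact h3 n hn
  · have hs : Subsingleton (alternatingGroup (Fin n)) := by
      have h2 : n = 0 ∨ n = 1 ∨ n = 2 := by omega
      rcases h2 with rfl | rfl | rfl
      · infer_instance
      · infer_instance
      · rw [← Finite.card_le_one_iff_subsingleton]
        rw [nat_card_alternatingGroup, Nat.card_eq_fintype_card, Fintype.card_fin]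
        norm_num [Nat.factorial]
    exact T3_sub

/-- PROOF: `HasP.congr` and `hasP_alt`. -/
theorem hasP_alt' (Ω : Type v) [DecidableEq Ω] [Fintype Ω] : HasP (alternatingGroup Ω) :=
  HasP.congr (Equiv.altCongrHom (Fintype.equivFin Ω).symm) (hasP_alt (Fintype.card Ω))

end Pool.Agent.Lib.MP_7a2af1_al
end

section

/-!
# From property U to signatures of `G × Aₙ`
-/

set_option autoImplicit false

namespace Pool.Agent.Lib.MP_7a2af1_al

universe u v

/-- PROOF: add two blocks `[1, 1]` in front: `Idx = Fin 2 × Fin 2 × Idx L`, every multiplicity is `4 μ`. -/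
theorem HasU.four {G : Type u} [Monoid G] (h : HasU G) :
    ∃ L : List (Blk G), PrimeBlks L ∧ ∃ μ : ℕ, 1 ≤ μ ∧
      ∀ g : G, Nat.card {x : Idx L // ev L x = g} = 4 * μ := by
  obtain ⟨L, hL, μ, hμ, hc⟩ := h
  refine ⟨⟨2, fun _ => 1⟩ :: ⟨2, fun _ => 1⟩ :: L, ?_, μ, hμ, ?_⟩
  · intro B hB
    rcases List.mem_cons.1 hB with rfl | hB
    · exact Nat.prime_two
    · rcases List.mem_cons.1 hB with rfl | hB
      · exact Nat.prime_two
      · exact hL B hB
  · intro g
    let E : {x : Idx ((⟨2, fun _ => 1⟩ : Blk G) :: (⟨2, fun _ => 1⟩ : Blk G) :: L) //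
        ev ((⟨2, fun _ => 1⟩ : Blk G) :: (⟨2, fun _ => 1⟩ : Blk G) :: L) x = g} ≃
        Fin 2 × Fin 2 × {x : Idx L // ev L x = g} :=
      { toFun := fun y => (y.1.1, y.1.2.1, ⟨y.1.2.2, by
          have h1 : (1 : G) * (1 * ev L y.1.2.2) = g := y.2
          simpa using h1⟩)
        invFun := fun z => ⟨(z.1, z.2.1, z.2.2.1), by
          have h1 : (1 : G) * (1 * ev L z.2.2.1) = g := by simpa using z.2.2.2
          exact h1⟩
        left_inv := fun y => rfl
        right_inv := fun z => rfl }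
    rw [Nat.card_congr E, Nat.card_prod, Nat.card_prod, hc g, Nat.card_eq_fintype_card,
      Fintype.card_fin]
    ring

private theorem T4_pow {α β : Type} (c₀ : Equiv.Perm β) (t : ℕ) (a : α) (s : β) :
    ((Equiv.prodCongrRight (fun _ : α => c₀)) ^ t) (a, s) = (a, (c₀ ^ t) s) := by
  induction t with
  | zero => rfl
  | succ t ih =>
    rw [pow_succ', pow_succ', Equiv.Perm.mul_apply, ih, Equiv.Perm.mul_apply]
    rfl

private theorem T4_sign (m P : ℕ) (c₀ : Equiv.Perm (Fin P)) :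
    (Equiv.prodCongrRight (fun _ : Fin (4 * m) => c₀)) ∈
      alternatingGroup (Fin (4 * m) × Fin P) := by
  rw [Equiv.Perm.mem_alternatingGroup, Equiv.Perm.sign_prodCongrRight, Finset.prod_const,
    Finset.card_univ, Fintype.card_fin]
  have h2 : (Equiv.Perm.sign c₀) ^ 2 = 1 := Int.units_sq _
  rw [show 4 * m = 2 * (2 * m) by ring, pow_mul, h2, one_pow]

/-- PROOF. As `hasP_of_hasU` (file `A7`; read the proof text there), with `L`, `4 μ` from `HasU.four`, `Ω = Fin (4 * μ) × Fin P`, `P = Nat.card (Idx L) ≥ 4`, `x j = (cl j, r j)`,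
`exists_alt_blocks` in place of `exists_perm_blocks`, `c = (a, s) ↦ (a, c₀ s)`: its sign is `(sign c₀) ^ (4 μ) = 1` (`Equiv.Perm.sign_prodCongrRight`), so `(1, c)` is an element of
`G × alternatingGroup Ω`. `Δ = alternatingGroup {x // x ≠ ω'}`, `j d = (1, altIncl ω' d)`, `alt_coset`, `hasP_alt'`. Finally `HasP.congr` for `Ω ≃ Fin n`, `n = 4 μ P` (`Equiv.altCongrHom`). The
conclusion includes `3 ≤ n`. -/
theorem hasP_of_hasU_alt (G : Type u) [Group G] [Finite G] (h : HasU G) :
    ∃ n : ℕ, 3 ≤ n ∧ HasP (G × alternatingGroup (Fin n)) := by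
  obtain ⟨L, hL, μ, hμ, hcount⟩ := HasU.four h
  obtain ⟨P, hPdef⟩ : ∃ P, Nat.card (Idx L) = P := ⟨_, rfl⟩
  have hP4 : 4 * μ ≤ P := by
    rw [← hPdef, ← hcount 1]
    exact Nat.card_le_card_of_injective (fun x : {x : Idx L // ev L x = 1} => x.1)
      Subtype.val_injective
  have hP1 : 1 ≤ P := by omega
  obtain ⟨cl, hcl⟩ := exists_numbering (ev L) (4 * μ) hcount
  let r : Idx L ≃ Fin P := Finite.equivFinOfCardEq hPdef
  have h4 : 4 ≤ Nat.card (Fin (4 * μ) × Fin P) := by
    rw [Nat.card_prod, Nat.card_eq_fintype_card, Nat.card_eq_fintype_card, Fintype.card_fin,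
      Fintype.card_fin]
    nlinarith
  have hinj : Function.Injective (fun j : Idx L => (cl j, r j)) := by
    intro a b hab
    exact r.injective (Prod.ext_iff.1 hab).2
  obtain ⟨c₀, hc₀⟩ := exists_cycle P hP1
  let ω : Fin (4 * μ) × Fin P := (⟨0, by omega⟩, ⟨0, by omega⟩)
  obtain ⟨L', ω', hL', e', he'⟩ := exists_alt_blocks h4 ω L hL (fun j => (cl j, r j)) hinj
  let c : alternatingGroup (Fin (4 * μ) × Fin P) :=
    ⟨Equiv.prodCongrRight (fun _ : Fin (4 * μ) => c₀), T4_sign μ P c₀⟩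
  obtain ⟨L₁, hL₁, e₁, he₁⟩ := exists_cyclic ((1 : G), c) P hP1
  refine ⟨4 * μ * P, by nlinarith, ?_⟩
  refine HasP.congr (MulEquiv.prodCongr (MulEquiv.refl G)
    (Equiv.altCongrHom (finProdFinEquiv : Fin (4 * μ) × Fin P ≃ Fin (4 * μ * P)))) ?_
  refine hasP_of_transversal
    ((MonoidHom.inr G (alternatingGroup (Fin (4 * μ) × Fin P))).comp (altIncl ω')) ?_
    (fun g : G × alternatingGroup (Fin (4 * μ) × Fin P) =>
      (g.1, (g.2 : Equiv.Perm (Fin (4 * μ) × Fin P)) ω'))
    ?_ (L₁ ++ L') (hL₁.append hL') ?_ (hasP_alt' {x : Fin (4 * μ) × Fin P // x ≠ ω'})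
  · intro a b hab
    have h2 : altIncl ω' a = altIncl ω' b := (Prod.ext_iff.1 hab).2
    exact altIncl_injective ω' h2
  · rintro ⟨a, σ⟩ ⟨b, τ⟩
    constructor
    · intro hab
      obtain ⟨d, hd⟩ := (alt_coset ω' σ τ).1 (Prod.ext_iff.1 hab).2
      refine ⟨d, Prod.ext ?_ ?_⟩
      · have h1 : a = b := (Prod.ext_iff.1 hab).1
        change b = a * 1
        rw [mul_one, h1]
      · exact hd
    · rintro ⟨d, hd⟩
      have h1 : b = a * 1 := (Prod.ext_iff.1 hd).1
      have h2 : τ = σ * altIncl ω' d := (Prod.ext_iff.1 hd).2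
      have h3 := (alt_coset ω' σ τ).2 ⟨d, h2⟩
      rw [mul_one] at h1
      exact Prod.ext h1.symm h3
  · obtain ⟨eA, heA⟩ := exists_append L₁ L'
    let F : Fin P × Idx L → G × (Fin (4 * μ) × Fin P) :=
      fun q => (ev L q.2, (cl q.2, (c₀ ^ (q.1 : ℕ)) (r q.2)))
    have hF : Function.Bijective F := by
      refine ⟨?_, ?_⟩
      · rintro ⟨t, j⟩ ⟨t', j'⟩ hh
        have h1 : ev L j = ev L j' := (Prod.ext_iff.1 hh).1
        have h2 := (Prod.ext_iff.1 hh).2
        have h3 : cl j = cl j' := (Prod.ext_iff.1 h2).1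
        have h4 : (c₀ ^ (t : ℕ)) (r j) = (c₀ ^ (t' : ℕ)) (r j') := (Prod.ext_iff.1 h2).2
        have h5 : j = j' := hcl.1 (Prod.ext h1 h3)
        subst h5
        have h6 : t = t' := (hc₀ (r j)).1 h4
        rw [h6]
      · rintro ⟨g, a, s⟩
        obtain ⟨j, hj⟩ := hcl.2 (g, a)
        obtain ⟨t, ht⟩ := (hc₀ (r j)).2 s
        have hj1 : ev L j = g := (Prod.ext_iff.1 hj).1
        have hj2 : cl j = a := (Prod.ext_iff.1 hj).2
        refine ⟨(t, j), Prod.ext hj1 (Prod.ext hj2 ht)⟩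
    have hfun : (fun x => ((ev (L₁ ++ L') x).1,
        ((ev (L₁ ++ L') x).2 : Equiv.Perm (Fin (4 * μ) × Fin P)) ω')) =
        F ∘ (eA.trans (Equiv.prodCongr e₁ e')) := by
      funext x
      obtain ⟨h1, h2⟩ := he' (eA x).2
      have h3 := he₁ (eA x).1
      rw [heA x, h3]
      have h4 : (((1 : G), c) ^ ((e₁ (eA x).1 : Fin P) : ℕ)) =
          ((1 : G), c ^ ((e₁ (eA x).1 : Fin P) : ℕ)) := by
        rw [Prod.pow_mk, one_pow]
      rw [h4]
      refine Prod.ext ?_ ?_
      · change 1 * (ev L' (eA x).2).1 = _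
        rw [one_mul, h1]
        rfl
      · change (((c ^ ((e₁ (eA x).1 : Fin P) : ℕ) * (ev L' (eA x).2).2 :
          alternatingGroup (Fin (4 * μ) × Fin P))) : Equiv.Perm (Fin (4 * μ) × Fin P)) ω' = _
        rw [Subgroup.coe_mul, Subgroup.coe_pow, Equiv.Perm.mul_apply, h2]
        exact T4_pow c₀ _ _ _
    change Function.Bijective (fun x => ((ev (L₁ ++ L') x).1,
        ((ev (L₁ ++ L') x).2 : Equiv.Perm (Fin (4 * μ) × Fin P)) ω'))
    rw [hfun]
    exact hF.comp (Equiv.bijective _)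

/-- PROOF: `hasP_of_hasU_alt`, `hasP_alt_step` (`Nat.le_induction`), `HasP.hasMLS`. -/
theorem hasMLS_of_hasU_alt (G : Type u) [Group G] [Finite G] (h : HasU G) :
    ∃ n₀ : ℕ, ∀ n, n₀ ≤ n → HasMLS (G × alternatingGroup (Fin n)) := by
  obtain ⟨n₀, h3, hP⟩ := hasP_of_hasU_alt G h
  refine ⟨n₀, fun n hn => HasP.hasMLS ?_⟩
  induction n, hn using Nat.le_induction with
  | base => exact hP
  | succ k hk ih => exact hasP_alt_step G k (le_trans h3 hk) ih

end Pool.Agent.Lib.MP_7a2af1_al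
end
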