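import Pool.Agent.Lib.MP_7a2af1_al.Mg.G001

section

/-!
# Minimal lists of blocks, wreath products: definitions
-/

set_option autoImplicit false

namespace Pool.Agent.Lib.MP_7a2af1_al

universe u v

/-- The sum of `p * m` over the prime powers `p ^ m` exactly dividing `n`. -/
noncomputable def sopfr (n : ℕ) : ℕ := n.factorization.sum (fun p k => p * k)

/-- The sum of the lengths of the blocks is minimal for their product. -/
def MinL {G : Type u} (L : List (Blk G)) : Prop := (L.map Blk.p).sum = sopfr (L.map Blk.p).prod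

/-- Every element is exactly once a product, sum of the lengths minimal. -/
def HasM (G : Type u) [Monoid G] : Prop :=
  ∃ L : List (Blk G), MinL L ∧ Function.Bijective (ev L)

/-- The permutational wreath product `(ℤ/μ)^X ⋊ G`. -/
abbrev Wr (G : Type u) [Group G] (X : Type v) [MulAction G X] (μ : ℕ) : Type (max u v) :=
  (X → Multiplicative (ZMod μ)) ⋊[mulAutArrow (G := G) (A := X) (M := Multiplicative (ZMod μ))] G

/-- The image of the point `(x₀, 0)` under the element `γ`. -/
def pr {G : Type u} [Group G] {X : Type v} [MulAction G X] {μ : ℕ} (x₀ : X) (γ : Wr G X μ) :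
    X × Multiplicative (ZMod μ) := (γ.right • x₀, γ.left (γ.right • x₀))

end Pool.Agent.Lib.MP_7a2af1_al
end

section

/-!
# Minimality is additive
-/

set_option autoImplicit false

namespace Pool.Agent.Lib.MP_7a2af1_al

universe u v

/-- PROOF: `Nat.factorization_mul`, `Finsupp.sum_add_index'`. -/
theorem sopfr_mul {m n : ℕ} (hm : m ≠ 0) (hn : n ≠ 0) : sopfr (m * n) = sopfr m + sopfr n := by
  unfold sopfr
  rw [Nat.factorization_mul hm hn,
    Finsupp.sum_add_index' (fun _ => mul_zero _) (fun _ _ _ => mul_add _ _ _)]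

/-- PROOF: `sum_primes` (file `ML/A2a`). -/
theorem PrimeBlks.minL {G : Type u} {L : List (Blk G)} (h : PrimeBlks L) : MinL L := by
  unfold MinL sopfr
  refine sum_primes _ ?_
  intro p hp
  obtain ⟨B, hB, rfl⟩ := List.mem_map.1 hp
  exact h B hB

/-- PROOF: `List.map_append`, `List.prod_append`, `sopfr_mul`. -/
theorem MinL.append {G : Type u} {L L' : List (Blk G)} (h : MinL L) (h' : MinL L')
    (h0 : (L.map Blk.p).prod ≠ 0) (h0' : (L'.map Blk.p).prod ≠ 0) : MinL (L ++ L') := by
  unfold MinL at h h' ⊢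
  rw [List.map_append, List.sum_append, List.prod_append, sopfr_mul h0 h0', h, h']

theorem MinL.mapB {G : Type u} {H : Type v} (φ : G → H) {L : List (Blk G)} (h : MinL L) :
    MinL (mapB φ L) := by
  have h1 : (Pool.Agent.Lib.MP_7a2af1_al.mapB φ L).map Blk.p = L.map Blk.p := by
    unfold Pool.Agent.Lib.MP_7a2af1_al.mapB
    rw [List.map_map]
    rfl
  unfold MinL at h ⊢
  rw [h1]
  exact h

theorem HasP.hasM {G : Type u} [Monoid G] (h : HasP G) : HasM G := by
  obtain ⟨L, h1, h2⟩ := h
  exact ⟨L, h1.minL, h2⟩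

/-- PROOF: `mapB e`, `exists_map`, `MinL.mapB`. -/
theorem HasM.congr {G : Type u} {H : Type v} [Monoid G] [Monoid H] (e : G ≃* H) (h : HasM G) :
    HasM H := by
  obtain ⟨L, h1, h2⟩ := h
  obtain ⟨e', he'⟩ := exists_map (e : G →* H) L
  refine ⟨mapB (e : G →* H) L, h1.mapB _, ?_⟩
  have h3 : ev (mapB (e : G →* H) L) = e ∘ ev L ∘ e' := by
    funext x
    exact he' x
  rw [h3]
  exact e.bijective.comp (h2.comp e'.bijective)

/-- PROOF: `mapB φ L` has the same lengths; `card_Idx`: if `Idx L` is nonempty (and finite) the product is not `0`. -/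
theorem prod_ne_zero {G : Type u} (L : List (Blk G)) (x : Idx L) : (L.map Blk.p).prod ≠ 0 := by
  rw [← card_Idx L]
  have _inst : Nonempty (Idx L) := ⟨x⟩
  exact Nat.card_pos.ne'

end Pool.Agent.Lib.MP_7a2af1_al
end

section

/-!
# Minimal lists and the literal definition
-/

set_option autoImplicit false

namespace Pool.Agent.Lib.MP_7a2af1_al

universe u v

/-- PROOF. (Reverse direction, as in `HasP.hasMLS`, file `ML/A2`): `toLists L`, `exists_choice_equiv`. (Direct direction): for `blocks` let
`L = blocks.map (fun l => ⟨l.length, l.get⟩)`; `toLists L = blocks` (`List.ofFn_get`), so `exists_choice_equiv` applies; the product of the lengths is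
`Nat.card G` (`card_Idx` and the bijection). -/
theorem hasMLS_iff_hasM (G : Type u) [Group G] [Finite G] : HasMLS G ↔ HasM G := by
  constructor
  · rintro ⟨blocks, hsum, hun⟩
    set L : List (Blk G) := blocks.map fun l => (⟨l.length, l.get⟩ : Blk G) with hL
    have hto : toLists L = blocks := by
      unfold toLists
      rw [hL, List.map_map]
      conv_rhs => rw [← List.map_id blocks]
      refine List.map_congr_left fun l _ => ?_
      exact List.ofFn_get l
    have hp : L.map Blk.p = blocks.map List.length := by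
      rw [hL, List.map_map]
      rfl
    have hbij : Function.Bijective (ev L) := by
      obtain ⟨e, he⟩ := exists_choice_equiv L
      have h1 : ∀ g : G, ∃! c : (i : Fin (toLists L).length) → Fin ((toLists L).get i).length,
          (List.ofFn (fun i => ((toLists L).get i).get (c i))).prod = g := by
        rw [hto]
        exact hun
      have h2 : Function.Bijective fun c => ev L (e c) := by
        rw [Function.bijective_iff_existsUnique]
        intro g
        obtain ⟨c, hc, hu⟩ := h1 g
        exact ⟨c, (he c).symm.trans hc, fun c' hc' => hu c' ((he c').trans hc')⟩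
      have h3 : ev L = (fun c => ev L (e c)) ∘ e.symm := by
        funext x
        exact congrArg (ev L) (e.apply_symm_apply x).symm
      rw [h3]
      exact h2.comp e.symm.bijective
    refine ⟨L, ?_, hbij⟩
    unfold MinL sopfr
    rw [hp]
    have hcard : Nat.card G = (blocks.map List.length).prod := by
      rw [← hp, ← card_Idx L]
      exact (Nat.card_congr (Equiv.ofBijective _ hbij)).symm
    rw [← hcard]
    exact hsum
  · rintro ⟨L, hmin, hbij⟩
    refine ⟨toLists L, ?_, ?_⟩
    · have h1 : (toLists L).map List.length = L.map Blk.p := by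
        unfold toLists
        rw [List.map_map]
        refine List.map_congr_left fun B _ => ?_
        rw [Function.comp_apply, List.length_ofFn]
      have h2 : Nat.card G = (L.map Blk.p).prod := by
        rw [← card_Idx L]
        exact (Nat.card_congr (Equiv.ofBijective _ hbij)).symm
      rw [h1, h2]
      exact hmin
    · intro g
      obtain ⟨e, he⟩ := exists_choice_equiv L
      have h3 : Function.Bijective fun c => ev L (e c) := hbij.comp e.bijective
      obtain ⟨c, hc, hu⟩ := h3.existsUnique g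
      refine ⟨c, (he c).trans hc, fun c' hc' => hu c' ((he c').symm.trans hc')⟩

end Pool.Agent.Lib.MP_7a2af1_al
end

section

/-!
# Transversals
-/

set_option autoImplicit false

namespace Pool.Agent.Lib.MP_7a2af1_al

universe u v w

/-- PROOF: as `hasP_of_transversal` (file `ML/A3`): blocks `L ++ mapB j LΔ`. Injective: from the same product apply `π` (`π (a * j d) = π a`), then cancel. Surjective: for `g`
choose `x` with `π (ev L x) = π g`, so `g = ev L x * j d`. Minimality: `MinL.append`, `prod_ne_zero` (there are indices: `hb 1`, and the index type of `LΔ` is not empty since `ev` is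
surjective). -/
theorem hasM_of_transversal {Γ : Type u} {Δ : Type v} {Ω : Type w} [Group Γ] [Group Δ] (j : Δ →* Γ)
    (hj : Function.Injective j) (π : Γ → Ω) (hπ : ∀ a b, π a = π b ↔ ∃ d : Δ, b = a * j d)
    (L : List (Blk Γ)) (hL : MinL L) (hb : ∀ γ : Γ, ∃! x : Idx L, π (ev L x) = π γ)
    (h : HasM Δ) : HasM Γ := by
  obtain ⟨D, hD, hDb⟩ := h
  obtain ⟨e, he⟩ := exists_append L (mapB j D)
  obtain ⟨e', he'⟩ := exists_map j D
  obtain ⟨x₀, _⟩ := (hb 1).exists
  obtain ⟨y₀, _⟩ := hDb.2 1
  refine ⟨L ++ mapB j D, hL.append (hD.mapB j) (prod_ne_zero L x₀)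
    (prod_ne_zero (mapB j D) (e'.symm y₀)), ?_, ?_⟩
  · intro x y hxy
    rw [he, he, he', he'] at hxy
    have h1 : π (ev L (e x).1) = π (ev L (e y).1) := by
      have h2 : π (ev L (e x).1) = π (ev L (e x).1 * j (ev D (e' (e x).2))) :=
        (hπ _ _).2 ⟨_, rfl⟩
      have h3 : π (ev L (e y).1) = π (ev L (e y).1 * j (ev D (e' (e y).2))) :=
        (hπ _ _).2 ⟨_, rfl⟩
      rw [h2, h3, hxy]
    have h4 : (e x).1 = (e y).1 := (hb (ev L (e y).1)).unique h1 rfl
    rw [h4] at hxy
    have h5 : e' (e x).2 = e' (e y).2 := hDb.1 (hj (mul_left_cancel hxy))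
    exact e.injective (Prod.ext h4 (e'.injective h5))
  · intro g
    obtain ⟨a, ha⟩ := (hb g).exists
    obtain ⟨d, hd⟩ := (hπ _ _).1 ha
    obtain ⟨b, hbd⟩ := hDb.2 d
    refine ⟨e.symm (a, e'.symm b), ?_⟩
    rw [he, he', Equiv.apply_symm_apply, Equiv.apply_symm_apply, hbd]
    exact hd.symm

end Pool.Agent.Lib.MP_7a2af1_al
end

section

/-!
# Abelian groups
-/

set_option autoImplicit false

namespace Pool.Agent.Lib.MP_7a2af1_al

universe u v

private theorem W3_map {G : Type u} {H : Type v} [Monoid G] [Monoid H] (π : G →* H) (s : H → G)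
    (hs : ∀ h, π (s h) = h) (L : List (Blk H)) :
    ∃ e : Idx (mapB s L) ≃ Idx L, ∀ x, π (ev (mapB s L) x) = ev L (e x) := by
  induction L with
  | nil =>
    refine ⟨Equiv.refl Unit, fun x => ?_⟩
    show π 1 = 1
    rw [map_one]
  | cons B L ih =>
    obtain ⟨e, he⟩ := ih
    let e1 : Fin B.p × Idx (mapB s L) ≃ Fin B.p × Idx L := (Equiv.refl (Fin B.p)).prodCongr e
    refine ⟨e1, ?_⟩
    rintro ⟨i, x⟩
    show π (s (B.f i) * ev (mapB s L) x) = B.f i * ev L (e x)
    rw [map_mul, hs, he x]

private theorem W3_prime (G : Type u) [Group G] (h : (Nat.card G).Prime) : HasP G := by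
  have hfin : Finite G := Nat.finite_of_card_ne_zero h.ne_zero
  let e : G ≃ Fin (Nat.card G) := Finite.equivFin G
  have hev : ∀ (i : Fin (Nat.card G)) (y : Unit),
      ev [(⟨Nat.card G, fun i => e.symm i⟩ : Blk G)] ((i, y) : Fin (Nat.card G) × Unit) =
        e.symm i := by
    intro i y
    show e.symm i * 1 = e.symm i
    rw [mul_one]
  refine ⟨[⟨Nat.card G, fun i => e.symm i⟩], ?_, ?_, ?_⟩
  · intro B hB
    rw [List.mem_singleton] at hB
    rw [hB]
    exact h
  · rintro ⟨i, x⟩ ⟨j, y⟩ hxy
    have h1 : e.symm i = e.symm j := by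
      rw [← hev i x, ← hev j y]
      exact hxy
    have h2 : i = j := e.symm.injective h1
    subst h2
    rfl
  · intro g
    refine ⟨((e g, ()) : Fin (Nat.card G) × Unit), ?_⟩
    rw [hev, Equiv.symm_apply_apply]

/-- PROOF: `hasP_of_transversal` with `Γ = G`, `Δ = N`, `j = N.subtype`, `π = QuotientGroup.mk`, `L = mapB Quotient.out L'` for the list `L'` of `G ⧸ N`; by induction on `L'` there is an equivalence
`e : Idx (mapB Quotient.out L') ≃ Idx L'` with `QuotientGroup.mk (ev (mapB Quotient.out L') y) = ev L' (e y)`. -/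
theorem hasP_of_normal (G : Type u) [Group G] (N : Subgroup G) [N.Normal] (h : HasP N)
    (h' : HasP (G ⧸ N)) : HasP G := by
  obtain ⟨L', h1, h2⟩ := h'
  obtain ⟨e, he⟩ := W3_map (QuotientGroup.mk' N) Quotient.out
    (fun q => QuotientGroup.out_eq' q) L'
  refine hasP_of_transversal N.subtype N.subtype_injective (QuotientGroup.mk' N) ?_
    (mapB Quotient.out L') (h1.mapB _) ?_ h
  · intro a b
    rw [QuotientGroup.mk'_eq_mk']
    constructor
    · rintro ⟨z, hz, hb⟩
      exact ⟨⟨z, hz⟩, hb.symm⟩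
    · rintro ⟨d, hd⟩
      exact ⟨d, d.2, hd.symm⟩
  · have h3 : (fun x => QuotientGroup.mk' N (ev (mapB Quotient.out L') x)) = ev L' ∘ e := by
      funext x
      exact he x
    rw [h3]
    exact h2.comp e.bijective

/-- PROOF. Strong induction on the order (in a fixed universe). Trivial group: no blocks. Otherwise take a prime `p` dividing the order and an element `c` of order `p` (Cauchy,
`exists_prime_orderOf_dvd_card'`), `N = Subgroup.zpowers c` (one block with all the elements), and `hasP_of_normal`. -/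
theorem hasP_of_comm (A : Type u) [CommGroup A] [Finite A] : HasP A := by
  suffices H : ∀ n : ℕ, ∀ (A : Type u) [CommGroup A] [Finite A], Nat.card A = n → HasP A from
    H _ A rfl
  intro n
  induction n using Nat.strong_induction_on with
  | _ n ih =>
    intro A _ _ hA
    by_cases h1 : Subsingleton A
    · refine ⟨[], fun B hB => absurd hB List.not_mem_nil, ?_, ?_⟩
      · rintro ⟨⟩ ⟨⟩ _
        rfl
      · intro g
        exact ⟨(), Subsingleton.elim _ _⟩
    · have hnt : Nontrivial A := not_subsingleton_iff_nontrivial.1 h1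
      have hcard : 1 < Nat.card A := Finite.one_lt_card
      obtain ⟨p, hp, hpd⟩ := Nat.exists_prime_and_dvd hcard.ne'
      have := Fact.mk hp
      obtain ⟨c, hc⟩ := exists_prime_orderOf_dvd_card' p hpd
      have hN : Nat.card (Subgroup.zpowers c) = p := by rw [Nat.card_zpowers, hc]
      have h2 : HasP (Subgroup.zpowers c) := W3_prime _ (by rw [hN]; exact hp)
      have hmul := Subgroup.card_eq_card_quotient_mul_card_subgroup (Subgroup.zpowers c)
      have hq : 0 < Nat.card (A ⧸ Subgroup.zpowers c) := Nat.card_pos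
      have hlt : Nat.card (A ⧸ Subgroup.zpowers c) < n := by
        rw [← hA, hmul, hN]
        exact lt_mul_of_one_lt_right hq hp.one_lt
      exact hasP_of_normal A (Subgroup.zpowers c) h2 (ih _ hlt (A ⧸ Subgroup.zpowers c) rfl)

end Pool.Agent.Lib.MP_7a2af1_al
end

section

/-!
# Consecutive intervals
-/

set_option autoImplicit false

namespace Pool.Agent.Lib.MP_7a2af1_al

universe u v

private theorem W4a_aux {I : Type u} (N : I → ℕ) (p : ℕ) :
    ∀ (F : Fin p → Set I), (∀ a, Set.BijOn N (F a) (Set.Iio (F a).ncard)) →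
    ∃ (f : Fin p → ℕ) (T : ℕ), Set.BijOn (fun y : Fin p × I => f y.1 + N y.2) {y | y.2 ∈ F y.1}
      (Set.Iio T) := by
  induction p with
  | zero =>
    intro F _
    refine ⟨fun _ => 0, 0, ?_, ?_, ?_⟩
    · rintro ⟨a, i⟩ _
      exact a.elim0
    · rintro ⟨a, i⟩ _
      exact a.elim0
    · intro n hn
      exact absurd hn (Nat.not_lt_zero n)
  | succ p ih =>
    intro F hN
    obtain ⟨f, T, h1, h2, h3⟩ := ih (fun a => F a.castSucc) (fun a => hN a.castSucc)
    obtain ⟨k1, k2, k3⟩ := hN (Fin.last p)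
    have hl : ∀ a : Fin (p + 1), a = Fin.last p ∨ ∃ b : Fin p, a = b.castSucc := by
      intro a
      induction a using Fin.lastCases with
      | last => exact Or.inl rfl
      | cast b => exact Or.inr ⟨b, rfl⟩
    refine ⟨Fin.snoc (α := fun _ => ℕ) f T, T + (F (Fin.last p)).ncard, ?_, ?_, ?_⟩
    · rintro ⟨a, i⟩ hy
      rcases hl a with rfl | ⟨b, rfl⟩
      · have h4 : N i < (F (Fin.last p)).ncard := k1 hy
        show Fin.snoc (α := fun _ => ℕ) f T (Fin.last p) + N i < _
        rw [Fin.snoc_last]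
        omega
      · have h4 : f b + N i < T := h1 (x := (b, i)) hy
        show Fin.snoc (α := fun _ => ℕ) f T b.castSucc + N i < _
        rw [Fin.snoc_castSucc]
        omega
    · rintro ⟨a, i⟩ hy ⟨a', i'⟩ hy' h
      rcases hl a with rfl | ⟨b, rfl⟩ <;> rcases hl a' with rfl | ⟨b', rfl⟩
      · have h4 : Fin.snoc (α := fun _ => ℕ) f T (Fin.last p) + N i =
          Fin.snoc (α := fun _ => ℕ) f T (Fin.last p) + N i' := h
        have h5 : N i = N i' := by omega
        have h6 : i = i' := k2 hy hy' h5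
        rw [h6]
      · have h4 : Fin.snoc (α := fun _ => ℕ) f T (Fin.last p) + N i =
          Fin.snoc (α := fun _ => ℕ) f T b'.castSucc + N i' := h
        rw [Fin.snoc_last, Fin.snoc_castSucc] at h4
        have h5 : f b' + N i' < T := h1 (x := (b', i')) hy'
        omega
      · have h4 : Fin.snoc (α := fun _ => ℕ) f T b.castSucc + N i =
          Fin.snoc (α := fun _ => ℕ) f T (Fin.last p) + N i' := h
        rw [Fin.snoc_last, Fin.snoc_castSucc] at h4
        have h5 : f b + N i < T := h1 (x := (b, i)) hy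
        omega
      · have h4 : Fin.snoc (α := fun _ => ℕ) f T b.castSucc + N i =
          Fin.snoc (α := fun _ => ℕ) f T b'.castSucc + N i' := h
        rw [Fin.snoc_castSucc, Fin.snoc_castSucc] at h4
        have h5 : ((b, i) : Fin p × I) = (b', i') := h2 hy hy' h4
        have h6 : b = b' := congrArg Prod.fst h5
        have h7 : i = i' := congrArg Prod.snd h5
        rw [h6, h7]
    · intro n hn
      have hn' : n < T + (F (Fin.last p)).ncard := hn
      rcases lt_or_ge n T with hT | hT
      · obtain ⟨⟨b, i⟩, hb, hb'⟩ := h3 (show n ∈ Set.Iio T from hT)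
        refine ⟨(b.castSucc, i), hb, ?_⟩
        show Fin.snoc (α := fun _ => ℕ) f T b.castSucc + N i = n
        rw [Fin.snoc_castSucc]
        exact hb'
      · obtain ⟨i, hi, hi'⟩ := k3 (show n - T ∈ Set.Iio (F (Fin.last p)).ncard from by
          show n - T < _
          omega)
        refine ⟨(Fin.last p, i), hi, ?_⟩
        show Fin.snoc (α := fun _ => ℕ) f T (Fin.last p) + N i = n
        rw [Fin.snoc_last, hi']
        omega

/-- Concatenation of intervals. Let `F a` (`a : Fin p`) be finite sets of a type `I`, with numberings `N : I → ℕ`, bijective from `F a` to `{0, ..., card - 1}`. PROOF. `(a, i) ↦ f a + N i` with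
`f a = ∑ a' < a, card (F a')`: the intervals `[f a, f a + card (F a))` are disjoint and cover `[0, ∑ card)`. E.g. induction on `p` (`Fin.castSucc`, `Fin.last`), or `finSigmaFinEquiv`. -/
theorem exists_offsets {I : Type u} {p : ℕ} (F : Fin p → Set I) (hF : ∀ a, (F a).Finite) (N : I → ℕ)
    (hN : ∀ a, Set.BijOn N (F a) (Set.Iio (F a).ncard)) :
    ∃ f : Fin p → ℕ, Set.BijOn (fun y : Fin p × I => f y.1 + N y.2) {y | y.2 ∈ F y.1}
      (Set.Iio {y : Fin p × I | y.2 ∈ F y.1}.ncard) := by
  obtain ⟨f, T, h⟩ := W4a_aux N p F hN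
  refine ⟨f, ?_⟩
  have h1 : {y : Fin p × I | y.2 ∈ F y.1}.ncard = T := by
    rw [← h.injOn.ncard_image, h.image_eq, Set.ncard_Iio_nat]
  rw [h1]
  exact h

end Pool.Agent.Lib.MP_7a2af1_al
end

section

/-!
# Numbering of paths
-/

set_option autoImplicit false

namespace Pool.Agent.Lib.MP_7a2af1_al

universe u v

/-- PROOF: `SemidirectProduct.mul_left`, `SemidirectProduct.mul_right`, `mulAutArrow` acts by `(g • n) x = n (g⁻¹ • x)`. -/
theorem pr_mul {G : Type u} [Group G] {X : Type v} [MulAction G X] {μ : ℕ} (x₀ : X)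
    (γ γ' : Wr G X μ) :
    pr x₀ (γ * γ') = (γ.right • (pr x₀ γ').1,
      γ.left (γ.right • (pr x₀ γ').1) * (pr x₀ γ').2) := by
  have h1 : (γ * γ').right • x₀ = γ.right • (γ'.right • x₀) := by
    rw [SemidirectProduct.mul_right, mul_smul]
  have h2 : (γ * γ').left (γ.right • (γ'.right • x₀)) =
      γ.left (γ.right • (γ'.right • x₀)) * γ'.left (γ'.right • x₀) := by
    rw [SemidirectProduct.mul_left, Pi.mul_apply]
    congr 1
    show γ'.left (γ.right⁻¹ • (γ.right • (γ'.right • x₀))) = _
    rw [inv_smul_smul]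
  show ((γ * γ').right • x₀, (γ * γ').left ((γ * γ').right • x₀)) = _
  rw [h1, h2]
  rfl

/-- Numbering of paths. PROOF. Induction on `L`. `[]`: `N = 0`. `B :: L` with `L'`, `N'`, `e'` for `L`: for every `z : X` apply `exists_offsets` to the sets
`F a = {i : Idx L | ev L i • x₀ = (B.f a)⁻¹ • z}` and `N'`: offsets `f z a`. Take `N (a, i) = f (B.f a • ev L i • x₀) a + N' i` and the block
`a ↦ ⟨fun z => Multiplicative.ofAdd (f z a : ZMod μ), B.f a⟩`. The fibre of `N` over `z` is `{(a, i) | i ∈ F a}`. `pr_mul`. -/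
theorem exists_numbered {G : Type u} [Group G] {X : Type v} [MulAction G X] (x₀ : X) (μ : ℕ)
    (L : List (Blk G)) :
    ∃ (L' : List (Blk (Wr G X μ))) (N : Idx L → ℕ) (e : Idx L' ≃ Idx L),
      (PrimeBlks L → PrimeBlks L') ∧
      (∀ z : X, Set.BijOn N {i | ev L i • x₀ = z} (Set.Iio {i | ev L i • x₀ = z}.ncard)) ∧
      ∀ y, pr x₀ (ev L' y) =
        (ev L (e y) • x₀, Multiplicative.ofAdd ((N (e y) : ℕ) : ZMod μ)) := by
  induction L with
  | nil =>
    refine ⟨[], fun _ => 0, Equiv.refl _, fun h => ?_, fun z => ?_, fun y => ?_⟩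
    · intro B hB
      exact absurd hB List.not_mem_nil
    · have hsub : ∀ i j : Idx ([] : List (Blk G)), i = j := by
        intro i j
        cases i
        cases j
        rfl
      by_cases hz : x₀ = z
      · have h1 : {i : Idx ([] : List (Blk G)) | ev [] i • x₀ = z} = Set.univ := by
          apply Set.eq_univ_of_forall
          intro i
          show (1 : G) • x₀ = z
          rw [one_smul]
          exact hz
        have h2 : {i : Idx ([] : List (Blk G)) | ev [] i • x₀ = z}.ncard = 1 := by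
          rw [Set.ncard_eq_one]
          refine ⟨(() : Unit), ?_⟩
          rw [h1]
          ext i
          exact ⟨fun _ => hsub _ _, fun _ => trivial⟩
        rw [h2]
        refine ⟨fun i _ => ?_, fun i _ j _ _ => hsub i j, fun n hn => ?_⟩
        · show 0 < 1
          exact Nat.one_pos
        · refine ⟨(() : Unit), ?_, ?_⟩
          · rw [h1]
            trivial
          · have hn' : n < 1 := hn
            show 0 = n
            omega
      · have h1 : {i : Idx ([] : List (Blk G)) | ev [] i • x₀ = z} = ∅ := by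
          apply Set.eq_empty_of_forall_notMem
          intro i hi
          have hi' : (1 : G) • x₀ = z := hi
          rw [one_smul] at hi'
          exact hz hi'
        rw [h1, Set.ncard_empty]
        refine ⟨fun i hi => absurd hi (Set.notMem_empty i), fun i hi => absurd hi (Set.notMem_empty i),
          fun n hn => absurd hn (Nat.not_lt_zero n)⟩
    · show ((1 : Wr G X μ).right • x₀, (1 : Wr G X μ).left ((1 : Wr G X μ).right • x₀)) =
        ((1 : G) • x₀, Multiplicative.ofAdd (((0 : ℕ) : ℕ) : ZMod μ))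
      rw [SemidirectProduct.one_right, SemidirectProduct.one_left, Nat.cast_zero]
      rfl
  | cons B L ih =>
    obtain ⟨L', N', e', hP, hN, hE⟩ := ih
    have hF : ∀ (z : X) (a : Fin B.p), ({i : Idx L | ev L i • x₀ = (B.f a)⁻¹ • z}).Finite :=
      fun z a => Set.toFinite _
    choose f hf using fun z : X => exists_offsets (fun a : Fin B.p => {i : Idx L | ev L i • x₀ = (B.f a)⁻¹ • z})
      (hF z) N' (fun a => hN _)
    let C : Blk (Wr G X μ) := ⟨B.p, fun a => ⟨fun z => Multiplicative.ofAdd ((f z a : ℕ) : ZMod μ), B.f a⟩⟩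
    let e1 : Fin B.p × Idx L' ≃ Fin B.p × Idx L := (Equiv.refl (Fin B.p)).prodCongr e'
    let N : Fin B.p × Idx L → ℕ := fun y => f (B.f y.1 • ev L y.2 • x₀) y.1 + N' y.2
    refine ⟨C :: L', N, e1, ?_, ?_, ?_⟩
    · intro h D hD
      rcases List.mem_cons.1 hD with h1 | h1
      · rw [h1]
        exact h B List.mem_cons_self
      · exact hP (fun B' hB' => h B' (List.mem_cons_of_mem _ hB')) D h1
    · intro z
      have hset : ({i : Idx (B :: L) | ev (B :: L) i • x₀ = z} : Set (Fin B.p × Idx L)) =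
          {y : Fin B.p × Idx L | y.2 ∈ {i : Idx L | ev L i • x₀ = (B.f y.1)⁻¹ • z}} := by
        ext ⟨a, i⟩
        show (B.f a * ev L i) • x₀ = z ↔ ev L i • x₀ = (B.f a)⁻¹ • z
        rw [mul_smul, eq_inv_smul_iff]
      have key : Set.BijOn N {y : Fin B.p × Idx L | y.2 ∈ {i : Idx L | ev L i • x₀ = (B.f y.1)⁻¹ • z}}
          (Set.Iio ({y : Fin B.p × Idx L | y.2 ∈ {i : Idx L | ev L i • x₀ = (B.f y.1)⁻¹ • z}}).ncard) := by
        refine (hf z).congr ?_
        rintro ⟨a, i⟩ hi
        have hi' : ev L i • x₀ = (B.f a)⁻¹ • z := hi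
        show f z a + N' i = f (B.f a • ev L i • x₀) a + N' i
        rw [hi', smul_inv_smul]
      have key2 := hset ▸ key
      exact key2
    · rintro ⟨a, y⟩
      have h1 := pr_mul x₀ (C.f a) (ev L' y)
      have h2 := hE y
      show pr x₀ (C.f a * ev L' y) = ((B.f a * ev L (e' y)) • x₀,
        Multiplicative.ofAdd (((f (B.f a • ev L (e' y) • x₀) a + N' (e' y) : ℕ)) : ZMod μ))
      rw [h1, h2]
      show (B.f a • (ev L (e' y) • x₀), Multiplicative.ofAdd ((f (B.f a • (ev L (e' y) • x₀)) a : ℕ) : ZMod μ) *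
        Multiplicative.ofAdd ((N' (e' y) : ℕ) : ZMod μ)) = _
      rw [← ofAdd_add, mul_smul, Nat.cast_add]

end Pool.Agent.Lib.MP_7a2af1_al
end

section

/-!
# The stabiliser of a point in the wreath product
-/

set_option autoImplicit false

namespace Pool.Agent.Lib.MP_7a2af1_al

universe u v

/-- The stabiliser of `(x₀, 0)` (complete definition). -/
def St (G : Type u) [Group G] {X : Type v} [MulAction G X] (μ : ℕ) (x₀ : X) :
    Subgroup (Wr G X μ) where
  carrier := {γ | pr x₀ γ = (x₀, 1)}
  mul_mem' := by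
    intro a b ha hb
    simp only [Set.mem_setOf_eq] at ha hb ⊢
    rw [pr_mul, hb]
    have h1 := congrArg Prod.fst ha
    have h2 := congrArg Prod.snd ha
    simp only [pr] at h1 h2
    rw [h1] at h2
    simp only [h1, h2, mul_one]
  one_mem' := by
    simp [pr]
  inv_mem' := by
    intro a ha
    simp only [Set.mem_setOf_eq] at ha ⊢
    have h3 := pr_mul x₀ a⁻¹ a
    rw [inv_mul_cancel] at h3
    rw [ha] at h3
    have h0 : pr x₀ (1 : Wr G X μ) = (x₀, 1) := by simp [pr]
    rw [h0] at h3
    simp only [mul_one] at h3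
    exact h3.symm

/-- PROOF: `pr x₀ (a * d) = pr x₀ a` for `d ∈ St`, and conversely `pr x₀ (a⁻¹ * b) = (x₀, 1)` if `pr x₀ a = pr x₀ b` (`pr_mul`). -/
theorem pr_eq_iff {G : Type u} [Group G] {X : Type v} [MulAction G X] {μ : ℕ} (x₀ : X)
    (a b : Wr G X μ) : pr x₀ a = pr x₀ b ↔ ∃ d : St G μ x₀, b = a * (St G μ x₀).subtype d := by
  constructor
  · intro hab
    have h1 : pr x₀ (a⁻¹ * b) = (x₀, 1) := by
      rw [pr_mul, ← hab, ← pr_mul, inv_mul_cancel]
      exact (St G μ x₀).one_mem'
    exact ⟨⟨a⁻¹ * b, h1⟩, (mul_inv_cancel_left a b).symm⟩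
  · rintro ⟨d, rfl⟩
    have h1 : pr x₀ ((St G μ x₀).subtype d) = (x₀, 1) := d.2
    rw [pr_mul, h1, mul_one]
    rfl

/-- PROOF. `hasM_of_transversal` for `Γ = St G μ x₀`, `π : Γ → MulAction.stabilizer G x₀`, `γ ↦ γ.right` (it is in the stabiliser), `Δ = {n : X → Multiplicative (ZMod μ) | n x₀ = 1}` (a subgroup of a commutative
group, e.g. `(Pi.evalMonoidHom _ x₀).ker`), `j n = SemidirectProduct.inl n`, and `L = mapB s LK` for the list `LK` of `HasM (MulAction.stabilizer G x₀)`, with the homomorphism `s k = SemidirectProduct.inr k`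
(`exists_map`). `π a = π b` iff `a⁻¹ b` has `right = 1`. `Δ` has `HasP` by `hasP_of_comm`, so `HasM`. -/
theorem hasM_St {G : Type u} [Group G] {X : Type v} [MulAction G X] [Finite X] {μ : ℕ} [NeZero μ]
    (x₀ : X) (h : HasM (MulAction.stabilizer G x₀)) : HasM (St G μ x₀) := by
  classical
  have hright : ∀ γ : St G μ x₀, (γ : Wr G X μ).right • x₀ = x₀ := fun γ =>
    congrArg Prod.fst (show pr x₀ (γ : Wr G X μ) = (x₀, 1) from γ.2)
  have hleft : ∀ γ : St G μ x₀, (γ : Wr G X μ).left x₀ = 1 := fun γ => by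
    have h1 := congrArg Prod.snd (show pr x₀ (γ : Wr G X μ) = (x₀, 1) from γ.2)
    have h2 : (γ : Wr G X μ).left ((γ : Wr G X μ).right • x₀) = 1 := h1
    rwa [hright γ] at h2
  let Δ : Subgroup (X → Multiplicative (ZMod μ)) :=
    (Pi.evalMonoidHom (fun _ : X => Multiplicative (ZMod μ)) x₀).ker
  have hΔ : ∀ m : X → Multiplicative (ZMod μ), m ∈ Δ ↔ m x₀ = 1 := fun m => Iff.rfl
  let j0 : Δ →* Wr G X μ := SemidirectProduct.inl.comp Δ.subtype
  have hj0 : ∀ d : Δ, j0 d ∈ St G μ x₀ := by
    intro d
    show pr x₀ (j0 d) = (x₀, 1)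
    have h1 : (j0 d).right = 1 := rfl
    have h2 : (j0 d).left = (d : X → Multiplicative (ZMod μ)) := rfl
    unfold pr
    rw [h1, h2, one_smul, (hΔ _).1 d.2]
  let j : Δ →* St G μ x₀ := j0.codRestrict (St G μ x₀) hj0
  let s0 : MulAction.stabilizer G x₀ →* Wr G X μ :=
    SemidirectProduct.inr.comp (MulAction.stabilizer G x₀).subtype
  have hs0 : ∀ k, s0 k ∈ St G μ x₀ := by
    intro k
    show pr x₀ (s0 k) = (x₀, 1)
    have h1 : (s0 k).right = (k : G) := rfl
    have h2 : (s0 k).left = 1 := rfl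
    have h3 : (k : G) • x₀ = x₀ := k.2
    unfold pr
    rw [h1, h2, h3]
    rfl
  let s : MulAction.stabilizer G x₀ →* St G μ x₀ := s0.codRestrict (St G μ x₀) hs0
  obtain ⟨LK, hLK, hbij⟩ := h
  obtain ⟨e, he⟩ := exists_map s LK
  have hinl : Function.Injective j := by
    intro d d' hdd
    have h1 : j0 d = j0 d' := congrArg Subtype.val hdd
    exact Subtype.ext (congrArg SemidirectProduct.left h1)
  refine hasM_of_transversal j hinl
    (fun γ => (⟨(γ : Wr G X μ).right, hright γ⟩ : MulAction.stabilizer G x₀)) ?_ (mapB s LK)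
    (hLK.mapB s) ?_ (HasP.hasM (hasP_of_comm Δ))
  · intro a b
    constructor
    · intro hab
      have h1 : (a : Wr G X μ).right = (b : Wr G X μ).right := congrArg Subtype.val hab
      have h2 : ((a⁻¹ * b : St G μ x₀) : Wr G X μ).right = 1 := by
        show (a : Wr G X μ).right⁻¹ * (b : Wr G X μ).right = 1
        rw [h1, inv_mul_cancel]
      refine ⟨⟨((a⁻¹ * b : St G μ x₀) : Wr G X μ).left, (hΔ _).2 (hleft (a⁻¹ * b))⟩, ?_⟩
      have h3 : j ⟨((a⁻¹ * b : St G μ x₀) : Wr G X μ).left, (hΔ _).2 (hleft (a⁻¹ * b))⟩ =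
          a⁻¹ * b := by
        apply Subtype.ext
        refine SemidirectProduct.ext ?_ ?_
        · rfl
        · exact h2.symm
      rw [h3, mul_inv_cancel_left]
    · rintro ⟨d, rfl⟩
      apply Subtype.ext
      show (a : Wr G X μ).right = ((a * j d : St G μ x₀) : Wr G X μ).right
      have h1 : ((a * j d : St G μ x₀) : Wr G X μ).right = (a : Wr G X μ).right * 1 := rfl
      rw [h1, mul_one]
  · intro γ
    obtain ⟨x, hx⟩ := hbij.2 (⟨(γ : Wr G X μ).right, hright γ⟩ : MulAction.stabilizer G x₀)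
    have hπs : ∀ k : MulAction.stabilizer G x₀,
        (⟨((s k : St G μ x₀) : Wr G X μ).right, hright (s k)⟩ : MulAction.stabilizer G x₀) = k :=
      fun k => Subtype.ext rfl
    refine ⟨e.symm x, ?_, ?_⟩
    · simp only [he, Equiv.apply_symm_apply]
      rw [hπs, hx]
    · intro y hy
      simp only [he] at hy
      rw [hπs, ← hx] at hy
      rw [Equiv.eq_symm_apply]
      exact hbij.1 hy

end Pool.Agent.Lib.MP_7a2af1_al
end

section

/-!
# All multiples of the multiplicity
-/

set_option autoImplicit false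

namespace Pool.Agent.Lib.MP_7a2af1_al

universe u v

/-- PROOF: for `t ≥ 1` add blocks of ones: `exists_cyclic 1 t` gives a list `L₁` with `Idx L₁ ≃ Fin t` and `ev L₁ x = 1`; take `L₁ ++ L` (`exists_append`): every multiplicity is `t * m`. -/
theorem HasU.multiples {G : Type u} [Group G] (h : HasU G) :
    ∃ m : ℕ, 1 ≤ m ∧ ∀ t : ℕ, 1 ≤ t → ∃ L : List (Blk G), PrimeBlks L ∧
      ∀ g : G, Nat.card {x : Idx L // ev L x = g} = m * t := by
  obtain ⟨L, hL, m, hm, hc⟩ := h
  refine ⟨m, hm, fun t ht => ?_⟩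
  obtain ⟨L₁, hL₁, e1, he1⟩ := exists_cyclic (1 : G) t ht
  obtain ⟨e, he⟩ := exists_append L₁ L
  refine ⟨L₁ ++ L, hL₁.append hL, fun g => ?_⟩
  have hiff : ∀ x : Idx (L₁ ++ L), ev (L₁ ++ L) x = g ↔ ev L (e x).2 = g := by
    intro x
    rw [he x, he1, one_pow, one_mul]
  let E : {x : Idx (L₁ ++ L) // ev (L₁ ++ L) x = g} ≃ Idx L₁ × {y : Idx L // ev L y = g} :=
    { toFun := fun x => ((e x.1).1, ⟨(e x.1).2, (hiff x.1).1 x.2⟩)
      invFun := fun q => ⟨e.symm (q.1, q.2.1), (hiff _).2 (by
        rw [Equiv.apply_symm_apply]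
        exact q.2.2)⟩
      left_inv := fun x => Subtype.ext (e.symm_apply_apply x.1)
      right_inv := fun q => by
        have h1 := e.apply_symm_apply (q.1, q.2.1)
        have h2 : (e (e.symm (q.1, q.2.1))).1 = q.1 := by rw [h1]
        have h3 : (e (e.symm (q.1, q.2.1))).2 = q.2.1 := by rw [h1]
        exact Prod.ext h2 (Subtype.ext h3) }
  rw [Nat.card_congr E, Nat.card_prod, hc g, Nat.card_congr e1, Nat.card_fin, mul_comm]

/-- PROOF. The set `{i | ev L i • x₀ = g • x₀}` is the disjoint union over `h ∈ g K`, `K = MulAction.stabilizer G x₀`, of the sets `{i | ev L i = h}` with `ν` elements. -/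
theorem ncard_orbit {G : Type u} [Group G] [Finite G] {X : Type v} [MulAction G X] (x₀ : X)
    (L : List (Blk G)) (ν : ℕ) (h : ∀ g : G, Nat.card {x : Idx L // ev L x = g} = ν) (g : G) :
    {i : Idx L | ev L i • x₀ = g • x₀}.ncard = ν * Nat.card (MulAction.stabilizer G x₀) := by
  have hmem : ∀ i : Idx L, ev L i • x₀ = g • x₀ → g⁻¹ * ev L i ∈ MulAction.stabilizer G x₀ := by
    intro i hi
    rw [MulAction.mem_stabilizer_iff, mul_smul, hi, inv_smul_smul]
  let E : {i : Idx L // ev L i • x₀ = g • x₀} ≃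
      Σ k : MulAction.stabilizer G x₀, {x : Idx L // ev L x = g * (k : G)} :=
    { toFun := fun i => ⟨⟨g⁻¹ * ev L i.1, hmem i.1 i.2⟩, ⟨i.1, by
        show ev L i.1 = g * (g⁻¹ * ev L i.1)
        rw [mul_inv_cancel_left]⟩⟩
      invFun := fun z => ⟨z.2.1, by
        rw [z.2.2, mul_smul]
        exact congrArg (g • ·) z.1.2⟩
      left_inv := fun i => rfl
      right_inv := fun z => by
        obtain ⟨⟨k, hk⟩, ⟨x, hx⟩⟩ := z
        have hk' : g⁻¹ * ev L x = k := by
          rw [hx]
          exact inv_mul_cancel_left g k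
        subst hk'
        rfl }
  rw [← Nat.card_coe_set_eq]
  have h1 : Nat.card ({i : Idx L | ev L i • x₀ = g • x₀} : Set (Idx L)) =
      Nat.card {i : Idx L // ev L i • x₀ = g • x₀} := rfl
  have hft : Fintype (MulAction.stabilizer G x₀) := Fintype.ofFinite _
  rw [h1, Nat.card_congr E, Nat.card_sigma, Finset.sum_congr rfl (fun k _ => h _),
    Finset.sum_const, Finset.card_univ, ← Nat.card_eq_fintype_card, smul_eq_mul, mul_comm]

end Pool.Agent.Lib.MP_7a2af1_al
end
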